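import Mathlib

/-!
PLAN (NZF-Hur). hurwitz: g is entire and not identically 0, so its zeros are isolated: choose 0 < r < min(eps, R) with
g <> 0 on the sphere |z - c| = r (AnalyticAt.eventually_eq_zero_or_eventually_ne_zero + identity theorem
AnalyticOnNhd.eqOn_zero_of_preconnected_of_eventuallyEq_zero; pick r with closed punctured ball zero free). Let M > 0 be the
minimum of |g| on the sphere (IsCompact.exists_isMinOn). By hlim, for every z on the sphere eventually in atTop x nhds z
|f n z'| > M/2; compactness (IsCompact.eventually_forall_of_forall_eventually or the tube lemma) gives: eventually in n,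
|f n z| > M/2 for all z on the sphere; also |f n c| < M/8 eventually. Then DiffContOnCl.ball_subset_image_closedBall
(Mathlib, Analysis/Complex/OpenMapping) gives 0 in the image of the closed ball of radius r (or use the maximum principle for
1/f n). tendsto_one_add_pow: eventually 1 + g <> 0 and (1+g)^N = exp (N * log (1+g)); log (1+z) = z * phi z with phi
continuous at 0, phi 0 = 1 (dslope), so N log(1+g) = (N g) phi(g) tends to t.
-/

set_option autoImplicit false

namespace Pool.Agent.NZF

open Filter Topology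

/-- Hurwitz: locally uniform limits (in joint filter form) of holomorphic functions; a zero of the
limit which is not locally constant is a limit of zeros. -/
theorem hurwitz {f : ℕ → ℂ → ℂ} {g : ℂ → ℂ} {c : ℂ} {R : ℝ} (hR : 0 < R)
    (hf : ∀ᶠ n in atTop, DifferentiableOn ℂ (f n) (Metric.ball c R))
    (hg : Differentiable ℂ g) (hc : g c = 0) (hne : ∃ z, g z ≠ 0)
    (hlim : ∀ z ∈ Metric.ball c R,
      Tendsto (fun p : ℕ × ℂ => f p.1 p.2) (atTop ×ˢ 𝓝 z) (𝓝 (g z)))
    {ε : ℝ} (hε : 0 < ε) :
    ∀ᶠ n in atTop, ∃ z, ‖z - c‖ < ε ∧ f n z = 0 := by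
  have hga : AnalyticOnNhd ℂ g Set.univ := fun z _ => hg.analyticAt z
  have hiso : ∀ᶠ z in 𝓝[≠] c, g z ≠ 0 := by
    rcases (hg.analyticAt c).eventually_eq_zero_or_eventually_ne_zero with h | h
    · exfalso
      have h2 : g = fun _ => (0 : ℂ) :=
        AnalyticOnNhd.eq_of_eventuallyEq hga (fun z _ => analyticAt_const) h
      obtain ⟨z, hz⟩ := hne
      exact hz (by rw [h2])
    · exact h
  rw [eventually_nhdsWithin_iff, Metric.eventually_nhds_iff] at hiso
  obtain ⟨δ, hδ, hiso⟩ := hiso
  set r : ℝ := min (min ε R) δ / 2 with hr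
  have hm0 : 0 < min (min ε R) δ := lt_min (lt_min hε hR) hδ
  have hr0 : 0 < r := by positivity
  have hrε : r < ε := by
    have := (min_le_left (min ε R) δ).trans (min_le_left ε R); rw [hr]; linarith
  have hrR : r < R := by
    have := (min_le_left (min ε R) δ).trans (min_le_right ε R); rw [hr]; linarith
  have hrδ : r < δ := by
    have := min_le_right (min ε R) δ; rw [hr]; linarith
  have hsne : (Metric.sphere c r).Nonempty := NormedSpace.sphere_nonempty.mpr hr0.le
  obtain ⟨w, hw, hwmin⟩ := (isCompact_sphere c r).exists_isMinOn hsne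
    (hg.continuous.norm.continuousOn)
  set M : ℝ := ‖g w‖ with hM
  have hM0 : 0 < M := by
    refine norm_pos_iff.mpr (hiso ?_ ?_)
    · rw [Metric.mem_sphere] at hw; rw [hw]; exact hrδ
    · intro h
      rw [Set.mem_singleton_iff] at h
      rw [Metric.mem_sphere, h, dist_self] at hw
      linarith
  have hMle : ∀ z ∈ Metric.sphere c r, M ≤ ‖g z‖ := fun z hz => hwmin hz
  -- lower bound on the sphere
  have hsph : ∀ᶠ n in atTop, ∀ z ∈ Metric.sphere c r, M / 2 < ‖f n z‖ := by
    have h1 : {p : ℕ × ℂ | M / 2 < ‖f p.1 p.2‖} ∈ (atTop : Filter ℕ) ×ˢ 𝓝ˢ (Metric.sphere c r) := by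
      refine (isCompact_sphere c r).mem_prod_nhdsSet_of_forall (fun z hz => ?_)
      have hzR : z ∈ Metric.ball c R := by
        rw [Metric.mem_sphere] at hz; rw [Metric.mem_ball, hz]; exact hrR
      have h2 := (hlim z hzR).norm
      have h3 : M / 2 < ‖g z‖ := by have := hMle z hz; linarith
      exact h2.eventually (lt_mem_nhds h3)
    rw [Filter.mem_prod_iff] at h1
    obtain ⟨t, ht, u, hu, htu⟩ := h1
    filter_upwards [ht] with n hn z hz
    exact htu (Set.mk_mem_prod hn (subset_of_mem_nhdsSet hu hz))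
  have hcen : ∀ᶠ n in atTop, ‖f n c‖ < M / 2 := by
    have h1 : Tendsto (fun n : ℕ => (n, c)) atTop (atTop ×ˢ 𝓝 c) :=
      tendsto_id.prodMk tendsto_const_nhds
    have h2 := ((hlim c (Metric.mem_ball_self hR)).comp h1).norm
    rw [hc, norm_zero] at h2
    exact h2.eventually (gt_mem_nhds (by linarith))
  filter_upwards [hf, hsph, hcen] with n hfn hs hcn
  by_contra hno
  push Not at hno
  have hcl : closure (Metric.ball c r) = Metric.closedBall c r := closure_ball c hr0.ne'
  have hsub : Metric.closedBall c r ⊆ Metric.ball c R := Metric.closedBall_subset_ball hrR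
  have hnz : ∀ z ∈ closure (Metric.ball c r), f n z ≠ 0 := by
    intro z hz
    rw [hcl, Metric.mem_closedBall, dist_eq_norm] at hz
    exact hno z (lt_of_le_of_lt hz hrε)
  have hd : DiffContOnCl ℂ (f n) (Metric.ball c r) := by
    apply DifferentiableOn.diffContOnCl
    rw [hcl]
    exact hfn.mono hsub
  have hinv := hd.inv hnz
  have hb := Complex.norm_le_of_forall_mem_frontier_norm_le (C := 2 / M) Metric.isBounded_ball hinv
    (by
      intro z hz
      rw [frontier_ball c hr0.ne'] at hz
      have h1 := hs z hz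
      rw [Pi.inv_apply, norm_inv]
      have h2 : (0 : ℝ) < M / 2 := by linarith
      have h3 := inv_anti₀ h2 h1.le
      rw [inv_div] at h3
      exact h3)
    (subset_closure (Metric.mem_ball_self hr0))
  rw [Pi.inv_apply, norm_inv] at hb
  have hfc : 0 < ‖f n c‖ := norm_pos_iff.mpr (hnz c (subset_closure (Metric.mem_ball_self hr0)))
  rw [inv_le_comm₀ hfc (by positivity), inv_div] at hb
  linarith

/-- `(1+g)^N` tends to `exp t` if `g` tends to `0` and `N g` to `t`. -/
theorem tendsto_one_add_pow {ι : Type*} {l : Filter ι} {N : ι → ℕ} {g : ι → ℂ} {t : ℂ}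
    (hg : Tendsto g l (𝓝 0)) (hN : Tendsto (fun i => (N i : ℂ) * g i) l (𝓝 t)) :
    Tendsto (fun i => (1 + g i) ^ N i) l (𝓝 (Complex.exp t)) := by
  set L : ℂ → ℂ := fun z => Complex.log (1 + z) with hL
  have hdiff : DifferentiableAt ℂ L 0 := by
    have h1 : (1 : ℂ) + 0 ∈ Complex.slitPlane := by simp
    exact (differentiableAt_id.const_add (1 : ℂ)).clog h1
  have hder : deriv L 0 = 1 := by
    have h1 : (1 : ℂ) + 0 ∈ Complex.slitPlane := by simp
    have h2 : HasDerivAt (fun z : ℂ => 1 + z) 1 0 := (hasDerivAt_id (0 : ℂ)).const_add 1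
    have h3 := h2.clog h1
    rw [h3.deriv]; simp
  set φ : ℂ → ℂ := dslope L 0 with hφ
  have hφc : ContinuousAt φ 0 := by
    rw [hφ, continuousAt_dslope_same]
    exact hdiff
  have hφ0 : φ 0 = 1 := by rw [hφ, dslope_same, hder]
  have hφt : Tendsto (fun i => φ (g i)) l (𝓝 1) := by
    have := hφc.tendsto.comp hg
    rwa [hφ0] at this
  have hLφ : ∀ z, L z = z * φ z := by
    intro z
    have h1 := sub_smul_dslope L 0 z
    have h2 : L 0 = 0 := by simp [hL]
    rw [sub_zero, h2, sub_zero, smul_eq_mul] at h1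
    exact h1.symm
  have hlog : Tendsto (fun i => (N i : ℂ) * L (g i)) l (𝓝 t) := by
    have h1 := hN.mul hφt
    rw [mul_one] at h1
    refine h1.congr (fun i => ?_)
    rw [hLφ]; ring
  have hexp := (Complex.continuous_exp.tendsto t).comp hlog
  refine hexp.congr' ?_
  have hev : ∀ᶠ i in l, 1 + g i ≠ 0 := by
    have h1 : Tendsto (fun i => 1 + g i) l (𝓝 (1 + 0)) := hg.const_add 1
    rw [add_zero] at h1
    exact h1.eventually_ne one_ne_zero
  filter_upwards [hev] with i hi
  simp only [Function.comp_apply, hL]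
  rw [Complex.exp_nat_mul, Complex.exp_log hi]

end Pool.Agent.NZF
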