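import Pool.Agent.NZF.Defs
import Pool.Agent.NZF.Hur

/-!
PLAN (NZF-CaseW). W_closed: strong induction on j (W (j+2) = 2 W (j+1) - a W j, a = 2d - d^2, roots 2-d and d of X^2 - 2X + a).
caseW_zeros: put d = c / l, c near c0 = 2 pi i. f l c := (1 - 1/(W_l - 1))^(k_l) - 2, k_l = floor(2^l log 2), where
W_l = ((2-d)^(l+1) - d^(l+1)) / (2 (1-d)), g c := exp(-(log 2) exp(c/2)) - 2 (entire, g c0 = exp(log 2) - 2 = 0, g 0 = 1/2 - 2 <> 0).
Joint limits (filter atTop x nhds c1): d -> 0; (2-d)^(l+1) / 2^(l+1) = (1 - d/2)^(l+1) -> exp(-c/2) by tendsto_one_add_pow;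
d^(l+1)/2^(l+1) -> 0; so W_l / 2^l -> exp(-c/2), 1/(W_l - 1) -> 0, k_l / (W_l - 1) -> (log 2) exp(c/2), hence
(1 - 1/(W_l-1))^(k_l) -> exp(-(log 2) exp(c/2)). Apply hurwitz with every eps (choose c_l for each l: use
the eventual statement for all eps to get c_l -> c0, e.g. define c_l as a zero whose distance to c0 is < 2 * infimum or use
a diagonal choice / Filter.exists_seq...: for every N pick l_N; or simpler: choose for each l a zero minimising |c - c0| up to 1/l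
and show its distance tends to 0). Differentiability of f l on ball c0 1 for large l: W_l - 1 <> 0, d <> 1 there. From f l c = 0:
((W-2)/(W-1))^k = 2, i.e. 2 (W-1)^k = (W-2)^k; k_l >= 1 for large l. Put d l := c_l / l.
-/

set_option autoImplicit false

namespace Pool.Agent.NZF

open Filter Topology

theorem W_closed (δ : ℂ) (j : ℕ) :
    W (2 * δ - δ ^ 2) j * (2 * (1 - δ)) = (2 - δ) ^ (j + 1) - δ ^ (j + 1) := by
  induction j using Nat.strong_induction_on with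
  | _ j ih =>
    match j, ih with
    | 0, _ =>
      simp only [W]
      ring
    | 1, _ =>
      simp only [W]
      ring
    | j + 2, ih =>
      have h0 := ih j (by omega)
      have h1 := ih (j + 1) (by omega)
      simp only [W]
      have e : (2 * W (2 * δ - δ ^ 2) (j + 1) - (2 * δ - δ ^ 2) * W (2 * δ - δ ^ 2) j) *
          (2 * (1 - δ)) = 2 * (W (2 * δ - δ ^ 2) (j + 1) * (2 * (1 - δ))) -
          (2 * δ - δ ^ 2) * (W (2 * δ - δ ^ 2) j * (2 * (1 - δ))) := by ring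
      rw [e, h0, h1]
      ring

/-- the closed form of `W` at `δ = c / l` -/
private noncomputable def CaseW_w (l : ℕ) (c : ℂ) : ℂ :=
  ((2 - c / l) ^ (l + 1) - (c / l) ^ (l + 1)) / (2 * (1 - c / l))

private noncomputable def CaseW_k (l : ℕ) : ℕ := ⌊Real.log 2 * 2 ^ l⌋₊

private noncomputable def CaseW_f (l : ℕ) (c : ℂ) : ℂ :=
  (1 + -(1 / (CaseW_w l c - 1))) ^ (CaseW_k l) - 2

private theorem CaseW_delta (c₁ : ℂ) :
    Tendsto (fun p : ℕ × ℂ => p.2 / (p.1 : ℂ)) (atTop ×ˢ 𝓝 c₁) (𝓝 0) := by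
  have h1 : Tendsto (fun p : ℕ × ℂ => p.2) (atTop ×ˢ 𝓝 c₁) (𝓝 c₁) := tendsto_snd
  have h2 : Tendsto (fun p : ℕ × ℂ => ((p.1 : ℂ))⁻¹) (atTop ×ˢ 𝓝 c₁) (𝓝 0) :=
    (tendsto_inv_atTop_nhds_zero_nat (𝕜 := ℂ)).comp tendsto_fst
  have h3 := h1.mul h2
  rw [mul_zero] at h3
  exact h3

private theorem CaseW_ratio (c₁ : ℂ) :
    Tendsto (fun p : ℕ × ℂ => CaseW_w p.1 p.2 / 2 ^ p.1) (atTop ×ˢ 𝓝 c₁)
      (𝓝 (Complex.exp (-c₁ / 2))) := by
  have hd := CaseW_delta c₁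
  have hn : Tendsto (fun p : ℕ × ℂ => ((p.1 : ℂ))⁻¹) (atTop ×ˢ 𝓝 c₁) (𝓝 0) :=
    (tendsto_inv_atTop_nhds_zero_nat (𝕜 := ℂ)).comp tendsto_fst
  have hs : Tendsto (fun p : ℕ × ℂ => p.2) (atTop ×ˢ 𝓝 c₁) (𝓝 c₁) := tendsto_snd
  have hpos : ∀ᶠ p : ℕ × ℂ in atTop ×ˢ 𝓝 c₁, 1 ≤ p.1 :=
    tendsto_fst.eventually (eventually_ge_atTop 1)
  -- `(1 - δ / 2) ^ (l + 1)`
  have h1 : Tendsto (fun p : ℕ × ℂ => (1 + -(p.2 / (p.1 : ℂ)) / 2) ^ (p.1 + 1))
      (atTop ×ˢ 𝓝 c₁) (𝓝 (Complex.exp (-c₁ / 2))) := by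
    apply tendsto_one_add_pow
    · have h2 := (hd.neg).div_const 2
      simpa using h2
    · have h3 : Tendsto (fun p : ℕ × ℂ => (1 + ((p.1 : ℂ))⁻¹) * (-p.2 / 2)) (atTop ×ˢ 𝓝 c₁)
          (𝓝 ((1 + 0) * (-c₁ / 2))) := (hn.const_add 1).mul (hs.neg.div_const 2)
      rw [add_zero, one_mul] at h3
      refine h3.congr' ?_
      filter_upwards [hpos] with p hp
      have h4 : (p.1 : ℂ) ≠ 0 := by
        have : p.1 ≠ 0 := by omega
        exact_mod_cast this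
      push_cast
      field_simp
  -- `(δ / 2) ^ (l + 1)`
  have h2 : Tendsto (fun p : ℕ × ℂ => (p.2 / (p.1 : ℂ) / 2) ^ (p.1 + 1))
      (atTop ×ˢ 𝓝 c₁) (𝓝 0) := by
    rw [tendsto_zero_iff_norm_tendsto_zero]
    have h3 : Tendsto (fun p : ℕ × ℂ => ((1 : ℝ) / 2) ^ (p.1 + 1)) (atTop ×ˢ 𝓝 c₁) (𝓝 0) :=
      ((tendsto_pow_atTop_nhds_zero_of_lt_one (by norm_num) (by norm_num)).comp
        (tendsto_add_atTop_nat 1)).comp tendsto_fst
    have h4 : ∀ᶠ p : ℕ × ℂ in atTop ×ˢ 𝓝 c₁, ‖p.2 / (p.1 : ℂ)‖ < 1 := by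
      have h5 := hd.norm
      rw [norm_zero] at h5
      exact h5.eventually (gt_mem_nhds one_pos)
    refine tendsto_of_tendsto_of_tendsto_of_le_of_le' tendsto_const_nhds h3
      (Eventually.of_forall fun p => norm_nonneg _) ?_
    filter_upwards [h4] with p hp
    rw [norm_pow]
    apply pow_le_pow_left₀ (norm_nonneg _)
    rw [norm_div]
    have h6 : ‖(2 : ℂ)‖ = 2 := by simp
    rw [h6]
    linarith
  have h3 : Tendsto (fun p : ℕ × ℂ => ((1 + -(p.2 / (p.1 : ℂ)) / 2) ^ (p.1 + 1) -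
      (p.2 / (p.1 : ℂ) / 2) ^ (p.1 + 1)) / (1 - p.2 / (p.1 : ℂ))) (atTop ×ˢ 𝓝 c₁)
      (𝓝 ((Complex.exp (-c₁ / 2) - 0) / (1 - 0))) :=
    (h1.sub h2).div (hd.const_sub 1) (by norm_num)
  rw [sub_zero, sub_zero, div_one] at h3
  refine h3.congr fun p => ?_
  unfold CaseW_w
  have e1 : (2 - p.2 / (p.1 : ℂ)) ^ (p.1 + 1) =
      2 ^ (p.1 + 1) * (1 + -(p.2 / (p.1 : ℂ)) / 2) ^ (p.1 + 1) := by
    rw [← mul_pow]
    congr 1
    ring
  have e2 : (p.2 / (p.1 : ℂ)) ^ (p.1 + 1) =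
      2 ^ (p.1 + 1) * (p.2 / (p.1 : ℂ) / 2) ^ (p.1 + 1) := by
    rw [← mul_pow]
    congr 1
    ring
  rw [e1, e2, ← mul_sub, pow_succ (2 : ℂ)]
  have h5 : (2 : ℂ) ^ p.1 ≠ 0 := pow_ne_zero _ two_ne_zero
  by_cases h6 : 1 - p.2 / (p.1 : ℂ) = 0
  · rw [h6]
    simp
  · have e3 : ∀ X Y Z : ℂ, Y ≠ 0 → Z ≠ 0 → X / Y = Z * 2 * X / (2 * Y) / Z := by
      intro X Y Z hY hZ
      field_simp
    exact e3 _ _ _ h6 h5

private theorem CaseW_pow2 (c₁ : ℂ) :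
    Tendsto (fun p : ℕ × ℂ => ((2 : ℂ) ^ p.1)⁻¹) (atTop ×ˢ 𝓝 c₁) (𝓝 0) := by
  have h1 : Tendsto (fun l : ℕ => ((2 : ℂ)⁻¹) ^ l) atTop (𝓝 0) := by
    apply tendsto_pow_atTop_nhds_zero_of_norm_lt_one
    rw [norm_inv]
    have h6 : ‖(2 : ℂ)‖ = 2 := by simp
    rw [h6]
    norm_num
  have h2 := h1.comp (tendsto_fst (f := (atTop : Filter ℕ)) (g := 𝓝 c₁))
  refine h2.congr fun p => ?_
  show ((2 : ℂ)⁻¹) ^ p.1 = _
  rw [inv_pow]

private theorem CaseW_ratio1 (c₁ : ℂ) :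
    Tendsto (fun p : ℕ × ℂ => (CaseW_w p.1 p.2 - 1) / 2 ^ p.1) (atTop ×ˢ 𝓝 c₁)
      (𝓝 (Complex.exp (-c₁ / 2))) := by
  have h1 := (CaseW_ratio c₁).sub (CaseW_pow2 c₁)
  rw [sub_zero] at h1
  refine h1.congr fun p => ?_
  rw [sub_div, one_div]

private theorem CaseW_ne (c₁ : ℂ) :
    ∀ᶠ p : ℕ × ℂ in atTop ×ˢ 𝓝 c₁, CaseW_w p.1 p.2 - 1 ≠ 0 := by
  have h1 := (CaseW_ratio1 c₁).eventually_ne (Complex.exp_ne_zero _)
  filter_upwards [h1] with p hp h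
  apply hp
  rw [h, zero_div]

private theorem CaseW_k_lim :
    Tendsto (fun l : ℕ => ((CaseW_k l : ℕ) : ℂ) * ((2 : ℂ) ^ l)⁻¹) atTop
      (𝓝 ((Real.log 2 : ℝ) : ℂ)) := by
  have h1 : Tendsto (fun l : ℕ => ((⌊Real.log 2 * (2 : ℝ) ^ l⌋₊ : ℕ) : ℝ) / (2 : ℝ) ^ l) atTop
      (𝓝 (Real.log 2)) :=
    (tendsto_nat_floor_mul_div_atTop (Real.log_nonneg (by norm_num))).comp
      (tendsto_pow_atTop_atTop_of_one_lt (by norm_num))
  have h2 := (Complex.continuous_ofReal.tendsto (Real.log 2)).comp h1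
  refine h2.congr fun l => ?_
  show (((((⌊Real.log 2 * (2 : ℝ) ^ l⌋₊ : ℕ) : ℝ) / (2 : ℝ) ^ l : ℝ)) : ℂ) = _
  unfold CaseW_k
  push_cast
  rw [div_eq_mul_inv]

private theorem CaseW_lim (c₁ : ℂ) :
    Tendsto (fun p : ℕ × ℂ => CaseW_f p.1 p.2) (atTop ×ˢ 𝓝 c₁)
      (𝓝 (Complex.exp (-((Real.log 2 : ℝ) : ℂ) * Complex.exp (c₁ / 2)) - 2)) := by
  have hinv : Tendsto (fun p : ℕ × ℂ => ((CaseW_w p.1 p.2 - 1) / 2 ^ p.1)⁻¹) (atTop ×ˢ 𝓝 c₁)
      (𝓝 (Complex.exp (c₁ / 2))) := by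
    have h1 := (CaseW_ratio1 c₁).inv₀ (Complex.exp_ne_zero _)
    rw [← Complex.exp_neg] at h1
    have e : -(-c₁ / 2) = c₁ / 2 := by ring
    rw [e] at h1
    exact h1
  have h2 : Tendsto (fun p : ℕ × ℂ => (1 + -(1 / (CaseW_w p.1 p.2 - 1))) ^ (CaseW_k p.1))
      (atTop ×ˢ 𝓝 c₁)
      (𝓝 (Complex.exp (-((Real.log 2 : ℝ) : ℂ) * Complex.exp (c₁ / 2)))) := by
    apply tendsto_one_add_pow (N := fun p : ℕ × ℂ => CaseW_k p.1)
    · have h3 := ((CaseW_pow2 c₁).mul hinv).neg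
      rw [zero_mul, neg_zero] at h3
      refine h3.congr fun p => ?_
      have h5 : (2 : ℂ) ^ p.1 ≠ 0 := pow_ne_zero _ two_ne_zero
      rw [inv_div, one_div]
      congr 1
      rw [div_eq_mul_inv, ← mul_assoc, inv_mul_cancel₀ h5, one_mul]
    · have h3 : Tendsto (fun p : ℕ × ℂ => ((CaseW_k p.1 : ℕ) : ℂ) * ((2 : ℂ) ^ p.1)⁻¹)
          (atTop ×ˢ 𝓝 c₁) (𝓝 ((Real.log 2 : ℝ) : ℂ)) := CaseW_k_lim.comp tendsto_fst
      have h4 := (h3.mul hinv).neg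
      have e : -(((Real.log 2 : ℝ) : ℂ) * Complex.exp (c₁ / 2)) =
          -((Real.log 2 : ℝ) : ℂ) * Complex.exp (c₁ / 2) := by ring
      rw [e] at h4
      refine h4.congr fun p => ?_
      have h5 : (2 : ℂ) ^ p.1 ≠ 0 := pow_ne_zero _ two_ne_zero
      rw [inv_div, one_div, mul_assoc, mul_neg]
      congr 2
      rw [div_eq_mul_inv, ← mul_assoc, inv_mul_cancel₀ h5, one_mul]
  exact h2.sub_const 2

private theorem CaseW_diff (c₀ : ℂ) :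
    ∀ᶠ l : ℕ in atTop, DifferentiableOn ℂ (CaseW_f l) (Metric.ball c₀ 1) := by
  have hK : IsCompact (Metric.closedBall c₀ 1) := isCompact_closedBall c₀ 1
  have h1 : {p : ℕ × ℂ | CaseW_w p.1 p.2 - 1 ≠ 0 ∧ 1 - p.2 / (p.1 : ℂ) ≠ 0} ∈
      (atTop : Filter ℕ) ×ˢ 𝓝ˢ (Metric.closedBall c₀ 1) := by
    apply hK.mem_prod_nhdsSet_of_forall
    intro c _
    have h2 := (CaseW_delta c).const_sub (1 : ℂ)
    rw [sub_zero] at h2
    have h3 := h2.eventually_ne one_ne_zero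
    filter_upwards [CaseW_ne c, h3] with p hp hp2
    exact ⟨hp, hp2⟩
  obtain ⟨A, hA, B, hB, hAB⟩ := Filter.mem_prod_iff.1 h1
  have hB2 : Metric.closedBall c₀ 1 ⊆ B := subset_of_mem_nhdsSet hB
  filter_upwards [hA] with l hl
  intro c hc
  have h4 : (l, c) ∈ {p : ℕ × ℂ | CaseW_w p.1 p.2 - 1 ≠ 0 ∧ 1 - p.2 / (p.1 : ℂ) ≠ 0} :=
    hAB ⟨hl, hB2 (Metric.ball_subset_closedBall hc)⟩
  obtain ⟨h5, h6⟩ := h4
  have h5' : CaseW_w l c - 1 ≠ 0 := h5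
  have h6' : 1 - c / (l : ℂ) ≠ 0 := h6
  apply DifferentiableAt.differentiableWithinAt
  have hw : DifferentiableAt ℂ (CaseW_w l) c := by
    unfold CaseW_w
    apply DifferentiableAt.div
    · fun_prop
    · fun_prop
    · exact mul_ne_zero two_ne_zero h6'
  unfold CaseW_f
  apply DifferentiableAt.sub_const
  apply DifferentiableAt.fun_pow
  apply DifferentiableAt.const_add
  apply DifferentiableAt.fun_neg
  apply DifferentiableAt.fun_div (differentiableAt_const _)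
  · exact hw.sub_const 1
  · exact h5'

/-- choice of a convergent sequence -/
private theorem CaseW_choice {P : ℕ → ℂ → Prop} {c₀ : ℂ}
    (h : ∀ ε : ℝ, 0 < ε → ∀ᶠ l in atTop, ∃ z, ‖z - c₀‖ < ε ∧ P l z) :
    ∃ c : ℕ → ℂ, Tendsto c atTop (𝓝 c₀) ∧ ∀ᶠ l in atTop, P l (c l) := by
  classical
  set Q : ℕ → ℕ → Prop := fun l m => ∃ z, ‖z - c₀‖ < 1 / ((m : ℝ) + 1) ∧ P l z with hQ
  have hex : ∀ l : ℕ, ∃ z : ℂ, Q l (Nat.findGreatest (Q l) l) →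
      ‖z - c₀‖ < 1 / ((Nat.findGreatest (Q l) l : ℝ) + 1) ∧ P l z := by
    intro l
    by_cases hq : Q l (Nat.findGreatest (Q l) l)
    · obtain ⟨z, hz⟩ := hq
      exact ⟨z, fun _ => hz⟩
    · exact ⟨0, fun hh => absurd hh hq⟩
  choose c hc using hex
  have key : ∀ m : ℕ, ∀ᶠ l in atTop, ‖c l - c₀‖ < 1 / ((m : ℝ) + 1) ∧ P l (c l) := by
    intro m
    filter_upwards [h (1 / ((m : ℝ) + 1)) (by positivity), eventually_ge_atTop m] with l hl hml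
    have h1 : Q l (Nat.findGreatest (Q l) l) := Nat.findGreatest_spec hml hl
    have h2 : m ≤ Nat.findGreatest (Q l) l := Nat.le_findGreatest hml hl
    obtain ⟨h3, h4⟩ := hc l h1
    refine ⟨lt_of_lt_of_le h3 ?_, h4⟩
    apply one_div_le_one_div_of_le (by positivity)
    have : (m : ℝ) ≤ (Nat.findGreatest (Q l) l : ℝ) := by exact_mod_cast h2
    linarith
  refine ⟨c, ?_, (key 0).mono fun l hl => hl.2⟩
  rw [Metric.tendsto_nhds]
  intro ε hε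
  obtain ⟨m, hm⟩ := exists_nat_one_div_lt hε
  filter_upwards [key m] with l hl
  rw [dist_eq_norm]
  exact hl.1.trans hm

/-- Zeros of the hard limit near `δ = 2 π i / l`. -/
theorem caseW_zeros : ∃ δ : ℕ → ℂ,
    Tendsto (fun l : ℕ => (l : ℂ) * δ l) atTop (𝓝 (2 * Real.pi * Complex.I)) ∧
    ∀ᶠ l : ℕ in atTop, ∃ k : ℕ, 1 ≤ k ∧
      2 * (W (2 * δ l - δ l ^ 2) l - 1) ^ k = (W (2 * δ l - δ l ^ 2) l - 2) ^ k := by
  set c₀ : ℂ := 2 * Real.pi * Complex.I with hc₀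
  have hlog : Complex.exp ((Real.log 2 : ℝ) : ℂ) = 2 := by
    rw [← Complex.ofReal_exp, Real.exp_log (by norm_num)]
    norm_num
  have hg0 : Complex.exp (-((Real.log 2 : ℝ) : ℂ) * Complex.exp (c₀ / 2)) - 2 = 0 := by
    have e : c₀ / 2 = Real.pi * Complex.I := by
      rw [hc₀]
      ring
    rw [e, Complex.exp_pi_mul_I, neg_mul_neg, mul_one, hlog, sub_self]
  have hne : Complex.exp (-((Real.log 2 : ℝ) : ℂ) * Complex.exp (0 / 2)) - 2 ≠ 0 := by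
    rw [zero_div, Complex.exp_zero, mul_one, Complex.exp_neg, hlog]
    norm_num
  have hh : ∀ ε : ℝ, 0 < ε → ∀ᶠ l in atTop, ∃ z, ‖z - c₀‖ < ε ∧ CaseW_f l z = 0 := by
    intro ε hε
    exact hurwitz (f := CaseW_f)
      (g := fun c => Complex.exp (-((Real.log 2 : ℝ) : ℂ) * Complex.exp (c / 2)) - 2)
      (c := c₀) (R := 1) one_pos (CaseW_diff c₀) (by fun_prop) hg0 ⟨0, hne⟩
      (fun z _ => CaseW_lim z) hε
  obtain ⟨c, hc, hz⟩ := CaseW_choice hh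
  refine ⟨fun l => c l / l, ?_, ?_⟩
  · refine hc.congr' ?_
    filter_upwards [eventually_ge_atTop 1] with l hl
    have h4 : (l : ℂ) ≠ 0 := by
      have : l ≠ 0 := by omega
      exact_mod_cast this
    field_simp
  · have hd : Tendsto (fun l : ℕ => c l / (l : ℂ)) atTop (𝓝 0) := by
      have h3 := hc.mul (tendsto_inv_atTop_nhds_zero_nat (𝕜 := ℂ))
      rw [mul_zero] at h3
      exact h3
    have hd1 := (hd.const_sub (1 : ℂ)).eventually_ne (by rw [sub_zero]; exact one_ne_zero)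
    filter_upwards [hz, hd1] with l hl hl1
    have hw : W (2 * (c l / l) - (c l / l) ^ 2) l = CaseW_w l (c l) := by
      have h2 : (2 : ℂ) * (1 - c l / l) ≠ 0 := mul_ne_zero two_ne_zero hl1
      unfold CaseW_w
      rw [eq_div_iff h2]
      exact W_closed _ _
    refine ⟨CaseW_k l, ?_, ?_⟩
    · rw [Nat.one_le_iff_ne_zero]
      intro h0
      unfold CaseW_f at hl
      rw [h0, pow_zero] at hl
      norm_num at hl
    · show 2 * (W (2 * (c l / l) - (c l / l) ^ 2) l - 1) ^ CaseW_k l =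
        (W (2 * (c l / l) - (c l / l) ^ 2) l - 2) ^ CaseW_k l
      rw [hw]
      unfold CaseW_f at hl
      have h1 : CaseW_w l (c l) - 1 ≠ 0 := by
        intro h
        rw [h, div_zero, neg_zero, add_zero, one_pow] at hl
        norm_num at hl
      have h2 : CaseW_w l (c l) - 2 =
          (1 + -(1 / (CaseW_w l (c l) - 1))) * (CaseW_w l (c l) - 1) := by
        field_simp
        ring
      rw [h2, mul_pow, sub_eq_zero.1 hl]

end Pool.Agent.NZF
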