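import Pool.Agent.NZF.Defs

/-!
PLAN (NZF-Closed). q_mul_DD: (Commute.all _ _).geom_sum2 / mul_geom_sum2 style identity: sum a^i b^(n-i) times (a - b) =
a^(n+1) - b^(n+1) with a = q+h-1, b = h-1. DD_zero: all terms are (h-1)^n. totG_flat: by induction
stA 1 h 1 1 q n = (DD, DD + (h-1)^(n+1), DD) and stZ 1 h 1 1 q n = (DD + (h-1)^(n+1), DD), where
DD h q (n+1) = (q+h-1) * DD h q n + (h-1)^(n+1) (Finset.sum_range_succ', or split i = 0); then unfold totG, ring.
totG_hard: by induction stA 1 0 1 a 0 n = ((-1)^n W n, (-1)^n (W (n+1) - 2), (-1)^n (W (n+1) - 1)); unfold totG, mul_pow, ring.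
-/

set_option autoImplicit false

namespace Pool.Agent.NZF

open Classical Finset

/-- `q D = (q+h-1)^(n+1) - (h-1)^(n+1)`. -/
def DD (h q : ℂ) (n : ℕ) : ℂ := ∑ i ∈ Finset.range (n + 1), (q + h - 1) ^ i * (h - 1) ^ (n - i)

theorem q_mul_DD (h q : ℂ) (n : ℕ) :
    q * DD h q n = (q + h - 1) ^ (n + 1) - (h - 1) ^ (n + 1) := by
  have h1 := (Commute.all (q + h - 1) (h - 1)).geom_sum₂_mul (n + 1)
  have h2 : (∑ i ∈ Finset.range (n + 1), (q + h - 1) ^ i * (h - 1) ^ (n + 1 - 1 - i)) =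
      DD h q n := by
    unfold DD
    rfl
  rw [h2] at h1
  rw [← h1]; ring

private theorem closed_DD_succ (h q : ℂ) (n : ℕ) :
    DD h q (n + 1) = (q + h - 1) * DD h q n + (h - 1) ^ (n + 1) := by
  unfold DD
  rw [Finset.sum_range_succ' _ (n + 1), Finset.mul_sum]
  congr 1
  · refine Finset.sum_congr rfl (fun i _ => ?_)
    rw [Nat.add_sub_add_right, pow_succ]; ring
  · simp

theorem DD_zero (h : ℂ) (n : ℕ) : DD h 0 n = (n + 1) * (h - 1) ^ n := by
  unfold DD
  rw [zero_add]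
  have : ∀ i ∈ Finset.range (n + 1), (h - 1) ^ i * (h - 1) ^ (n - i) = (h - 1) ^ n := by
    intro i hi
    rw [← pow_add]
    congr 1
    have := Finset.mem_range.mp hi
    omega
  rw [Finset.sum_congr rfl this]
  simp

private theorem closed_stA_flat (h q : ℂ) (n : ℕ) :
    stA 1 h 1 1 q n = (DD h q n, DD h q n + (h - 1) ^ (n + 1), DD h q n) := by
  induction n with
  | zero => simp [stA, DD]
  | succ n ih =>
    simp only [stA, ih, closed_DD_succ]
    ext <;> simp <;> ring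

private theorem closed_stZ_flat (h q : ℂ) (n : ℕ) :
    stZ 1 h 1 1 q n = (DD h q n + (h - 1) ^ (n + 1), DD h q n) := by
  induction n with
  | zero => simp [stZ, DD]
  | succ n ih =>
    simp only [stZ, ih, closed_DD_succ]
    ext <;> simp <;> ring

/-- No star edges. -/
theorem totG_flat (h η q : ℂ) (k n : ℕ) :
    totG 1 h 1 1 1 η 1 1 q k n =
      (η + q - 1) * ((DD h q n + (h - 1) ^ (n + 1)) ^ k + (q - 1) * DD h q n ^ k) := by
  unfold totG
  rw [closed_stA_flat, closed_stZ_flat]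
  ring

private theorem closed_stA_hard (α : ℂ) (n : ℕ) :
    stA 1 0 1 α 0 n = ((-1) ^ n * W α n, (-1) ^ n * (W α (n + 1) - 2),
      (-1) ^ n * (W α (n + 1) - 1)) := by
  induction n with
  | zero => simp [stA, W]; norm_num
  | succ n ih =>
    simp only [stA, ih]
    have hW : W α (n + 1 + 1) = 2 * W α (n + 1) - α * W α n := rfl
    rw [hW]
    ext <;> simp <;> ring

/-- Hard edges, `q = 0`. -/
theorem totG_hard (α : ℂ) (k n : ℕ) :
    totG 1 0 1 α 1 0 1 0 0 k n =
      ((-1) ^ n) ^ k * (2 * (W α (n + 1) - 1) ^ k - (W α (n + 1) - 2) ^ k) := by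
  unfold totG
  rw [closed_stA_hard]
  simp only [mul_pow]
  ring

end Pool.Agent.NZF
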