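import Pool.Agent.NZF.Defs

/-!
PLAN (NZF-Conn). twoPath_connected: take P u := reachable (inl z) (inl u) in the two-path graph; for each e the vertices
inl (s e) and inl (t e) are both adjacent to inr e, so P (s e) iff P (t e); hence all inl u are reachable and every inr e is
adjacent to inl (s e); connected_iff (Preconnected + Nonempty). theta_connected: apply with z = inl 0: P (inl 1) from the
m1 edges (m1 > 0: Sum.inr (Sum.inl 0)); along path j, P (pt j i) iff P (pt j (i+1)) for i <= n (K > 0), pt j 0 = inl 1,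
pt j (i+1) = inr (j, i) for i < n, pt j (n+1) = inl 2. k > 0 is needed for inl 2. sH_ne_tH: case distinction, unfold pt
(split_ifs; constructors differ or Fin indices differ, omega).
-/

set_option autoImplicit false

namespace Pool.Agent.NZF

open Classical Finset

private lemma Conn_adj {V E : Type} (s t : E → V) (u : V) (e : E) (h : u = s e ∨ u = t e) :
    (twoPath s t).Adj (Sum.inl u) (Sum.inr e) := by
  unfold twoPath
  rw [SimpleGraph.fromRel_adj]
  exact ⟨Sum.inl_ne_inr, Or.inl ⟨u, e, rfl, rfl, h⟩⟩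

theorem twoPath_connected {V E : Type} (s t : E → V) (z : V)
    (h : ∀ P : V → Prop, P z → (∀ e, P (s e) ↔ P (t e)) → ∀ u, P u) :
    (twoPath s t).Connected := by
  have hP : ∀ u, (twoPath s t).Reachable (Sum.inl z) (Sum.inl u) := by
    apply h fun u => (twoPath s t).Reachable (Sum.inl z) (Sum.inl u)
    · exact SimpleGraph.Reachable.refl _
    · intro e
      have h1 := (Conn_adj s t (s e) e (Or.inl rfl)).reachable
      have h2 := (Conn_adj s t (t e) e (Or.inr rfl)).reachable
      exact ⟨fun hr => hr.trans (h1.trans h2.symm), fun hr => hr.trans (h2.trans h1.symm)⟩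
  have hQ : ∀ a, (twoPath s t).Reachable (Sum.inl z) a := by
    rintro (u | e)
    · exact hP u
    · exact (hP (s e)).trans (Conn_adj s t (s e) e (Or.inl rfl)).reachable
  have : Nonempty (V ⊕ E) := ⟨Sum.inl z⟩
  exact ⟨fun a b => (hQ a).symm.trans (hQ b)⟩

private lemma Conn_pt_zero {k n : ℕ} (j : Fin k) : (pt j 0 : VH k n) = Sum.inl 1 := rfl

private lemma Conn_pt_succ {k n : ℕ} (j : Fin k) (i : ℕ) (hi : i < n) :
    (pt j (i + 1) : VH k n) = Sum.inr (j, ⟨i, hi⟩) := by
  unfold pt
  rw [if_neg (Nat.succ_ne_zero i), dif_pos (by omega : i + 1 - 1 < n)]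
  rfl

private lemma Conn_pt_last {k n : ℕ} (j : Fin k) : (pt j (n + 1) : VH k n) = Sum.inl 2 := by
  unfold pt
  rw [if_neg (Nat.succ_ne_zero n), dif_neg (by omega : ¬ n + 1 - 1 < n)]

theorem theta_connected {k n K m m₁ m₂ : ℕ} (hk : 0 < k) (hK : 0 < K) (hm₁ : 0 < m₁) :
    (theta k n K m m₁ m₂).Connected := by
  apply twoPath_connected _ _ (Sum.inl 0)
  intro P h0 he
  have h1 : P (Sum.inl 1) := (he (Sum.inr (Sum.inl ⟨0, hm₁⟩))).2 h0
  have h2 : ∀ (j : Fin k) (i : ℕ), i ≤ n + 1 → P (pt j i) := by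
    intro j i
    induction i with
    | zero => exact fun _ => h1
    | succ i ih =>
      intro hi
      exact (he (Sum.inl (Sum.inl ((j, ⟨i, by omega⟩), ⟨0, hK⟩)))).1 (ih (by omega))
  have h3 : P (Sum.inl 2) := by
    have h := h2 ⟨0, hk⟩ (n + 1) le_rfl
    rwa [Conn_pt_last] at h
  rintro (u | ⟨j, i⟩)
  · fin_cases u
    · exact h0
    · exact h1
    · exact h3
  · have h := h2 j ((i : ℕ) + 1) (by have := i.2; omega)
    rwa [Conn_pt_succ j (i : ℕ) i.2] at h

theorem sH_ne_tH {k n K m m₁ m₂ : ℕ} (e : EH k n K m m₁ m₂) : sH e ≠ tH e := by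
  rcases e with ((⟨⟨j, i⟩, c⟩ | e) | (e | e))
  · show (pt j (i : ℕ) : VH k n) ≠ pt j ((i : ℕ) + 1)
    obtain ⟨i, hi⟩ := i
    show (pt j i : VH k n) ≠ pt j (i + 1)
    rcases i with _ | i
    · rw [Conn_pt_zero]
      by_cases h : 0 < n
      · rw [Conn_pt_succ j 0 h]
        exact Sum.inl_ne_inr
      · have h0 : n = 0 := by omega
        subst h0
        rw [Conn_pt_last]
        intro h1
        exact absurd (Sum.inl.inj h1) (by decide)
    · rw [Conn_pt_succ j i (by omega)]
      by_cases h : i + 1 < n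
      · rw [Conn_pt_succ j (i + 1) h]
        intro h1
        have h2 := congrArg (fun z : Fin k × Fin n => (z.2 : ℕ)) (Sum.inr.inj h1)
        exact absurd h2 (by simp)
      · have h0 : n = i + 1 := by omega
        subst h0
        rw [Conn_pt_last]
        exact Sum.inr_ne_inl
  · exact Sum.inr_ne_inl
  · intro h1
    exact absurd (Sum.inl.inj h1) (by decide)
  · intro h1
    exact absurd (Sum.inl.inj h1) (by decide)

end Pool.Agent.NZF
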