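import Mathlib

/-!
NZF-Root: `m`-th roots near `Y₀` of numbers of size comparable with `|Y₀| ^ m`. The root
`Y₀ * exp (log (β m / Y₀ ^ m) / m)` works, since the logarithm is bounded.
-/

set_option autoImplicit false

namespace Pool.Agent.NZF

open Filter Topology

/-- `m`-th roots of numbers of size comparable with `|Y₀|^m`, near `Y₀`. -/
theorem root_approx {Y₀ : ℂ} (hY : Y₀ ≠ 0) (β : ℕ → ℂ) (C : ℝ)
    (hβ : ∀ᶠ m : ℕ in atTop, β m ≠ 0 ∧ |Real.log (‖β m‖ / ‖Y₀‖ ^ m)| ≤ C) :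
    ∃ Y : ℕ → ℂ, Tendsto Y atTop (𝓝 Y₀) ∧ ∀ᶠ m : ℕ in atTop, Y m ^ m = β m := by
  refine ⟨fun m => Y₀ * Complex.exp (Complex.log (β m / Y₀ ^ m) / m), ?_, ?_⟩
  · have h1 : Tendsto (fun m : ℕ => Complex.log (β m / Y₀ ^ m) / m) atTop (𝓝 0) := by
      refine squeeze_zero_norm' (a := fun m : ℕ => (C + Real.pi) / m) ?_ ?_
      · filter_upwards [hβ] with m hm
        rw [norm_div, Complex.norm_natCast]
        refine div_le_div_of_nonneg_right ?_ (Nat.cast_nonneg m)
        refine (Complex.norm_le_abs_re_add_abs_im _).trans ?_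
        rw [Complex.log_re, Complex.log_im, norm_div, norm_pow]
        exact add_le_add hm.2 (Complex.abs_arg_le_pi _)
      · exact tendsto_const_div_atTop_nhds_zero_nat (C + Real.pi)
    have h2 : Tendsto (fun m : ℕ => Y₀ * Complex.exp (Complex.log (β m / Y₀ ^ m) / m)) atTop
        (𝓝 (Y₀ * Complex.exp 0)) :=
      ((Complex.continuous_exp.tendsto 0).comp h1).const_mul Y₀
    rwa [Complex.exp_zero, mul_one] at h2
  · filter_upwards [hβ, eventually_ge_atTop 1] with m hm hm1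
    have h3 : (m : ℂ) ≠ 0 := by
      exact_mod_cast (by omega : m ≠ 0)
    have h4 : β m / Y₀ ^ m ≠ 0 := div_ne_zero hm.1 (pow_ne_zero _ hY)
    rw [mul_pow, ← Complex.exp_nat_mul, mul_div_cancel₀ _ h3, Complex.exp_log h4,
      mul_div_cancel₀ _ (pow_ne_zero _ hY)]

end Pool.Agent.NZF
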