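import Pool.Agent.NZF.Closed
import Pool.Agent.NZF.Root

/-!
PLAN (NZF-Cyc). For K put n_K := floor(|Y0|^K / 2), b K := -(2 n_K + 1); |b K| / |Y0|^K -> 1, so root_approx gives Y_K -> Y0 with
Y_K^K = -(2 n + 1). Y <> 1 because 1^K = 1 <> -(2n+1). totG_flat with h = Y^K, eta = Y, q = 0, k = 2:
(Y - 1) * (b^2 - d^2), d = DD h 0 n = (n+1)(h-1)^n (DD_zero), b = d + (h-1)^(n+1), b + d = (h-1)^n (2n + 2 + h - 1) = 0.
-/

set_option autoImplicit false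

namespace Pool.Agent.NZF

open Filter Topology

theorem cyc_zeros {Y₀ : ℂ} (h1 : 1 < ‖Y₀‖) {ε : ℝ} (hε : 0 < ε) :
    ∃ (Y : ℂ) (n K : ℕ), ‖Y - Y₀‖ < ε ∧ 1 ≤ K ∧ Y ≠ 1 ∧
      totG 1 (Y ^ K) 1 1 1 Y 1 1 0 2 n = 0 := by
  have hY0 : Y₀ ≠ 0 := by
    intro h
    rw [h, norm_zero] at h1
    linarith
  let N : ℕ → ℕ := fun K => ⌊‖Y₀‖ ^ K / 2⌋₊
  let β : ℕ → ℂ := fun K => -(2 * (N K : ℂ) + 1)
  have hnorm : ∀ K, ‖β K‖ = 2 * (N K : ℝ) + 1 := by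
    intro K
    show ‖-(2 * (N K : ℂ) + 1)‖ = _
    rw [norm_neg]
    have h2 : (2 * (N K : ℂ) + 1) = ((2 * (N K : ℝ) + 1 : ℝ) : ℂ) := by
      push_cast
      ring
    rw [h2, Complex.norm_real, Real.norm_of_nonneg (by positivity)]
  have hβ : ∀ᶠ m : ℕ in atTop, β m ≠ 0 ∧ |Real.log (‖β m‖ / ‖Y₀‖ ^ m)| ≤ Real.log 2 := by
    have ht : Tendsto (fun m : ℕ => ‖Y₀‖ ^ m) atTop atTop := tendsto_pow_atTop_atTop_of_one_lt h1
    filter_upwards [ht.eventually_ge_atTop 2] with m hm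
    have hx0 : (0 : ℝ) < ‖Y₀‖ ^ m := by linarith
    have hf1 : ((N m : ℕ) : ℝ) ≤ ‖Y₀‖ ^ m / 2 := Nat.floor_le (by positivity)
    have hf2 : ‖Y₀‖ ^ m / 2 < (N m : ℝ) + 1 := Nat.lt_floor_add_one _
    have hb : β m ≠ 0 := by
      rw [← norm_pos_iff, hnorm]
      positivity
    refine ⟨hb, ?_⟩
    rw [hnorm]
    have hr1 : (1 / 2 : ℝ) ≤ (2 * (N m : ℝ) + 1) / ‖Y₀‖ ^ m := by
      rw [le_div_iff₀ hx0]
      linarith
    have hr2 : (2 * (N m : ℝ) + 1) / ‖Y₀‖ ^ m ≤ 2 := by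
      rw [div_le_iff₀ hx0]
      linarith
    have hr0 : (0 : ℝ) < (2 * (N m : ℝ) + 1) / ‖Y₀‖ ^ m := by positivity
    rw [abs_le]
    constructor
    · have h3 := Real.log_le_log (by norm_num) hr1
      have h4 : Real.log (1 / 2 : ℝ) = -Real.log 2 := by
        rw [one_div, Real.log_inv]
      rw [h4] at h3
      exact h3
    · exact Real.log_le_log hr0 hr2
  obtain ⟨Y, hY1, hY2⟩ := root_approx hY0 β (Real.log 2) hβ
  have hclose : ∀ᶠ m : ℕ in atTop, ‖Y m - Y₀‖ < ε := by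
    have h2 := (Metric.tendsto_nhds.1 hY1) ε hε
    filter_upwards [h2] with m hm
    rwa [dist_eq_norm] at hm
  obtain ⟨K, hK1, hK2, hK3⟩ := (hclose.and (hY2.and (eventually_ge_atTop 1))).exists
  have hpow : Y K ^ K = -(2 * (N K : ℂ) + 1) := hK2
  have hne : Y K ≠ 1 := by
    intro h
    rw [h, one_pow] at hpow
    have h2 := congrArg Complex.re hpow
    simp at h2
    have h3 : (0 : ℝ) ≤ (N K : ℝ) := Nat.cast_nonneg _
    linarith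
  refine ⟨Y K, N K, K, hK1, hK3, hne, ?_⟩
  rw [totG_flat, DD_zero, hpow]
  have h5 : (-(2 * (N K : ℂ) + 1) - 1) ^ (N K + 1) =
      (-(2 * (N K : ℂ) + 1) - 1) ^ (N K) * (-(2 * (N K : ℂ) + 1) - 1) := pow_succ _ _
  rw [h5]
  ring

end Pool.Agent.NZF
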