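import Pool.Agent.NZF.Closed
import Pool.Agent.NZF.Hur

/-!
Cycles with bundles, `x > 1`, `|Y| > 1`: the zeros of `(1 + q/(Y^K - 1))^(2(n+1)) = 1 - q` are dense there.
-/

set_option autoImplicit false

namespace Pool.Agent.NZF

open Filter Topology

private noncomputable def cpT (Y₀ : ℂ) (n : ℕ) : ℝ := ‖Y₀‖ ^ (n + 1)

private noncomputable def cpPsi (Y₀ : ℂ) (n : ℕ) : ℝ := -(Y₀ ^ (n + 1)).arg

/-- the moving point `Y` -/
private noncomputable def cpY (Y₀ : ℂ) (n : ℕ) (μ : ℂ) : ℂ :=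
  Y₀ * Complex.exp ((μ + cpPsi Y₀ n * Complex.I) / ((n : ℂ) + 1))

private theorem cpY_pow (Y₀ : ℂ) (n : ℕ) (μ : ℂ) :
    cpY Y₀ n μ ^ (n + 1) = (cpT Y₀ n : ℂ) * Complex.exp μ := by
  have hn : ((n : ℂ) + 1) ≠ 0 := Nat.cast_add_one_ne_zero n
  unfold cpY cpT cpPsi
  rw [mul_pow, ← Complex.exp_nat_mul]
  have e : ((n + 1 : ℕ) : ℂ) * ((μ + ((-(Y₀ ^ (n + 1)).arg : ℝ) : ℂ) * Complex.I) / ((n : ℂ) + 1))
      = μ + ((-(Y₀ ^ (n + 1)).arg : ℝ) : ℂ) * Complex.I := by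
    push_cast
    field_simp
  rw [e, Complex.exp_add]
  have h1 := Complex.norm_mul_exp_arg_mul_I (Y₀ ^ (n + 1))
  have h2 : Complex.exp (((-(Y₀ ^ (n + 1)).arg : ℝ) : ℂ) * Complex.I) *
      Complex.exp (((Y₀ ^ (n + 1)).arg : ℂ) * Complex.I) = 1 := by
    rw [← Complex.exp_add]
    have : ((-(Y₀ ^ (n + 1)).arg : ℝ) : ℂ) * Complex.I + ((Y₀ ^ (n + 1)).arg : ℂ) * Complex.I = 0 := by
      push_cast; ring
    rw [this, Complex.exp_zero]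
  rw [norm_pow] at h1
  calc Y₀ ^ (n + 1) * (Complex.exp μ * Complex.exp (((-(Y₀ ^ (n + 1)).arg : ℝ) : ℂ) * Complex.I))
      = ((‖Y₀‖ ^ (n + 1) : ℝ) : ℂ) * Complex.exp (((Y₀ ^ (n + 1)).arg : ℂ) * Complex.I) *
        (Complex.exp μ * Complex.exp (((-(Y₀ ^ (n + 1)).arg : ℝ) : ℂ) * Complex.I)) := by
        rw [h1]
    _ = ((‖Y₀‖ ^ (n + 1) : ℝ) : ℂ) * Complex.exp μ *
        (Complex.exp (((-(Y₀ ^ (n + 1)).arg : ℝ) : ℂ) * Complex.I) *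
      Complex.exp (((Y₀ ^ (n + 1)).arg : ℂ) * Complex.I)) := by ring
    _ = ((‖Y₀‖ ^ (n + 1) : ℝ) : ℂ) * Complex.exp μ := by rw [h2, mul_one]

private theorem cpT_tendsto {Y₀ : ℂ} (h : 1 < ‖Y₀‖) : Tendsto (cpT Y₀) atTop atTop :=
  (tendsto_pow_atTop_atTop_of_one_lt h).comp (tendsto_add_atTop_nat 1)

private theorem cpPsi_le (Y₀ : ℂ) (n : ℕ) : |cpPsi Y₀ n| ≤ Real.pi := by
  unfold cpPsi
  rw [abs_neg]
  exact Complex.abs_arg_le_pi _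

private theorem cp_inv_tendsto (μ : ℂ) :
    Tendsto (fun p : ℕ × ℂ => (((p.1 : ℂ) + 1)⁻¹)) (atTop ×ˢ 𝓝 μ) (𝓝 0) := by
  have h1 : Tendsto (fun n : ℕ => ((n : ℂ) + 1)⁻¹) atTop (𝓝 0) := by
    have h2 := tendsto_one_div_add_atTop_nhds_zero_nat (𝕜 := ℂ)
    refine h2.congr (fun n => by rw [one_div])
  exact h1.comp tendsto_fst

private theorem cp_arg_tendsto (Y₀ μ : ℂ) :
    Tendsto (fun p : ℕ × ℂ => (p.2 + cpPsi Y₀ p.1 * Complex.I) / ((p.1 : ℂ) + 1))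
      (atTop ×ˢ 𝓝 μ) (𝓝 0) := by
  have h1 := cp_inv_tendsto μ
  have h2 : Tendsto (fun p : ℕ × ℂ => p.2 * ((p.1 : ℂ) + 1)⁻¹) (atTop ×ˢ 𝓝 μ) (𝓝 (μ * 0)) :=
    tendsto_snd.mul h1
  have h3 : Tendsto (fun p : ℕ × ℂ => (cpPsi Y₀ p.1 * Complex.I) * ((p.1 : ℂ) + 1)⁻¹)
      (atTop ×ˢ 𝓝 μ) (𝓝 0) := by
    have h4 := (h1.norm).const_mul Real.pi
    rw [norm_zero, mul_zero] at h4
    refine squeeze_zero_norm (fun p => ?_) h4
    rw [norm_mul, norm_mul, Complex.norm_I, mul_one, Complex.norm_real, Real.norm_eq_abs]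
    exact mul_le_mul_of_nonneg_right (cpPsi_le _ _) (norm_nonneg _)
  have h5 := h2.add h3
  rw [mul_zero, add_zero] at h5
  refine h5.congr (fun p => ?_)
  rw [div_eq_mul_inv]; ring

private theorem cpY_tendsto (Y₀ μ : ℂ) :
    Tendsto (fun p : ℕ × ℂ => cpY Y₀ p.1 p.2) (atTop ×ˢ 𝓝 μ) (𝓝 Y₀) := by
  have h1 := ((Complex.continuous_exp.tendsto 0).comp (cp_arg_tendsto Y₀ μ)).const_mul Y₀
  rw [Complex.exp_zero, mul_one] at h1
  exact h1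

private noncomputable def cpk (Y₀ : ℂ) (n : ℕ) : ℕ := ⌊cpT Y₀ n⌋₊

/-- `q` as a function of `Y` is `c (Y - 1)`. -/
private noncomputable def cpf (c Y₀ : ℂ) (n : ℕ) (μ : ℂ) : ℂ :=
  (1 + c * (cpY Y₀ n μ - 1) / ((cpT Y₀ n : ℂ) * Complex.exp μ - 1)) ^ (2 * cpk Y₀ n)
    - (1 - c * (cpY Y₀ n μ - 1))

private theorem cpf_tendsto {Y₀ : ℂ} (c : ℂ) (h : 1 < ‖Y₀‖) (μ : ℂ) :
    Tendsto (fun p : ℕ × ℂ => cpf c Y₀ p.1 p.2) (atTop ×ˢ 𝓝 μ)
      (𝓝 (Complex.exp (2 * (c * (Y₀ - 1)) * Complex.exp (-μ)) - (1 - c * (Y₀ - 1)))) := by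
  have hT : Tendsto (fun p : ℕ × ℂ => cpT Y₀ p.1) (atTop ×ˢ 𝓝 μ) atTop :=
    (cpT_tendsto h).comp tendsto_fst
  have hTpos : ∀ n, 0 < cpT Y₀ n := fun n => pow_pos (by linarith) _
  have hTc : Tendsto (fun p : ℕ × ℂ => ((cpT Y₀ p.1 : ℂ))⁻¹) (atTop ×ˢ 𝓝 μ) (𝓝 0) := by
    have h1 := (Complex.continuous_ofReal.tendsto 0).comp (tendsto_inv_atTop_zero.comp hT)
    rw [Complex.ofReal_zero] at h1
    refine h1.congr (fun p => ?_)
    simp [Function.comp]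
  have hP : Tendsto (fun p : ℕ × ℂ => c * (cpY Y₀ p.1 p.2 - 1)) (atTop ×ˢ 𝓝 μ)
      (𝓝 (c * (Y₀ - 1))) := ((cpY_tendsto Y₀ μ).sub_const 1).const_mul c
  have hden : Tendsto (fun p : ℕ × ℂ => Complex.exp p.2 - ((cpT Y₀ p.1 : ℂ))⁻¹)
      (atTop ×ˢ 𝓝 μ) (𝓝 (Complex.exp μ - 0)) :=
    ((Complex.continuous_exp.tendsto μ).comp tendsto_snd).sub hTc
  rw [sub_zero] at hden
  have hq : Tendsto (fun p : ℕ × ℂ => c * (cpY Y₀ p.1 p.2 - 1) /
      (Complex.exp p.2 - ((cpT Y₀ p.1 : ℂ))⁻¹)) (atTop ×ˢ 𝓝 μ)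
      (𝓝 (c * (Y₀ - 1) / Complex.exp μ)) :=
    hP.div hden (Complex.exp_ne_zero μ)
  have hrw : ∀ p : ℕ × ℂ, c * (cpY Y₀ p.1 p.2 - 1) / ((cpT Y₀ p.1 : ℂ) * Complex.exp p.2 - 1) =
      ((cpT Y₀ p.1 : ℂ))⁻¹ * (c * (cpY Y₀ p.1 p.2 - 1) /
        (Complex.exp p.2 - ((cpT Y₀ p.1 : ℂ))⁻¹)) := by
    intro p
    have h1 : ((cpT Y₀ p.1 : ℂ)) ≠ 0 := by
      exact_mod_cast (hTpos p.1).ne'
    have h2 : (cpT Y₀ p.1 : ℂ) * Complex.exp p.2 - 1 =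
        (cpT Y₀ p.1 : ℂ) * (Complex.exp p.2 - ((cpT Y₀ p.1 : ℂ))⁻¹) := by
      rw [mul_sub, mul_inv_cancel₀ h1]
    rw [h2, mul_comm ((cpT Y₀ p.1 : ℂ)) (Complex.exp p.2 - ((cpT Y₀ p.1 : ℂ))⁻¹), ← div_div,
      div_eq_mul_inv (c * (cpY Y₀ p.1 p.2 - 1) / _) (cpT Y₀ p.1 : ℂ), mul_comm]
  have hg : Tendsto (fun p : ℕ × ℂ => c * (cpY Y₀ p.1 p.2 - 1) /
      ((cpT Y₀ p.1 : ℂ) * Complex.exp p.2 - 1)) (atTop ×ˢ 𝓝 μ) (𝓝 0) := by
    have h1 := hTc.mul hq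
    rw [zero_mul] at h1
    exact h1.congr (fun p => (hrw p).symm)
  have hk : Tendsto (fun p : ℕ × ℂ => ((cpk Y₀ p.1 : ℂ)) * ((cpT Y₀ p.1 : ℂ))⁻¹)
      (atTop ×ˢ 𝓝 μ) (𝓝 1) := by
    have h1 := (Complex.continuous_ofReal.tendsto 1).comp
      ((tendsto_nat_floor_div_atTop (R := ℝ)).comp hT)
    rw [Complex.ofReal_one] at h1
    refine h1.congr (fun p => ?_)
    simp [Function.comp, cpk, div_eq_mul_inv]
  have hN : Tendsto (fun p : ℕ × ℂ => (((2 * cpk Y₀ p.1 : ℕ) : ℂ)) * (c * (cpY Y₀ p.1 p.2 - 1) /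
      ((cpT Y₀ p.1 : ℂ) * Complex.exp p.2 - 1))) (atTop ×ˢ 𝓝 μ)
      (𝓝 (2 * (c * (Y₀ - 1)) * Complex.exp (-μ))) := by
    have h1 := (hk.mul hq).const_mul 2
    have e : 2 * (1 * (c * (Y₀ - 1) / Complex.exp μ)) = 2 * (c * (Y₀ - 1)) * Complex.exp (-μ) := by
      rw [Complex.exp_neg, div_eq_mul_inv]; ring
    rw [e] at h1
    refine h1.congr (fun p => ?_)
    rw [hrw]; push_cast; ring
  exact (tendsto_one_add_pow hg hN).sub (tendsto_const_nhds.sub hP)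

/-- Zeros with `|Y| > 1`; `c (Y - 1)` plays the role of `q`. -/
theorem cycP_zeros {c Y₀ : ℂ} (h : 1 < ‖Y₀‖) (hc : c ≠ 0) (hp : 1 - c * (Y₀ - 1) ≠ 0) {ε : ℝ}
    (hε : 0 < ε) :
    ∃ (Y : ℂ) (n K : ℕ), ‖Y - Y₀‖ < ε ∧ 1 ≤ K ∧ Y ^ K ≠ 1 ∧
      (1 + c * (Y - 1) / (Y ^ K - 1)) ^ (2 * (n + 1)) = 1 - c * (Y - 1) := by
  have hY1 : Y₀ ≠ 1 := by
    rintro rfl; simp at h
  set q₀ : ℂ := c * (Y₀ - 1) with hq₀
  have hq0 : q₀ ≠ 0 := mul_ne_zero hc (sub_ne_zero.mpr hY1)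
  have hp1 : 1 - q₀ ≠ 1 := by
    intro h1; exact hq0 (by linear_combination -h1)
  set L : ℂ := Complex.log (1 - q₀) with hL
  have hexpL : Complex.exp L = 1 - q₀ := Complex.exp_log hp
  have hL0 : L ≠ 0 := by
    intro h0
    rw [h0, Complex.exp_zero] at hexpL
    exact hp1 hexpL.symm
  have hLpi : L + Real.pi * Complex.I ≠ 0 := by
    intro h0
    have h1 := congrArg Complex.im h0
    rw [Complex.add_im, hL, Complex.log_im] at h1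
    simp at h1
    have := Complex.neg_pi_lt_arg (1 - q₀)
    linarith
  have hquot : 2 * q₀ / L ≠ 0 := div_ne_zero (mul_ne_zero two_ne_zero hq0) hL0
  set μ₀ : ℂ := Complex.log (2 * q₀ / L) with hμ₀
  have hexpμ : Complex.exp μ₀ = 2 * q₀ / L := Complex.exp_log hquot
  have hzero : 2 * q₀ * Complex.exp (-μ₀) = L := by
    rw [Complex.exp_neg, hexpμ]
    field_simp
  set g : ℂ → ℂ := fun μ => Complex.exp (2 * q₀ * Complex.exp (-μ)) - (1 - q₀) with hg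
  have hgd : Differentiable ℂ g := by
    intro μ
    have h1 : DifferentiableAt ℂ (fun μ : ℂ => 2 * q₀ * Complex.exp (-μ)) μ :=
      ((differentiableAt_id.neg).cexp).const_mul _
    exact h1.cexp.sub_const _
  have hg0 : g μ₀ = 0 := by
    rw [hg]; simp only; rw [hzero, hexpL, sub_self]
  have hgne : ∃ z, g z ≠ 0 := by
    have hq2 : 2 * q₀ / (L + Real.pi * Complex.I) ≠ 0 :=
      div_ne_zero (mul_ne_zero two_ne_zero hq0) hLpi
    refine ⟨Complex.log (2 * q₀ / (L + Real.pi * Complex.I)), ?_⟩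
    intro h0
    have h1 : 2 * q₀ * Complex.exp (-Complex.log (2 * q₀ / (L + Real.pi * Complex.I))) =
        L + Real.pi * Complex.I := by
      rw [Complex.exp_neg, Complex.exp_log hq2]
      field_simp
    rw [hg] at h0
    simp only at h0
    rw [h1, Complex.exp_add, hexpL, Complex.exp_pi_mul_I] at h0
    apply hp
    linear_combination -h0 / 2
  have hTbig : ∀ᶠ n in atTop, Real.exp (1 - μ₀.re) < cpT Y₀ n :=
    (cpT_tendsto h).eventually_gt_atTop _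
  have hne1 : ∀ᶠ n in atTop, ∀ μ : ℂ, ‖μ - μ₀‖ < 1 → (cpT Y₀ n : ℂ) * Complex.exp μ ≠ 1 := by
    filter_upwards [hTbig] with n hn μ hμ h1
    have h2 := congrArg norm h1
    have hTp : 0 < cpT Y₀ n := pow_pos (by linarith) _
    rw [norm_mul, Complex.norm_real, Real.norm_eq_abs, abs_of_pos hTp, Complex.norm_exp,
      norm_one] at h2
    have h3 : μ₀.re - 1 < μ.re := by
      have := Complex.abs_re_le_norm (μ - μ₀)
      rw [Complex.sub_re] at this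
      have := (abs_lt.mp (lt_of_le_of_lt this hμ)).1
      linarith
    have h4 : Real.exp (μ₀.re - 1) < Real.exp μ.re := Real.exp_lt_exp.mpr h3
    have h5 : Real.exp (1 - μ₀.re) * Real.exp (μ₀.re - 1) = 1 := by
      rw [← Real.exp_add]; simp
    have h6 : 0 < Real.exp (μ₀.re - 1) := Real.exp_pos _
    nlinarith [Real.exp_pos μ.re, Real.exp_pos (1 - μ₀.re)]
  have hdiff : ∀ᶠ n in atTop, DifferentiableOn ℂ (cpf c Y₀ n) (Metric.ball μ₀ 1) := by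
    filter_upwards [hne1] with n hn μ hμ
    rw [Metric.mem_ball, dist_eq_norm] at hμ
    apply DifferentiableAt.differentiableWithinAt
    have hP : DifferentiableAt ℂ (fun μ => c * (cpY Y₀ n μ - 1)) μ := by
      unfold cpY
      exact ((((((differentiableAt_id.add_const _).div_const _).cexp).const_mul _)).sub_const
        _).const_mul _
    have hden : DifferentiableAt ℂ (fun μ : ℂ => (cpT Y₀ n : ℂ) * Complex.exp μ - 1) μ :=
      ((differentiableAt_id.cexp).const_mul _).sub_const _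
    have h1 : DifferentiableAt ℂ (fun μ : ℂ => 1 + c * (cpY Y₀ n μ - 1) /
        ((cpT Y₀ n : ℂ) * Complex.exp μ - 1)) μ :=
      (hP.div hden (sub_ne_zero.mpr (hn μ hμ))).const_add 1
    exact (h1.pow _).sub (hP.const_sub 1)
  have hhur := hurwitz (f := cpf c Y₀) (g := g) (c := μ₀) one_pos hdiff hgd hg0 hgne
    (fun z _ => cpf_tendsto c h z) one_pos
  have hcont : Tendsto (fun w : ℂ => Y₀ * Complex.exp w) (𝓝 0) (𝓝 Y₀) := by
    have := (Complex.continuous_exp.tendsto 0).const_mul Y₀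
    rwa [Complex.exp_zero, mul_one] at this
  obtain ⟨δ, hδ, hclose⟩ := Metric.eventually_nhds_iff.mp
    (hcont.eventually (Metric.ball_mem_nhds Y₀ hε))
  have hsmall : ∀ᶠ n : ℕ in atTop, (‖μ₀‖ + 1 + Real.pi) / ((n : ℝ) + 1) < δ := by
    have h1 := (tendsto_one_div_add_atTop_nhds_zero_nat (𝕜 := ℝ)).const_mul (‖μ₀‖ + 1 + Real.pi)
    rw [mul_zero] at h1
    filter_upwards [h1.eventually (gt_mem_nhds hδ)] with n hn
    rwa [mul_one_div] at hn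
  have hk1 : ∀ᶠ n in atTop, 1 ≤ cpT Y₀ n := (cpT_tendsto h).eventually_ge_atTop 1
  obtain ⟨n, ⟨μ, hμ, hfz⟩, hn1, hsm, hkk⟩ := (hhur.and (hne1.and (hsmall.and hk1))).exists
  have hk : 1 ≤ cpk Y₀ n := (Nat.one_le_floor_iff _).mpr hkk
  refine ⟨cpY Y₀ n μ, cpk Y₀ n - 1, n + 1, ?_, by omega, ?_, ?_⟩
  · have h1 : ‖(μ + cpPsi Y₀ n * Complex.I) / ((n : ℂ) + 1)‖ < δ := by
      have hnc : ‖(n : ℂ) + 1‖ = (n : ℝ) + 1 := by
        have : (n : ℂ) + 1 = (((n : ℝ) + 1 : ℝ) : ℂ) := by push_cast; ring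
        rw [this, Complex.norm_real, Real.norm_eq_abs, abs_of_pos (by positivity)]
      rw [norm_div, hnc]
      refine lt_of_le_of_lt ?_ hsm
      have h2 : ‖μ + cpPsi Y₀ n * Complex.I‖ ≤ ‖μ₀‖ + 1 + Real.pi := by
        have h3 := norm_add_le μ (cpPsi Y₀ n * Complex.I)
        rw [norm_mul, Complex.norm_I, mul_one, Complex.norm_real, Real.norm_eq_abs] at h3
        have h4 := cpPsi_le Y₀ n
        have h5 : ‖μ‖ ≤ ‖μ - μ₀‖ + ‖μ₀‖ := by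
          have := norm_add_le (μ - μ₀) μ₀
          simpa using this
        linarith
      gcongr
    have h2 := hclose (by rw [dist_zero_right]; exact h1)
    rw [dist_eq_norm] at h2
    exact h2
  · rw [cpY_pow]
    exact hn1 μ hμ
  · rw [cpY_pow]
    unfold cpf at hfz
    have e : 2 * (cpk Y₀ n - 1 + 1) = 2 * cpk Y₀ n := by omega
    rw [e]
    exact sub_eq_zero.mp hfz

/-- The corresponding zero of the flat sum with `k = 2`. -/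
theorem cycP_flat {h q : ℂ} {n : ℕ} (hh : h ≠ 1) (hq : q ≠ 0)
    (he : (1 + q / (h - 1)) ^ (2 * (n + 1)) = 1 - q) :
    (DD h q n + (h - 1) ^ (n + 1)) ^ 2 + (q - 1) * DD h q n ^ 2 = 0 := by
  have hw : h - 1 ≠ 0 := sub_ne_zero.mpr hh
  have h1 := q_mul_DD h q n
  set w : ℂ := (h - 1) ^ (n + 1) with hwdef
  set u : ℂ := (q + h - 1) ^ (n + 1) with hudef
  have h2 : u ^ 2 = (1 - q) * w ^ 2 := by
    have h3 : 1 + q / (h - 1) = (q + h - 1) / (h - 1) := by field_simp; ring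
    rw [h3, pow_mul, pow_right_comm, div_pow, ← hwdef, ← hudef, div_pow,
      div_eq_iff (pow_ne_zero 2 (pow_ne_zero _ hw))] at he
    exact he
  have h4 : q * ((DD h q n + w) ^ 2 + (q - 1) * DD h q n ^ 2) = 0 := by
    have h5 : q * ((DD h q n + w) ^ 2 + (q - 1) * DD h q n ^ 2) =
        (q * DD h q n) ^ 2 + 2 * (q * DD h q n) * w + q * w ^ 2 := by ring
    rw [h5, h1]
    linear_combination h2
  exact (mul_eq_zero.mp h4).resolve_left hq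

end Pool.Agent.NZF
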