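import Mathlib

/-!
# Zeros of the Tutte polynomial at every point of R (project NZF): definitions
-/

set_option autoImplicit false

namespace Pool.Agent.NZF

open Classical Finset

/-- The number of connected components of the graph with vertex set `V` and edge set `A`. -/
noncomputable def comps {V : Type} (A : Finset (Sym2 V)) : ℕ :=
  Nat.card (SimpleGraph.fromEdgeSet (A : Set (Sym2 V))).ConnectedComponent

/-- The Tutte polynomial `T(G;x,y)` of a finite simple graph at complex `x`, `y`: the sum over all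
edge sets `A` of `(x-1)^(r(E)-r(A)) (y-1)^(|A|-r(A))`, where `r(A) = |V| - k(A)`. -/
noncomputable def tutte {V : Type} [Fintype V] (G : SimpleGraph V) (x y : ℂ) : ℂ :=
  ∑ A ∈ G.edgeFinset.powerset,
    (x - 1) ^ (comps A - comps G.edgeFinset) * (y - 1) ^ (A.card + comps A - Fintype.card V)

/-- The random cluster sum divided by `q`. -/
noncomputable def ysum {V : Type} [Fintype V] (G : SimpleGraph V) (q v : ℂ) : ℂ :=
  ∑ A ∈ G.edgeFinset.powerset, q ^ (comps A - 1) * v ^ A.card

/-- The 2-path graph of a multigraph with vertex set `V`, edge set `E`, ends `s`, `t`: every edge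
`e` is replaced by a path of length two through the new vertex `e`. -/
def twoPath {V E : Type} (s t : E → V) : SimpleGraph (V ⊕ E) :=
  SimpleGraph.fromRel (fun a b =>
    ∃ (u : V) (e : E), a = Sum.inl u ∧ b = Sum.inr e ∧ (u = s e ∨ u = t e))

/-- Vertices of the theta graph with apex: three terminals (`0` = apex, `1`, `2` = ends of the
paths) and `n` inner vertices on each of the `k` paths. -/
abbrev VH (k n : ℕ) : Type := Fin 3 ⊕ (Fin k × Fin n)

/-- Edges: `K` copies of each path edge, `m` copies of each edge from an inner vertex to the apex,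
`m₁` (`m₂`) copies of the edge from the apex to terminal `1` (`2`). -/
abbrev EH (k n K m m₁ m₂ : ℕ) : Type :=
  (((Fin k × Fin (n + 1)) × Fin K) ⊕ ((Fin k × Fin n) × Fin m)) ⊕ (Fin m₁ ⊕ Fin m₂)

/-- The `i`-th vertex of the `j`-th path (`0 ≤ i ≤ n+1`). -/
def pt {k n : ℕ} (j : Fin k) (i : ℕ) : VH k n :=
  if i = 0 then Sum.inl 1 else if h : i - 1 < n then Sum.inr (j, ⟨i - 1, h⟩) else Sum.inl 2

/-- First ends. -/
def sH {k n K m m₁ m₂ : ℕ} : EH k n K m m₁ m₂ → VH k n
  | Sum.inl (Sum.inl e) => pt e.1.1 (e.1.2 : ℕ)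
  | Sum.inl (Sum.inr e) => Sum.inr e.1
  | Sum.inr (Sum.inl _) => Sum.inl 1
  | Sum.inr (Sum.inr _) => Sum.inl 2

/-- Second ends. -/
def tH {k n K m m₁ m₂ : ℕ} : EH k n K m m₁ m₂ → VH k n
  | Sum.inl (Sum.inl e) => pt e.1.1 ((e.1.2 : ℕ) + 1)
  | Sum.inl (Sum.inr _) => Sum.inl 0
  | Sum.inr (Sum.inl _) => Sum.inl 0
  | Sum.inr (Sum.inr _) => Sum.inl 0

/-- The graph. -/
def theta (k n K m m₁ m₂ : ℕ) : SimpleGraph (VH k n ⊕ EH k n K m m₁ m₂) :=
  twoPath (sH (k := k) (n := n) (K := K) (m := m) (m₁ := m₁) (m₂ := m₂)) tH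

/-- Path sums from a terminal different from the apex colour: values at end colours
(apex colour, colour of the start, another colour). -/
def stA {R : Type} [CommRing R] (r0 r1 s0 s1 q : R) : ℕ → R × R × R
  | 0 => (r0, r1, r0)
  | n + 1 =>
    let p := stA r0 r1 s0 s1 q n
    let S := s1 * p.1 + s0 * p.2.1 + (q - 2) * s0 * p.2.2
    (r0 * S + (r1 - r0) * s1 * p.1, r0 * S + (r1 - r0) * s0 * p.2.1,
      r0 * S + (r1 - r0) * s0 * p.2.2)

/-- Path sums from a terminal with the apex colour: values at end colours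
(apex colour, another colour). -/
def stZ {R : Type} [CommRing R] (r0 r1 s0 s1 q : R) : ℕ → R × R
  | 0 => (r1, r0)
  | n + 1 =>
    let p := stZ r0 r1 s0 s1 q n
    let S := s1 * p.1 + (q - 1) * s0 * p.2
    (r0 * S + (r1 - r0) * s1 * p.1, r0 * S + (r1 - r0) * s0 * p.2)

/-- The random cluster sum of the graph divided by `q`, in terms of weights. -/
def totG {R : Type} [CommRing R] (r0 r1 s0 s1 f0 f1 g0 g1 q : R) (k n : ℕ) : R :=
  f1 * g1 * (stZ r0 r1 s0 s1 q n).1 ^ k + (q - 1) * f1 * g0 * (stZ r0 r1 s0 s1 q n).2 ^ k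
    + (q - 1) * f0 * g1 * (stA r0 r1 s0 s1 q n).1 ^ k
    + (q - 1) * f0 * g0 * (stA r0 r1 s0 s1 q n).2.1 ^ k
    + (q - 1) * (q - 2) * f0 * g0 * (stA r0 r1 s0 s1 q n).2.2 ^ k

/-- The polynomials `W`. -/
def W (α : ℂ) : ℕ → ℂ
  | 0 => 1
  | 1 => 2
  | (j + 2) => 2 * W α (j + 1) - α * W α j

end Pool.Agent.NZF
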