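import Pool.Agent.NZF.Rank

/-!
The Fortuin-Kasteleyn expansion. A colouring which is constant on all edges of `A` is the same
as a function on the connected components of the graph with edge set `A`, so there are
`q ^ comps A` such colourings. Expanding the product over the edges of the weights
`1 + v` (constant edge) and `1` (other edge) as a sum over edge sets and exchanging the sums
gives the random cluster sum.
-/

set_option autoImplicit false

namespace Pool.Agent.NZF

open Classical Finset

private theorem fk_walk {V : Type} {A : Finset (Sym2 V)} {q : ℕ} {c : V → Fin q}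
    (hc : ∀ e ∈ A, (Sym2.map c e).IsDiag) {u w : V}
    (p : (SimpleGraph.fromEdgeSet (A : Set (Sym2 V))).Walk u w) : c u = c w := by
  induction p with
  | nil => rfl
  | cons h _ ih =>
    rename_i a b d
    have h1 := (SimpleGraph.fromEdgeSet_adj _).1 h
    have h2 := hc _ (Finset.mem_coe.1 h1.1)
    rw [Sym2.map_mk, Sym2.mk_isDiag_iff] at h2
    exact h2.trans ih

/-- The number of colourings which are constant on the edges in `A` is `q ^ comps A`. -/
theorem card_mono {V : Type} [Fintype V] (A : Finset (Sym2 V)) (q : ℕ) :
    Fintype.card {c : V → Fin q // ∀ e ∈ A, (Sym2.map c e).IsDiag} = q ^ comps A := by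
  let E : {c : V → Fin q // ∀ e ∈ A, (Sym2.map c e).IsDiag} ≃
      ((SimpleGraph.fromEdgeSet (A : Set (Sym2 V))).ConnectedComponent → Fin q) :=
    { toFun := fun c C => C.lift (fun v => c.1 v) (fun _ _ p _ => fk_walk c.2 p)
      invFun := fun f => ⟨fun v => f (SimpleGraph.connectedComponentMk _ v), by
        intro e he
        induction e using Sym2.ind with
        | _ a b =>
          rw [Sym2.map_mk, Sym2.mk_isDiag_iff]
          by_cases hab : a = b
          · rw [hab]
          · have hadj : (SimpleGraph.fromEdgeSet (A : Set (Sym2 V))).Adj a b :=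
              (SimpleGraph.fromEdgeSet_adj _).2 ⟨Finset.mem_coe.2 he, hab⟩
            exact congrArg f (SimpleGraph.ConnectedComponent.sound hadj.reachable)⟩
      left_inv := fun c => by
        apply Subtype.ext
        funext v
        rfl
      right_inv := fun f => by
        funext C
        induction C using SimpleGraph.ConnectedComponent.ind with
        | _ v => rfl }
  have : Finite (SimpleGraph.fromEdgeSet (A : Set (Sym2 V))).ConnectedComponent :=
    inferInstance
  rw [← Nat.card_eq_fintype_card, Nat.card_congr E, Nat.card_fun, Nat.card_fin, comps]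

/-- Fortuin-Kasteleyn. -/
theorem fk {V : Type} [Fintype V] [Nonempty V] (G : SimpleGraph V) (q : ℕ) (v : ℂ) :
    (q : ℂ) * ysum G (q : ℂ) v =
      ∑ c : V → Fin q, ∏ e ∈ G.edgeFinset, (if (Sym2.map c e).IsDiag then 1 + v else 1) := by
  have h1 : ∀ c : V → Fin q,
      (∏ e ∈ G.edgeFinset, (if (Sym2.map c e).IsDiag then 1 + v else 1)) =
        ∑ A ∈ G.edgeFinset.powerset,
          (if ∀ e ∈ A, (Sym2.map c e).IsDiag then v ^ A.card else 0) := by
    intro c
    have h2 : (∏ e ∈ G.edgeFinset, (if (Sym2.map c e).IsDiag then 1 + v else 1)) =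
        ∏ e ∈ G.edgeFinset, (1 + (if (Sym2.map c e).IsDiag then v else 0)) := by
      apply Finset.prod_congr rfl
      intro e _
      split_ifs
      · rfl
      · rw [add_zero]
    rw [h2, Finset.prod_one_add]
    apply Finset.sum_congr rfl
    intro A _
    split_ifs with h
    · rw [Finset.prod_congr rfl (fun e he => if_pos (h e he)), Finset.prod_const]
    · push Not at h
      obtain ⟨e, he, hd⟩ := h
      exact Finset.prod_eq_zero he (if_neg hd)
  rw [Finset.sum_congr rfl (fun c _ => h1 c), Finset.sum_comm, ysum, Finset.mul_sum]
  apply Finset.sum_congr rfl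
  intro A _
  rw [← Finset.sum_filter, Finset.sum_const, nsmul_eq_mul]
  have h3 : (Finset.univ.filter
      (fun c : V → Fin q => ∀ e ∈ A, (Sym2.map c e).IsDiag)).card = q ^ comps A := by
    rw [← card_mono A q, Fintype.card_subtype]
  rw [h3, ← mul_assoc]
  congr 1
  have h4 : comps A = (comps A - 1) + 1 := by
    have := comps_pos A
    omega
  rw [Nat.cast_pow]
  conv_rhs => rw [h4]
  rw [pow_succ, mul_comm]

end Pool.Agent.NZF
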