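import Pool.Agent.NZF.Hur

/-!
PLAN (NZF-HardP). p0 <> 0, 1, -1. L := Complex.log p0 <> 0. Unknown mu, p := p0 * exp((mu + i psi_l)/l), psi_l := -arg(p0^l) in [-pi, pi],
so p^l = |p0|^l exp mu (l = n+1). k_l := floor(|p0|^l). f l mu := (1 + (1-p)/(|p0|^l exp mu - 1))^(k_l) - p,
g mu := exp((1-p0) exp(-mu)) - p0. Joint limits (atTop x nhds mu1): (mu + i psi_l)/l -> 0, p -> p0, |p0|^l -> infinity,
k_l (1-p)/(|p0|^l exp mu - 1) -> (1-p0) exp(-mu), so f -> g (Hur.tendsto_one_add_pow). Zero of g: mu0 with (1-p0) exp(-mu0) = L, i.e.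
mu0 = log((1-p0)/L). g is not identically 0: g(mu0 + i pi) = exp(-L) - p0 = 1/p0 - p0 <> 0 since |p0| > 1. hurwitz gives mu_l
-> mu0 (only boundedness |mu_l - mu0| < 1 is needed), then |p - p0| < eps for large l, p^l = |p0|^l exp(mu_l) <> 1 for large l.
-/

set_option autoImplicit false

namespace Pool.Agent.NZF

open Filter Topology

private noncomputable def hpT (p₀ : ℂ) (n : ℕ) : ℝ := ‖p₀‖ ^ (n + 1)

private noncomputable def hpPsi (p₀ : ℂ) (n : ℕ) : ℝ := -(p₀ ^ (n + 1)).arg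

private noncomputable def hpP (p₀ : ℂ) (n : ℕ) (μ : ℂ) : ℂ :=
  p₀ * Complex.exp ((μ + hpPsi p₀ n * Complex.I) / ((n : ℂ) + 1))

private theorem hpP_pow (p₀ : ℂ) (n : ℕ) (μ : ℂ) :
    hpP p₀ n μ ^ (n + 1) = (hpT p₀ n : ℂ) * Complex.exp μ := by
  have hn : ((n : ℂ) + 1) ≠ 0 := Nat.cast_add_one_ne_zero n
  unfold hpP hpT hpPsi
  rw [mul_pow, ← Complex.exp_nat_mul]
  have e : ((n + 1 : ℕ) : ℂ) * ((μ + ((-(p₀ ^ (n + 1)).arg : ℝ) : ℂ) * Complex.I) / ((n : ℂ) + 1))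
      = μ + ((-(p₀ ^ (n + 1)).arg : ℝ) : ℂ) * Complex.I := by
    push_cast
    field_simp
  rw [e, Complex.exp_add]
  have h1 := Complex.norm_mul_exp_arg_mul_I (p₀ ^ (n + 1))
  have h2 : Complex.exp (((-(p₀ ^ (n + 1)).arg : ℝ) : ℂ) * Complex.I) *
      Complex.exp (((p₀ ^ (n + 1)).arg : ℂ) * Complex.I) = 1 := by
    rw [← Complex.exp_add]
    have : ((-(p₀ ^ (n + 1)).arg : ℝ) : ℂ) * Complex.I + ((p₀ ^ (n + 1)).arg : ℂ) * Complex.I = 0 := by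
      push_cast; ring
    rw [this, Complex.exp_zero]
  rw [norm_pow] at h1
  calc p₀ ^ (n + 1) * (Complex.exp μ * Complex.exp (((-(p₀ ^ (n + 1)).arg : ℝ) : ℂ) * Complex.I))
      = ((‖p₀‖ ^ (n + 1) : ℝ) : ℂ) * Complex.exp (((p₀ ^ (n + 1)).arg : ℂ) * Complex.I) *
        (Complex.exp μ * Complex.exp (((-(p₀ ^ (n + 1)).arg : ℝ) : ℂ) * Complex.I)) := by
        rw [h1]
    _ = ((‖p₀‖ ^ (n + 1) : ℝ) : ℂ) * Complex.exp μ *
        (Complex.exp (((-(p₀ ^ (n + 1)).arg : ℝ) : ℂ) * Complex.I) *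
      Complex.exp (((p₀ ^ (n + 1)).arg : ℂ) * Complex.I)) := by ring
    _ = ((‖p₀‖ ^ (n + 1) : ℝ) : ℂ) * Complex.exp μ := by rw [h2, mul_one]

private theorem hpT_tendsto {p₀ : ℂ} (h : 1 < ‖p₀‖) : Tendsto (hpT p₀) atTop atTop := by
  have h1 := (tendsto_pow_atTop_atTop_of_one_lt h).comp (tendsto_add_atTop_nat 1)
  exact h1

private theorem hpPsi_le (p₀ : ℂ) (n : ℕ) : |hpPsi p₀ n| ≤ Real.pi := by
  unfold hpPsi
  rw [abs_neg]
  exact Complex.abs_arg_le_pi _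

private theorem hp_inv_tendsto (μ : ℂ) :
    Tendsto (fun p : ℕ × ℂ => (((p.1 : ℂ) + 1)⁻¹)) (atTop ×ˢ 𝓝 μ) (𝓝 0) := by
  have h1 : Tendsto (fun n : ℕ => ((n : ℂ) + 1)⁻¹) atTop (𝓝 0) := by
    have h2 := tendsto_one_div_add_atTop_nhds_zero_nat (𝕜 := ℂ)
    refine h2.congr (fun n => by rw [one_div])
  exact h1.comp tendsto_fst

private theorem hp_arg_tendsto (p₀ μ : ℂ) :
    Tendsto (fun p : ℕ × ℂ => (p.2 + hpPsi p₀ p.1 * Complex.I) / ((p.1 : ℂ) + 1))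
      (atTop ×ˢ 𝓝 μ) (𝓝 0) := by
  have h1 := hp_inv_tendsto μ
  have h2 : Tendsto (fun p : ℕ × ℂ => p.2 * ((p.1 : ℂ) + 1)⁻¹) (atTop ×ˢ 𝓝 μ) (𝓝 (μ * 0)) :=
    tendsto_snd.mul h1
  have h3 : Tendsto (fun p : ℕ × ℂ => (hpPsi p₀ p.1 * Complex.I) * ((p.1 : ℂ) + 1)⁻¹)
      (atTop ×ˢ 𝓝 μ) (𝓝 0) := by
    have h4 := (h1.norm).const_mul Real.pi
    rw [norm_zero, mul_zero] at h4
    refine squeeze_zero_norm (fun p => ?_) h4
    rw [norm_mul, norm_mul, Complex.norm_I, mul_one, Complex.norm_real, Real.norm_eq_abs]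
    exact mul_le_mul_of_nonneg_right (hpPsi_le _ _) (norm_nonneg _)
  have h5 := h2.add h3
  rw [mul_zero, add_zero] at h5
  refine h5.congr (fun p => ?_)
  rw [div_eq_mul_inv]; ring

private theorem hpP_tendsto (p₀ μ : ℂ) :
    Tendsto (fun p : ℕ × ℂ => hpP p₀ p.1 p.2) (atTop ×ˢ 𝓝 μ) (𝓝 p₀) := by
  have h1 := ((Complex.continuous_exp.tendsto 0).comp (hp_arg_tendsto p₀ μ)).const_mul p₀
  rw [Complex.exp_zero, mul_one] at h1
  exact h1

private noncomputable def hpk (p₀ : ℂ) (n : ℕ) : ℕ := ⌊hpT p₀ n⌋₊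

private noncomputable def hpf (p₀ : ℂ) (n : ℕ) (μ : ℂ) : ℂ :=
  (1 + (1 - hpP p₀ n μ) / ((hpT p₀ n : ℂ) * Complex.exp μ - 1)) ^ hpk p₀ n - hpP p₀ n μ

private theorem hpf_tendsto {p₀ : ℂ} (h : 1 < ‖p₀‖) (μ : ℂ) :
    Tendsto (fun p : ℕ × ℂ => hpf p₀ p.1 p.2) (atTop ×ˢ 𝓝 μ)
      (𝓝 (Complex.exp ((1 - p₀) * Complex.exp (-μ)) - p₀)) := by
  have hT : Tendsto (fun p : ℕ × ℂ => hpT p₀ p.1) (atTop ×ˢ 𝓝 μ) atTop :=
    (hpT_tendsto h).comp tendsto_fst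
  have hTpos : ∀ n, 0 < hpT p₀ n := fun n => pow_pos (by linarith) _
  have hTc : Tendsto (fun p : ℕ × ℂ => ((hpT p₀ p.1 : ℂ))⁻¹) (atTop ×ˢ 𝓝 μ) (𝓝 0) := by
    have h1 := (Complex.continuous_ofReal.tendsto 0).comp (tendsto_inv_atTop_zero.comp hT)
    rw [Complex.ofReal_zero] at h1
    refine h1.congr (fun p => ?_)
    simp [Function.comp]
  have hP := hpP_tendsto p₀ μ
  have hden : Tendsto (fun p : ℕ × ℂ => Complex.exp p.2 - ((hpT p₀ p.1 : ℂ))⁻¹)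
      (atTop ×ˢ 𝓝 μ) (𝓝 (Complex.exp μ - 0)) :=
    ((Complex.continuous_exp.tendsto μ).comp tendsto_snd).sub hTc
  rw [sub_zero] at hden
  have hq : Tendsto (fun p : ℕ × ℂ => (1 - hpP p₀ p.1 p.2) /
      (Complex.exp p.2 - ((hpT p₀ p.1 : ℂ))⁻¹)) (atTop ×ˢ 𝓝 μ) (𝓝 ((1 - p₀) / Complex.exp μ)) :=
    (tendsto_const_nhds.sub hP).div hden (Complex.exp_ne_zero μ)
  have hrw : ∀ p : ℕ × ℂ, (1 - hpP p₀ p.1 p.2) / ((hpT p₀ p.1 : ℂ) * Complex.exp p.2 - 1) =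
      ((hpT p₀ p.1 : ℂ))⁻¹ * ((1 - hpP p₀ p.1 p.2) / (Complex.exp p.2 - ((hpT p₀ p.1 : ℂ))⁻¹)) := by
    intro p
    have h1 : ((hpT p₀ p.1 : ℂ)) ≠ 0 := by
      exact_mod_cast (hTpos p.1).ne'
    have h2 : (hpT p₀ p.1 : ℂ) * Complex.exp p.2 - 1 =
        (hpT p₀ p.1 : ℂ) * (Complex.exp p.2 - ((hpT p₀ p.1 : ℂ))⁻¹) := by
      rw [mul_sub, mul_inv_cancel₀ h1]
    rw [h2, mul_comm ((hpT p₀ p.1 : ℂ)) (Complex.exp p.2 - ((hpT p₀ p.1 : ℂ))⁻¹), ← div_div,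
      div_eq_mul_inv ((1 - hpP p₀ p.1 p.2) / _) (hpT p₀ p.1 : ℂ), mul_comm]
  have hg : Tendsto (fun p : ℕ × ℂ => (1 - hpP p₀ p.1 p.2) /
      ((hpT p₀ p.1 : ℂ) * Complex.exp p.2 - 1)) (atTop ×ˢ 𝓝 μ) (𝓝 0) := by
    have h1 := hTc.mul hq
    rw [zero_mul] at h1
    exact h1.congr (fun p => (hrw p).symm)
  have hk : Tendsto (fun p : ℕ × ℂ => ((hpk p₀ p.1 : ℂ)) * ((hpT p₀ p.1 : ℂ))⁻¹)
      (atTop ×ˢ 𝓝 μ) (𝓝 1) := by
    have h1 := (Complex.continuous_ofReal.tendsto 1).comp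
      ((tendsto_nat_floor_div_atTop (R := ℝ)).comp hT)
    rw [Complex.ofReal_one] at h1
    refine h1.congr (fun p => ?_)
    simp [Function.comp, hpk, div_eq_mul_inv]
  have hN : Tendsto (fun p : ℕ × ℂ => ((hpk p₀ p.1 : ℂ)) * ((1 - hpP p₀ p.1 p.2) /
      ((hpT p₀ p.1 : ℂ) * Complex.exp p.2 - 1))) (atTop ×ˢ 𝓝 μ)
      (𝓝 ((1 - p₀) / Complex.exp μ)) := by
    have h1 := hk.mul hq
    rw [one_mul] at h1
    refine h1.congr (fun p => ?_)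
    rw [hrw]; ring
  have hfin := (tendsto_one_add_pow hg hN).sub hP
  rw [Complex.exp_neg, ← div_eq_mul_inv]
  exact hfin

theorem hardP {p₀ : ℂ} (h : 1 < ‖p₀‖) {ε : ℝ} (hε : 0 < ε) :
    ∃ (p : ℂ) (n k : ℕ), ‖p - p₀‖ < ε ∧ 1 ≤ k ∧ p ^ (n + 1) ≠ 1 ∧
      (1 + (1 - p) / (p ^ (n + 1) - 1)) ^ k = p := by
  have hp0 : p₀ ≠ 0 := by
    rintro rfl; simp at h; linarith
  have hp1 : p₀ ≠ 1 := by
    rintro rfl; simp at h
  set L : ℂ := Complex.log p₀ with hL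
  have hexpL : Complex.exp L = p₀ := Complex.exp_log hp0
  have hL0 : L ≠ 0 := by
    intro h0
    rw [h0, Complex.exp_zero] at hexpL
    exact hp1 hexpL.symm
  have hquot : (1 - p₀) / L ≠ 0 := div_ne_zero (sub_ne_zero.mpr (Ne.symm hp1)) hL0
  set μ₀ : ℂ := Complex.log ((1 - p₀) / L) with hμ₀
  have hexpμ : Complex.exp μ₀ = (1 - p₀) / L := Complex.exp_log hquot
  have hzero : (1 - p₀) * Complex.exp (-μ₀) = L := by
    rw [Complex.exp_neg, hexpμ]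
    have : (1 - p₀) ≠ 0 := sub_ne_zero.mpr (Ne.symm hp1)
    field_simp
  set g : ℂ → ℂ := fun μ => Complex.exp ((1 - p₀) * Complex.exp (-μ)) - p₀ with hg
  have hgd : Differentiable ℂ g := by
    intro μ
    have h1 : DifferentiableAt ℂ (fun μ : ℂ => (1 - p₀) * Complex.exp (-μ)) μ :=
      ((differentiableAt_id.neg).cexp).const_mul _
    exact h1.cexp.sub_const _
  have hg0 : g μ₀ = 0 := by
    rw [hg]; simp only; rw [hzero, hexpL, sub_self]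
  have hgne : ∃ z, g z ≠ 0 := by
    refine ⟨μ₀ + Real.pi * Complex.I, ?_⟩
    intro h0
    have h1 : (1 - p₀) * Complex.exp (-(μ₀ + Real.pi * Complex.I)) = -L := by
      have h2 : -(μ₀ + Real.pi * Complex.I) = -μ₀ + -(Real.pi * Complex.I) := by ring
      rw [h2, Complex.exp_add, Complex.exp_neg (Real.pi * Complex.I), Complex.exp_pi_mul_I]
      rw [← mul_assoc, hzero]
      norm_num
    rw [hg] at h0
    simp only at h0
    rw [h1, Complex.exp_neg, hexpL, sub_eq_zero] at h0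
    have h2 := congrArg norm h0
    rw [norm_inv] at h2
    have h3 : ‖p₀‖⁻¹ < 1 := inv_lt_one_of_one_lt₀ h
    linarith
  -- large n: T exp(Re μ) > 1
  have hTbig : ∀ᶠ n in atTop, Real.exp (1 - μ₀.re) < hpT p₀ n :=
    (hpT_tendsto h).eventually_gt_atTop _
  have hne1 : ∀ᶠ n in atTop, ∀ μ : ℂ, ‖μ - μ₀‖ < 1 → (hpT p₀ n : ℂ) * Complex.exp μ ≠ 1 := by
    filter_upwards [hTbig] with n hn μ hμ h1
    have h2 := congrArg norm h1
    have hTp : 0 < hpT p₀ n := pow_pos (by linarith) _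
    rw [norm_mul, Complex.norm_real, Real.norm_eq_abs, abs_of_pos hTp, Complex.norm_exp,
      norm_one] at h2
    have h3 : μ₀.re - 1 < μ.re := by
      have := Complex.abs_re_le_norm (μ - μ₀)
      rw [Complex.sub_re] at this
      have := (abs_lt.mp (lt_of_le_of_lt this hμ)).1
      linarith
    have h4 : Real.exp (μ₀.re - 1) < Real.exp μ.re := Real.exp_lt_exp.mpr h3
    have h5 : Real.exp (1 - μ₀.re) * Real.exp (μ₀.re - 1) = 1 := by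
      rw [← Real.exp_add]; simp
    have h6 : 0 < Real.exp (μ₀.re - 1) := Real.exp_pos _
    nlinarith [Real.exp_pos μ.re, Real.exp_pos (1 - μ₀.re)]
  have hdiff : ∀ᶠ n in atTop, DifferentiableOn ℂ (hpf p₀ n) (Metric.ball μ₀ 1) := by
    filter_upwards [hne1] with n hn μ hμ
    rw [Metric.mem_ball, dist_eq_norm] at hμ
    apply DifferentiableAt.differentiableWithinAt
    have hP : DifferentiableAt ℂ (fun μ => hpP p₀ n μ) μ := by
      unfold hpP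
      exact (((differentiableAt_id.add_const _).div_const _).cexp).const_mul _
    have hden : DifferentiableAt ℂ (fun μ : ℂ => (hpT p₀ n : ℂ) * Complex.exp μ - 1) μ :=
      ((differentiableAt_id.cexp).const_mul _).sub_const _
    have h1 : DifferentiableAt ℂ (fun μ : ℂ => 1 + (1 - hpP p₀ n μ) /
        ((hpT p₀ n : ℂ) * Complex.exp μ - 1)) μ :=
      ((hP.const_sub 1).div hden (sub_ne_zero.mpr (hn μ hμ))).const_add 1
    exact (h1.pow _).sub hP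
  have hhur := hurwitz (f := hpf p₀) (g := g) (c := μ₀) one_pos hdiff hgd hg0 hgne
    (fun z _ => hpf_tendsto h z) one_pos
  -- closeness
  have hcont : Tendsto (fun w : ℂ => p₀ * Complex.exp w) (𝓝 0) (𝓝 p₀) := by
    have := (Complex.continuous_exp.tendsto 0).const_mul p₀
    rwa [Complex.exp_zero, mul_one] at this
  obtain ⟨δ, hδ, hclose⟩ := Metric.eventually_nhds_iff.mp
    (hcont.eventually (Metric.ball_mem_nhds p₀ hε))
  have hsmall : ∀ᶠ n : ℕ in atTop, (‖μ₀‖ + 1 + Real.pi) / ((n : ℝ) + 1) < δ := by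
    have h1 := (tendsto_one_div_add_atTop_nhds_zero_nat (𝕜 := ℝ)).const_mul (‖μ₀‖ + 1 + Real.pi)
    rw [mul_zero] at h1
    filter_upwards [h1.eventually (gt_mem_nhds hδ)] with n hn
    rwa [mul_one_div] at hn
  have hk1 : ∀ᶠ n in atTop, 1 ≤ hpT p₀ n := (hpT_tendsto h).eventually_ge_atTop 1
  obtain ⟨n, ⟨μ, hμ, hfz⟩, hn1, hsm, hkk⟩ := (hhur.and (hne1.and (hsmall.and hk1))).exists
  refine ⟨hpP p₀ n μ, n, hpk p₀ n, ?_, ?_, ?_, ?_⟩
  · have h1 : ‖(μ + hpPsi p₀ n * Complex.I) / ((n : ℂ) + 1)‖ < δ := by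
      have hnc : ‖(n : ℂ) + 1‖ = (n : ℝ) + 1 := by
        have : (n : ℂ) + 1 = (((n : ℝ) + 1 : ℝ) : ℂ) := by push_cast; ring
        rw [this, Complex.norm_real, Real.norm_eq_abs, abs_of_pos (by positivity)]
      rw [norm_div, hnc]
      refine lt_of_le_of_lt ?_ hsm
      have h2 : ‖μ + hpPsi p₀ n * Complex.I‖ ≤ ‖μ₀‖ + 1 + Real.pi := by
        have h3 := norm_add_le μ (hpPsi p₀ n * Complex.I)
        rw [norm_mul, Complex.norm_I, mul_one, Complex.norm_real, Real.norm_eq_abs] at h3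
        have h4 := hpPsi_le p₀ n
        have h5 : ‖μ‖ ≤ ‖μ - μ₀‖ + ‖μ₀‖ := by
          have := norm_add_le (μ - μ₀) μ₀
          simpa using this
        linarith
      gcongr
    have h2 := hclose (by rw [dist_zero_right]; exact h1)
    rw [dist_eq_norm] at h2
    exact h2
  · unfold hpk
    exact (Nat.one_le_floor_iff _).mpr hkk
  · rw [hpP_pow]
    exact hn1 μ hμ
  · rw [hpP_pow]
    unfold hpf at hfz
    exact sub_eq_zero.mp hfz

end Pool.Agent.NZF
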