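import Pool.Agent.NZF.CaseW
import Pool.Agent.NZF.Root

/-!
PLAN (NZF-HardW). Take d from caseW_zeros. For m put l m := ceil(1/|Y0|^m) (tends to infinity), b m := 2 d - d^2 with
d = d_(l m). Since l d_l -> 2 pi i, |b m| * l m -> 4 pi and |Y0|^m * l m -> 1, so |b m| / |Y0|^m -> 4 pi; hence b m <> 0 and
|log(|b m|/|Y0|^m)| <= log(4 pi) + 1 eventually: root_approx gives Y m -> Y0 with Y m ^ m = b m; combine with the eventual
statement of caseW_zeros composed with l m -> infinity (Tendsto.eventually), pick one large m.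
-/

set_option autoImplicit false

namespace Pool.Agent.NZF

open Filter Topology

private theorem hardW_ceil {r : ℝ} (h0 : 0 < r) (h1 : r < 1) :
    Tendsto (fun m : ℕ => ⌈1 / r ^ m⌉₊) atTop atTop ∧
      Tendsto (fun m : ℕ => r ^ m * (⌈1 / r ^ m⌉₊ : ℝ)) atTop (𝓝 1) := by
  have hr : Tendsto (fun m : ℕ => r ^ m) atTop (𝓝 0) := tendsto_pow_atTop_nhds_zero_of_lt_one h0.le h1
  constructor
  · have h2 : Tendsto (fun m : ℕ => 1 / r ^ m) atTop atTop := by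
      have h3 : Tendsto (fun m : ℕ => (r⁻¹) ^ m) atTop atTop :=
        tendsto_pow_atTop_atTop_of_one_lt ((one_lt_inv₀ h0).2 h1)
      refine h3.congr fun m => ?_
      rw [one_div, inv_pow]
    exact tendsto_nat_ceil_atTop.comp h2
  · have h4 : Tendsto (fun m : ℕ => 1 + r ^ m) atTop (𝓝 1) := by
      have h5 := hr.const_add (1 : ℝ)
      rwa [add_zero] at h5
    refine tendsto_of_tendsto_of_tendsto_of_le_of_le tendsto_const_nhds h4 (fun m => ?_)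
      (fun m => ?_)
    · have h5 : 0 < r ^ m := pow_pos h0 m
      have h6 : 1 / r ^ m ≤ (⌈1 / r ^ m⌉₊ : ℝ) := Nat.le_ceil _
      show 1 ≤ r ^ m * (⌈1 / r ^ m⌉₊ : ℝ)
      rw [div_le_iff₀ h5] at h6
      linarith
    · have h5 : 0 < r ^ m := pow_pos h0 m
      have h6 : (⌈1 / r ^ m⌉₊ : ℝ) < 1 / r ^ m + 1 := Nat.ceil_lt_add_one (by positivity)
      show r ^ m * (⌈1 / r ^ m⌉₊ : ℝ) ≤ 1 + r ^ m
      have h7 : r ^ m * (⌈1 / r ^ m⌉₊ : ℝ) ≤ r ^ m * (1 / r ^ m + 1) :=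
        mul_le_mul_of_nonneg_left h6.le h5.le
      have h8 : r ^ m * (1 / r ^ m + 1) = 1 + r ^ m := by
        field_simp
      linarith

theorem hardW {Y₀ : ℂ} (h0 : Y₀ ≠ 0) (h1 : ‖Y₀‖ < 1) {ε : ℝ} (hε : 0 < ε) :
    ∃ (Y : ℂ) (m l k : ℕ), ‖Y - Y₀‖ < ε ∧ 1 ≤ l ∧ 1 ≤ k ∧
      2 * (W (Y ^ m) l - 1) ^ k = (W (Y ^ m) l - 2) ^ k := by
  obtain ⟨δ, hδ, hev⟩ := caseW_zeros
  have hr0 : 0 < ‖Y₀‖ := norm_pos_iff.2 h0
  obtain ⟨hl, hrl⟩ := hardW_ceil hr0 h1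
  set l : ℕ → ℕ := fun m => ⌈1 / ‖Y₀‖ ^ m⌉₊ with hldef
  have hδl : Tendsto (fun m : ℕ => ((l m : ℕ) : ℂ) * δ (l m)) atTop
      (𝓝 (2 * Real.pi * Complex.I)) := hδ.comp hl
  have hinv : Tendsto (fun m : ℕ => (((l m : ℕ) : ℂ))⁻¹) atTop (𝓝 0) := by
    have h2 : Tendsto (fun n : ℕ => ((n : ℂ))⁻¹) atTop (𝓝 0) :=
      tendsto_inv_atTop_nhds_zero_nat
    exact h2.comp hl
  have hl1 : ∀ᶠ m : ℕ in atTop, 1 ≤ l m := hl.eventually_ge_atTop 1
  have hd0 : Tendsto (fun m : ℕ => δ (l m)) atTop (𝓝 0) := by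
    have h2 := hinv.mul hδl
    rw [zero_mul] at h2
    refine h2.congr' ?_
    filter_upwards [hl1] with m hm
    have h3 : ((l m : ℕ) : ℂ) ≠ 0 := by
      have : (l m) ≠ 0 := by omega
      exact_mod_cast this
    rw [← mul_assoc, inv_mul_cancel₀ h3, one_mul]
  set b : ℕ → ℂ := fun m => 2 * δ (l m) - δ (l m) ^ 2 with hb
  have hlb : Tendsto (fun m : ℕ => ((l m : ℕ) : ℂ) * b m) atTop (𝓝 (4 * Real.pi * Complex.I)) := by
    have h2 := (hδl.const_mul 2).sub (hδl.mul hd0)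
    have h3 : (2 : ℂ) * (2 * Real.pi * Complex.I) - 2 * Real.pi * Complex.I * 0 =
        4 * Real.pi * Complex.I := by ring
    rw [h3] at h2
    refine h2.congr fun m => ?_
    rw [hb]
    ring
  have hnorm : Tendsto (fun m : ℕ => ‖b m‖ / ‖Y₀‖ ^ m) atTop (𝓝 (4 * Real.pi)) := by
    have h2 := (hlb.norm).div hrl one_ne_zero
    have h3 : ‖(4 * Real.pi * Complex.I : ℂ)‖ / 1 = 4 * Real.pi := by
      rw [div_one, norm_mul, norm_mul, Complex.norm_I, Complex.norm_real, Real.norm_eq_abs,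
        abs_of_pos Real.pi_pos]
      norm_num
    rw [h3] at h2
    refine h2.congr' ?_
    filter_upwards [hl1] with m hm
    have h4 : ((l m : ℕ) : ℝ) ≠ 0 := by
      have : (l m) ≠ 0 := by omega
      exact_mod_cast this
    have h5 : ‖Y₀‖ ^ m ≠ 0 := (pow_pos hr0 m).ne'
    show ‖((l m : ℕ) : ℂ) * b m‖ / (‖Y₀‖ ^ m * ((l m : ℕ) : ℝ)) = ‖b m‖ / ‖Y₀‖ ^ m
    rw [norm_mul, Complex.norm_natCast]
    field_simp
  have h4pi : (0 : ℝ) < 4 * Real.pi := by positivity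
  have hlog : Tendsto (fun m : ℕ => |Real.log (‖b m‖ / ‖Y₀‖ ^ m)|) atTop
      (𝓝 |Real.log (4 * Real.pi)|) := ((Real.continuousAt_log h4pi.ne').tendsto.comp hnorm).abs
  have hβ : ∀ᶠ m : ℕ in atTop, b m ≠ 0 ∧
      |Real.log (‖b m‖ / ‖Y₀‖ ^ m)| ≤ |Real.log (4 * Real.pi)| + 1 := by
    filter_upwards [hnorm.eventually_ne h4pi.ne', hlog.eventually_le_const (lt_add_one _)]
      with m hm1 hm2
    refine ⟨fun h => hm1 ?_, hm2⟩
    rw [h, norm_zero, zero_div]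
  obtain ⟨Y, hY, hYm⟩ := root_approx h0 b _ hβ
  have hclose : ∀ᶠ m : ℕ in atTop, ‖Y m - Y₀‖ < ε := by
    have h2 := Metric.tendsto_nhds.1 hY ε hε
    filter_upwards [h2] with m hm
    rwa [dist_eq_norm] at hm
  obtain ⟨m, hm1, hm2, hm3, hm4⟩ :=
    (hclose.and (hYm.and (hl1.and (hl.eventually hev)))).exists
  obtain ⟨k, hk1, hk2⟩ := hm4
  refine ⟨Y m, m, l m, k, hm1, hm3, hk1, ?_⟩
  rw [hm2]
  exact hk2

end Pool.Agent.NZF
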