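import Pool.Agent.NZF.Closed
import Pool.Agent.NZF.Hur

/-!
PLAN (NZF-SoftP). Write Y = (x+y)/(x+1), q = (x-1)(y-1), f K y := (DD (Y^K) q n + (Y^K - 1)^(n+1))^k + (q-1) DD (Y^K) q n ^ k,
g y := the same with Y^K replaced by 0 (entire, polynomial in y). Joint limit on the set |Y| < 1 (open, contains y1, take a
ball around y1): Y^K -> 0 jointly, DD continuous (finite sum of powers). g y1 = 0: q_mul_DD with h = 0:
q DD 0 q n = (q-1)^(n+1) - (-1)^(n+1) = (-1)^(n+1) (p^(n+1) - 1), p = 1 - q; hp gives p^(n+1) <> 1, so q <> 0, DD <> 0 and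
(DD + (-1)^(n+1)) / DD = 1 + q/(p^(n+1) - 1); h says its k-th power is p = -(q-1). g 1 <> 0: q = 0, DD 0 0 n = (n+1)(-1)^n
(DD_zero), g 1 = (-1)^(nk) (n^k - (n+1)^k) <> 0 as k >= 1. Apply hurwitz, intersect with K >= 1.
-/

set_option autoImplicit false

namespace Pool.Agent.NZF

open Filter Topology

private theorem softP_DD {a b : ℂ → ℂ} (ha : Differentiable ℂ a) (hb : Differentiable ℂ b)
    (n : ℕ) : Differentiable ℂ (fun y => DD (a y) (b y) n) := by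
  unfold DD
  fun_prop

private def softP_F (n k : ℕ) (w : ℂ × ℂ) : ℂ :=
  (DD w.1 w.2 n + (w.1 - 1) ^ (n + 1)) ^ k + (w.2 - 1) * DD w.1 w.2 n ^ k

private theorem softP_cont (n k : ℕ) : Continuous (softP_F n k) := by
  unfold softP_F DD
  fun_prop

private theorem softP_diff {a b : ℂ → ℂ} (ha : Differentiable ℂ a) (hb : Differentiable ℂ b)
    (n k : ℕ) : Differentiable ℂ (fun y => softP_F n k (a y, b y)) := by
  unfold softP_F
  have h1 := softP_DD ha hb n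
  exact ((h1.add ((ha.sub_const 1).pow (n + 1))).pow k).add ((hb.sub_const 1).mul (h1.pow k))

private theorem softP_zero {q : ℂ} {n k : ℕ} (hp : (1 - q) ^ (n + 1) ≠ 1)
    (h : (1 + q / ((1 - q) ^ (n + 1) - 1)) ^ k = 1 - q) :
    (DD 0 q n + (0 - 1) ^ (n + 1)) ^ k + (q - 1) * DD 0 q n ^ k = 0 := by
  have hq : q ≠ 0 := by
    rintro rfl
    apply hp
    simp
  have hs : ((-1 : ℂ) ^ (n + 1)) * (-1) ^ (n + 1) = 1 := by
    rw [← mul_pow]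
    simp
  have h1 := q_mul_DD 0 q n
  have h2 : (q + 0 - 1) ^ (n + 1) = (-1 : ℂ) ^ (n + 1) * (1 - q) ^ (n + 1) := by
    rw [← mul_pow]
    congr 1
    ring
  rw [h2, zero_sub] at h1
  have h3 : (1 - q) ^ (n + 1) - 1 = (-1 : ℂ) ^ (n + 1) * (q * DD 0 q n) := by
    rw [h1]
    linear_combination (-(1 - q) ^ (n + 1) + 1) * hs
  have hD : DD 0 q n ≠ 0 := by
    intro h4
    rw [h4, mul_zero, mul_zero] at h3
    exact hp (sub_eq_zero.1 h3)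
  have hs0 : (-1 : ℂ) ^ (n + 1) ≠ 0 := pow_ne_zero _ (by norm_num)
  have h5 : q / ((1 - q) ^ (n + 1) - 1) = (-1 : ℂ) ^ (n + 1) / DD 0 q n := by
    rw [h3, div_eq_div_iff (mul_ne_zero hs0 (mul_ne_zero hq hD)) hD]
    linear_combination (-(q * DD 0 q n)) * hs
  have h6 : (DD 0 q n + (0 - 1) ^ (n + 1)) ^ k = (1 - q) * DD 0 q n ^ k := by
    rw [← h, ← mul_pow, h5, zero_sub]
    congr 1
    field_simp
  rw [h6]
  ring

private theorem softP_one {n k : ℕ} (hk : 1 ≤ k) :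
    (DD 0 0 n + (0 - 1) ^ (n + 1)) ^ k + ((0 : ℂ) - 1) * DD 0 0 n ^ k ≠ 0 := by
  rw [DD_zero]
  have h1 : ((n : ℂ) + 1) * (0 - 1) ^ n + (0 - 1) ^ (n + 1) = (-1) ^ n * n := by
    rw [zero_sub, pow_succ]
    ring
  have h2 : ((n : ℂ) + 1) * (0 - 1) ^ n = (-1) ^ n * (n + 1) := by
    rw [zero_sub]
    ring
  rw [h1, h2, mul_pow, mul_pow]
  have h3 : ((-1 : ℂ) ^ n) ^ k * (n : ℂ) ^ k + (0 - 1) * (((-1) ^ n) ^ k * ((n : ℂ) + 1) ^ k) =
      ((-1 : ℂ) ^ n) ^ k * ((n : ℂ) ^ k - ((n : ℂ) + 1) ^ k) := by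
    ring
  rw [h3]
  refine mul_ne_zero (pow_ne_zero _ (pow_ne_zero _ (by norm_num))) ?_
  intro h4
  have h5 : ((n ^ k : ℕ) : ℂ) = (((n + 1) ^ k : ℕ) : ℂ) := by
    push_cast
    exact sub_eq_zero.1 h4
  have h6 : n ^ k = (n + 1) ^ k := by exact_mod_cast h5
  have h7 : n ^ k < (n + 1) ^ k := Nat.pow_lt_pow_left (Nat.lt_succ_self n) (by omega)
  omega

private theorem softP_pow {Yf : ℂ → ℂ} (hY : Continuous Yf) {z : ℂ} (hz : ‖Yf z‖ < 1) :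
    Tendsto (fun p : ℕ × ℂ => (Yf p.2) ^ p.1) (atTop ×ˢ 𝓝 z) (𝓝 0) := by
  obtain ⟨ρ, h1, h2⟩ := exists_between hz
  have hρ0 : 0 ≤ ρ := le_trans (norm_nonneg _) h1.le
  have h3 : Tendsto (fun p : ℕ × ℂ => ρ ^ p.1) (atTop ×ˢ 𝓝 z) (𝓝 0) :=
    (tendsto_pow_atTop_nhds_zero_of_lt_one hρ0 h2).comp tendsto_fst
  refine squeeze_zero_norm' ?_ h3
  have h4 : ∀ᶠ y in 𝓝 z, ‖Yf y‖ < ρ := (hY.norm.tendsto z).eventually_lt_const h1
  filter_upwards [tendsto_snd.eventually h4] with p hp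
  rw [norm_pow]
  exact pow_le_pow_left₀ (norm_nonneg _) hp.le _

/-- From hard edges to `K` parallel copies, `x > 1`. -/
theorem softP {x : ℝ} (hx : 1 < x) {y₁ : ℂ} {n k : ℕ} (hY : ‖((x : ℂ) + y₁) / (x + 1)‖ < 1)
    (hk : 1 ≤ k) (hp : (1 - (x - 1) * (y₁ - 1)) ^ (n + 1) ≠ 1)
    (h : (1 + ((x : ℂ) - 1) * (y₁ - 1) / ((1 - ((x : ℂ) - 1) * (y₁ - 1)) ^ (n + 1) - 1)) ^ k =
      1 - ((x : ℂ) - 1) * (y₁ - 1))
    {ε : ℝ} (hε : 0 < ε) :
    ∃ (y : ℂ) (K : ℕ), ‖y - y₁‖ < ε ∧ 1 ≤ K ∧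
      (DD ((((x : ℂ) + y) / (x + 1)) ^ K) (((x : ℂ) - 1) * (y - 1)) n
          + ((((x : ℂ) + y) / (x + 1)) ^ K - 1) ^ (n + 1)) ^ k
        + (((x : ℂ) - 1) * (y - 1) - 1) *
          DD ((((x : ℂ) + y) / (x + 1)) ^ K) (((x : ℂ) - 1) * (y - 1)) n ^ k = 0 := by
  set Yf : ℂ → ℂ := fun y => ((x : ℂ) + y) / (x + 1) with hYf
  set qf : ℂ → ℂ := fun y => ((x : ℂ) - 1) * (y - 1) with hqf
  have hYd : Differentiable ℂ Yf := by
    rw [hYf]
    fun_prop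
  have hqd : Differentiable ℂ qf := by
    rw [hqf]
    fun_prop
  obtain ⟨R, hR, hball⟩ : ∃ R > 0, ∀ z ∈ Metric.ball y₁ R, ‖Yf z‖ < 1 := by
    have h1 : ∀ᶠ z in 𝓝 y₁, ‖Yf z‖ < 1 := (hYd.continuous.norm.tendsto y₁).eventually_lt_const hY
    obtain ⟨R, hR, h2⟩ := Metric.eventually_nhds_iff_ball.1 h1
    exact ⟨R, hR, h2⟩
  have hfin := hurwitz (f := fun K y => softP_F n k (Yf y ^ K, qf y))
    (g := fun y => softP_F n k (0, qf y))
    (c := y₁) hR ?_ ?_ ?_ ?_ ?_ hε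
  · obtain ⟨K, ⟨y, hy1, hy2⟩, hK⟩ := (hfin.and (eventually_ge_atTop 1)).exists
    exact ⟨y, K, hy1, hK, hy2⟩
  · refine Eventually.of_forall (fun K => ?_)
    exact (softP_diff (hYd.pow K) hqd n k).differentiableOn
  · exact softP_diff (differentiable_const (0 : ℂ)) hqd n k
  · exact softP_zero hp h
  · refine ⟨1, ?_⟩
    have h1 : qf 1 = 0 := by
      rw [hqf]
      simp
    simp only [h1]
    exact softP_one hk
  · intro z hz
    have h1 := softP_pow hYd.continuous (hball z hz)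
    have h2 : Tendsto (fun p : ℕ × ℂ => qf p.2) (atTop ×ˢ 𝓝 z) (𝓝 (qf z)) :=
      (hqd.continuous.tendsto z).comp tendsto_snd
    have h3 := h1.prodMk_nhds h2
    exact ((softP_cont n k).tendsto (0, qf z)).comp h3

end Pool.Agent.NZF
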