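import Pool.Agent.NZF.Closed
import Pool.Agent.NZF.Hur

/-!
# NZF-SoftW: from hard edges to parallel copies, `q = 0`

The function `Y ↦ totG 1 (Y^K) 1 (Y^m) 1 (Y^K) 1 (Y^K) 0 k n` tends locally uniformly on the unit disc to
`Y ↦ totG 1 0 1 (Y^m) 1 0 1 0 0 k n`, which vanishes at `Y₁` (`totG_hard`) but not at `0`; then `hurwitz`.
-/

set_option autoImplicit false

namespace Pool.Agent.NZF

open Filter Topology

private theorem SoftW_stA (n : ℕ) : Differentiable ℂ (fun p : ℂ × ℂ => stA 1 p.1 1 p.2 (0 : ℂ) n) := by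
  induction n with
  | zero =>
    show Differentiable ℂ (fun p : ℂ × ℂ => ((1 : ℂ), p.1, (1 : ℂ)))
    fun_prop
  | succ n ih =>
    have h1 := ih.fst
    have h2 := ih.snd.fst
    have h3 := ih.snd.snd
    simp only [stA]
    refine Differentiable.prodMk ?_ (Differentiable.prodMk ?_ ?_)
    · exact (((differentiable_const _).mul (((differentiable_snd.mul h1).add ((differentiable_const _).mul h2)).add
        ((differentiable_const _).mul h3))).add (((differentiable_fst.sub_const _).mul differentiable_snd).mul h1))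
    · exact (((differentiable_const _).mul (((differentiable_snd.mul h1).add ((differentiable_const _).mul h2)).add
        ((differentiable_const _).mul h3))).add (((differentiable_fst.sub_const _).mul (differentiable_const _)).mul h2))
    · exact (((differentiable_const _).mul (((differentiable_snd.mul h1).add ((differentiable_const _).mul h2)).add
        ((differentiable_const _).mul h3))).add (((differentiable_fst.sub_const _).mul (differentiable_const _)).mul h3))

private theorem SoftW_stZ (n : ℕ) : Differentiable ℂ (fun p : ℂ × ℂ => stZ 1 p.1 1 p.2 (0 : ℂ) n) := by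
  induction n with
  | zero =>
    show Differentiable ℂ (fun p : ℂ × ℂ => (p.1, (1 : ℂ)))
    fun_prop
  | succ n ih =>
    have h1 := ih.fst
    have h2 := ih.snd
    simp only [stZ]
    refine Differentiable.prodMk ?_ ?_
    · exact (((differentiable_const _).mul ((differentiable_snd.mul h1).add ((differentiable_const _).mul h2))).add
        (((differentiable_fst.sub_const _).mul differentiable_snd).mul h1))
    · exact (((differentiable_const _).mul ((differentiable_snd.mul h1).add ((differentiable_const _).mul h2))).add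
        (((differentiable_fst.sub_const _).mul (differentiable_const _)).mul h2))

private theorem SoftW_totG (k n : ℕ) :
    Differentiable ℂ (fun p : ℂ × ℂ => totG 1 p.1 1 p.2 1 p.1 1 p.1 (0 : ℂ) k n) := by
  have a1 := (SoftW_stA n).fst
  have a2 := (SoftW_stA n).snd.fst
  have a3 := (SoftW_stA n).snd.snd
  have z1 := (SoftW_stZ n).fst
  have z2 := (SoftW_stZ n).snd
  simp only [totG]
  refine ((((((differentiable_fst.mul differentiable_fst).mul (z1.pow k))).add ?_).add ?_).add ?_).add ?_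
  · exact (((differentiable_const _).mul differentiable_fst).mul (differentiable_const _)).mul (z2.pow k)
  · exact (((differentiable_const _).mul (differentiable_const _)).mul differentiable_fst).mul (a1.pow k)
  · exact (differentiable_const _).mul (a2.pow k)
  · exact (differentiable_const _).mul (a3.pow k)

private theorem SoftW_W0 (j : ℕ) : W 0 j = 2 ^ j := by
  induction j using Nat.twoStepInduction with
  | zero => simp [W]
  | one => simp [W]
  | more j h1 h2 => rw [W, h2]; ring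

private theorem SoftW_W1 (j : ℕ) : W 1 j = j + 1 := by
  induction j using Nat.twoStepInduction with
  | zero => simp [W]
  | one => simp [W]; norm_num
  | more j h1 h2 => rw [W, h2, h1]; push_cast; ring

private theorem SoftW_ne {w : ℝ} {k : ℕ} (_hk : 1 ≤ k) (hw : 2 ≤ w) :
    2 * ((w : ℂ) - 1) ^ k - ((w : ℂ) - 2) ^ k ≠ 0 := by
  have h1 : (w - 2) ^ k ≤ (w - 1) ^ k := pow_le_pow_left₀ (by linarith) (by linarith) k
  have h2 : 0 < (w - 1) ^ k := pow_pos (by linarith) k
  have h3 : 2 * (w - 1) ^ k - (w - 2) ^ k ≠ 0 := by linarith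
  intro h
  apply h3
  have : ((2 * (w - 1) ^ k - (w - 2) ^ k : ℝ) : ℂ) = 0 := by push_cast; exact h
  exact_mod_cast this

private theorem SoftW_W_zero_pow (m n : ℕ) : ∃ w : ℝ, 2 ≤ w ∧ W ((0 : ℂ) ^ m) (n + 1) = (w : ℂ) := by
  rcases Nat.eq_zero_or_pos m with rfl | hm
  · refine ⟨(n : ℝ) + 2, by have : (0 : ℝ) ≤ n := Nat.cast_nonneg n; linarith, ?_⟩
    rw [pow_zero, SoftW_W1]; push_cast; ring
  · refine ⟨2 ^ (n + 1), ?_, ?_⟩
    · calc (2 : ℝ) = 2 ^ 1 := by norm_num
        _ ≤ 2 ^ (n + 1) := pow_le_pow_right₀ (by norm_num) (by omega)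
    · rw [zero_pow (by omega), SoftW_W0]; push_cast; rfl

private theorem SoftW_pow {z : ℂ} (hz : ‖z‖ < 1) :
    Tendsto (fun p : ℕ × ℂ => p.2 ^ p.1) (atTop ×ˢ 𝓝 z) (𝓝 0) := by
  obtain ⟨ρ, h1, h2⟩ := exists_between hz
  have hρ : 0 ≤ ρ := (norm_nonneg z).trans h1.le
  refine squeeze_zero_norm' (a := fun p : ℕ × ℂ => ρ ^ p.1) ?_ ?_
  · have h3 : ∀ᶠ w in 𝓝 z, ‖w‖ < ρ := continuous_norm.continuousAt.eventually (gt_mem_nhds h1)
    have h4 : ∀ᶠ p : ℕ × ℂ in atTop ×ˢ 𝓝 z, ‖p.2‖ < ρ := tendsto_snd.eventually h3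
    filter_upwards [h4] with p hp
    rw [norm_pow]
    exact pow_le_pow_left₀ (norm_nonneg _) hp.le _
  · exact (tendsto_pow_atTop_nhds_zero_of_lt_one hρ h2).comp tendsto_fst

/-- From hard edges to `K` parallel copies, `q = 0`. -/
theorem softW {Y₁ : ℂ} {m n k : ℕ} (hY : ‖Y₁‖ < 1) (hk : 1 ≤ k)
    (h : 2 * (W (Y₁ ^ m) (n + 1) - 1) ^ k = (W (Y₁ ^ m) (n + 1) - 2) ^ k)
    {ε : ℝ} (hε : 0 < ε) :
    ∃ (Y : ℂ) (K : ℕ), ‖Y - Y₁‖ < ε ∧ 1 ≤ K ∧
      totG 1 (Y ^ K) 1 (Y ^ m) 1 (Y ^ K) 1 (Y ^ K) 0 k n = 0 := by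
  have hdF := SoftW_totG k n
  set F : ℂ × ℂ → ℂ := fun p => totG 1 p.1 1 p.2 1 p.1 1 p.1 (0 : ℂ) k n with hF
  have hR : 0 < 1 - ‖Y₁‖ := by linarith
  have hf : ∀ᶠ K : ℕ in atTop, DifferentiableOn ℂ (fun Y : ℂ => F (Y ^ K, Y ^ m)) (Metric.ball Y₁ (1 - ‖Y₁‖)) := by
    refine Eventually.of_forall (fun K => ?_)
    have h1 : Differentiable ℂ (fun Y : ℂ => (Y ^ K, Y ^ m)) := (differentiable_pow K).prodMk (differentiable_pow m)
    exact (hdF.comp h1).differentiableOn
  have hg : Differentiable ℂ (fun Y : ℂ => F (0, Y ^ m)) := by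
    have h1 : Differentiable ℂ (fun Y : ℂ => ((0 : ℂ), Y ^ m)) := (differentiable_const _).prodMk (differentiable_pow m)
    exact hdF.comp h1
  have hgv : ∀ Y : ℂ, F (0, Y ^ m) =
      ((-1) ^ n) ^ k * (2 * (W (Y ^ m) (n + 1) - 1) ^ k - (W (Y ^ m) (n + 1) - 2) ^ k) :=
    fun Y => totG_hard (Y ^ m) k n
  have hc : (fun Y : ℂ => F (0, Y ^ m)) Y₁ = 0 := by
    show F (0, Y₁ ^ m) = 0
    rw [hgv, h, sub_self, mul_zero]
  have hne : ∃ z : ℂ, (fun Y : ℂ => F (0, Y ^ m)) z ≠ 0 := by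
    obtain ⟨w, hw, hW⟩ := SoftW_W_zero_pow m n
    refine ⟨0, ?_⟩
    show F (0, (0 : ℂ) ^ m) ≠ 0
    rw [hgv, hW]
    exact mul_ne_zero (pow_ne_zero _ (pow_ne_zero _ (by norm_num))) (SoftW_ne hk hw)
  have hlim : ∀ z ∈ Metric.ball Y₁ (1 - ‖Y₁‖),
      Tendsto (fun p : ℕ × ℂ => (fun (K : ℕ) (Y : ℂ) => F (Y ^ K, Y ^ m)) p.1 p.2) (atTop ×ˢ 𝓝 z)
        (𝓝 ((fun Y : ℂ => F (0, Y ^ m)) z)) := by
    intro z hz
    have hz1 : ‖z‖ < 1 := by
      rw [Metric.mem_ball, dist_eq_norm] at hz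
      have h1 := norm_sub_norm_le z Y₁
      linarith
    have h1 : Tendsto (fun p : ℕ × ℂ => (p.2 ^ p.1, p.2 ^ m)) (atTop ×ˢ 𝓝 z) (𝓝 ((0 : ℂ), z ^ m)) := by
      rw [nhds_prod_eq]
      exact (SoftW_pow hz1).prodMk (((continuous_pow m).tendsto z).comp tendsto_snd)
    exact (hdF.continuous.tendsto ((0 : ℂ), z ^ m)).comp h1
  have hfin := hurwitz hR hf hg hc hne hlim hε
  obtain ⟨K, ⟨Y, hY1, hY2⟩, hK⟩ := (hfin.and (eventually_ge_atTop 1)).exists
  exact ⟨Y, K, hY1, hK, hY2⟩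

end Pool.Agent.NZF
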