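import Pool.Agent.NZF.Zero
import Pool.Agent.NZF.HardW
import Pool.Agent.NZF.SoftW
import Pool.Agent.NZF.HardP
import Pool.Agent.NZF.SoftP
import Pool.Agent.NZF.Cyc
import Pool.Agent.NZF.CycP

set_option autoImplicit false

namespace Pool.Agent.NZF

open Filter Topology

private theorem near_one {Y₀ : ℂ} (h : ¬ 1 < ‖Y₀‖) {ε : ℝ} (hε : 0 < ε) :
    ∃ Y : ℂ, ‖Y - Y₀‖ < ε ∧ Y ≠ 0 ∧ ‖Y‖ < 1 := by
  push Not at h
  by_cases h0 : Y₀ = 0
  · subst h0
    refine ⟨((min ε 1 / 2 : ℝ) : ℂ), ?_, ?_, ?_⟩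
    · have : 0 < min ε 1 := lt_min hε one_pos
      rw [sub_zero, Complex.norm_real, Real.norm_eq_abs, abs_of_pos (by positivity)]
      have := min_le_left ε 1
      linarith
    · have : 0 < min ε 1 := lt_min hε one_pos
      have h2 : (min ε 1 / 2 : ℝ) ≠ 0 := by positivity
      exact_mod_cast h2
    · have : 0 < min ε 1 := lt_min hε one_pos
      rw [Complex.norm_real, Real.norm_eq_abs, abs_of_pos (by positivity)]
      have := min_le_right ε 1
      linarith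
  · set t : ℝ := min ε 1 / 2 with ht
    have hm : 0 < min ε 1 := lt_min hε one_pos
    have ht0 : 0 < t := by positivity
    have ht1 : t ≤ 1 / 2 := by
      have := min_le_right ε 1
      rw [ht]; linarith
    have ht2 : t < ε := by
      have := min_le_left ε 1
      rw [ht]; linarith
    have hY0 : 0 < ‖Y₀‖ := norm_pos_iff.mpr h0
    refine ⟨((1 - t : ℝ) : ℂ) * Y₀, ?_, ?_, ?_⟩
    · have : ((1 - t : ℝ) : ℂ) * Y₀ - Y₀ = -((t : ℂ) * Y₀) := by push_cast; ring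
      rw [this, norm_neg, norm_mul, Complex.norm_real, Real.norm_eq_abs, abs_of_pos ht0]
      nlinarith
    · refine mul_ne_zero ?_ h0
      have : (1 - t : ℝ) ≠ 0 := by linarith
      exact_mod_cast this
    · rw [norm_mul, Complex.norm_real, Real.norm_eq_abs, abs_of_pos (by linarith)]
      nlinarith

/-- The line `x = 1`. -/
theorem main_one (y₀ : ℂ) {ε : ℝ} (hε : 0 < ε) :
    ∃ (k n K m m₁ m₂ : ℕ) (y : ℂ), (theta k n K m m₁ m₂).Connected ∧ ‖y - y₀‖ < ε ∧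
      tutte (theta k n K m m₁ m₂) 1 y = 0 := by
  have key : ∀ Y : ℂ, (1 + (2 * Y - 1)) / (1 + 1) = Y := fun Y => by ring
  have dist : ∀ Y : ℂ, ‖Y - (1 + y₀) / 2‖ < ε / 2 → ‖(2 * Y - 1) - y₀‖ < ε := by
    intro Y hY
    have : (2 * Y - 1) - y₀ = 2 * (Y - (1 + y₀) / 2) := by ring
    rw [this, norm_mul]
    have h2 : ‖(2 : ℂ)‖ = 2 := by simp
    rw [h2]; linarith
  by_cases h1 : 1 < ‖(1 + y₀) / 2‖
  · obtain ⟨Y, n, K, hY, hK, hY1, hz⟩ := cyc_zeros h1 (half_pos hε)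
    refine ⟨2, n, K, 0, 1, 0, 2 * Y - 1, theta_connected (by norm_num) hK (by norm_num),
      dist Y hY, ?_⟩
    refine tutte_zero (by norm_num) hK (by norm_num) (by norm_num) ?_ ?_
    · intro h
      exact hY1 (by linear_combination h / 2)
    · rw [key]
      simpa using hz
  · obtain ⟨Y', hY', hY'0, hY'1⟩ := near_one h1 (show (0 : ℝ) < ε / 8 by linarith)
    obtain ⟨Y₁, m, l, k, hd, hl, hk, hz⟩ := hardW hY'0 hY'1
      (show (0 : ℝ) < min (ε / 8) (1 - ‖Y'‖) by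
        exact lt_min (by linarith) (by linarith))
    have hY1n : ‖Y₁‖ < 1 := by
      have h3 : ‖Y₁‖ ≤ ‖Y₁ - Y'‖ + ‖Y'‖ := by
        have := norm_add_le (Y₁ - Y') Y'
        simpa using this
      have := lt_of_lt_of_le hd (min_le_right _ _)
      linarith
    obtain ⟨n, rfl⟩ : ∃ n, l = n + 1 := ⟨l - 1, by omega⟩
    obtain ⟨Y, K, hd2, hK, hz2⟩ := softW hY1n hk hz
      (show (0 : ℝ) < min (ε / 8) (1 - ‖Y₁‖) by exact lt_min (by linarith) (by linarith))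
    have hYn : ‖Y‖ < 1 := by
      have h3 : ‖Y‖ ≤ ‖Y - Y₁‖ + ‖Y₁‖ := by
        have := norm_add_le (Y - Y₁) Y₁
        simpa using this
      have := lt_of_lt_of_le hd2 (min_le_right _ _)
      linarith
    have hY1 : Y ≠ 1 := by
      rintro rfl
      simp at hYn
    have hfar : ‖Y - (1 + y₀) / 2‖ < ε / 2 := by
      have e1 := lt_of_lt_of_le hd2 (min_le_left _ _)
      have e2 := lt_of_lt_of_le hd (min_le_left _ _)
      have e3 : Y - (1 + y₀) / 2 = (Y - Y₁) + (Y₁ - Y') + (Y' - (1 + y₀) / 2) := by ring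
      rw [e3]
      have := norm_add₃_le (a := Y - Y₁) (b := Y₁ - Y') (c := Y' - (1 + y₀) / 2)
      linarith
    refine ⟨k, n, K, m, K, K, 2 * Y - 1, theta_connected hk hK hK, dist Y hfar, ?_⟩
    refine tutte_zero hk hK hK (by norm_num) ?_ ?_
    · intro h
      exact hY1 (by linear_combination h / 2)
    · rw [key]
      simpa using hz2

/-- `x > 1`, open disc. -/
theorem main_gt_open {x : ℝ} (hx : 1 < x) {y₀ : ℂ} (hy : ‖(x : ℂ) + y₀‖ < x + 1) {ε : ℝ}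
    (hε : 0 < ε) :
    ∃ (k n K m m₁ m₂ : ℕ) (y : ℂ), (theta k n K m m₁ m₂).Connected ∧ ‖y - y₀‖ < ε ∧
      tutte (theta k n K m m₁ m₂) x y = 0 := by
  have hx0 : (0 : ℝ) < x - 1 := by linarith
  have hxc : ((x : ℂ) - 1) ≠ 0 := by
    have : (x - 1 : ℝ) ≠ 0 := by linarith
    exact_mod_cast this
  have hx1 : ((x : ℂ) + 1) ≠ 0 := by
    have : (x + 1 : ℝ) ≠ 0 := by linarith
    exact_mod_cast this
  have hnx : ‖(x : ℂ) + 1‖ = x + 1 := by
    have : (x : ℂ) + 1 = ((x + 1 : ℝ) : ℂ) := by push_cast; ring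
    rw [this, Complex.norm_real, Real.norm_eq_abs, abs_of_pos (by linarith)]
  have hnx' : ‖(x : ℂ) - 1‖ = x - 1 := by
    have : (x : ℂ) - 1 = ((x - 1 : ℝ) : ℂ) := by push_cast; ring
    rw [this, Complex.norm_real, Real.norm_eq_abs, abs_of_pos (by linarith)]
  -- real part of y₀
  have hre : y₀.re < 1 := by
    have h1 := Complex.re_le_norm ((x : ℂ) + y₀)
    rw [Complex.add_re, Complex.ofReal_re] at h1
    linarith
  have hp0 : 1 < ‖1 - ((x : ℂ) - 1) * (y₀ - 1)‖ := by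
    have h1 := Complex.re_le_norm (1 - ((x : ℂ) - 1) * (y₀ - 1))
    have h2 : (1 - ((x : ℂ) - 1) * (y₀ - 1)).re = 1 + (x - 1) * (1 - y₀.re) := by
      simp [Complex.sub_re, Complex.mul_re]
      ring
    rw [h2] at h1
    have : 0 < (x - 1) * (1 - y₀.re) := mul_pos hx0 (by linarith)
    linarith
  set δ : ℝ := min (ε / 2) (x + 1 - ‖(x : ℂ) + y₀‖) with hδ
  have hδ0 : 0 < δ := lt_min (by linarith) (by linarith)
  obtain ⟨p, n, k, hpd, hk, hp1, hpe⟩ := hardP hp0 (mul_pos hx0 hδ0)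
  set y₁ : ℂ := 1 + (1 - p) / (x - 1) with hy1
  have hpy : 1 - ((x : ℂ) - 1) * (y₁ - 1) = p := by
    rw [hy1]; field_simp; ring
  have hy1d : ‖y₁ - y₀‖ < δ := by
    have e : y₁ - y₀ = -(p - (1 - ((x : ℂ) - 1) * (y₀ - 1))) / (x - 1) := by
      rw [hy1]; field_simp; ring
    rw [e, norm_div, norm_neg, hnx', div_lt_iff₀ hx0]
    linarith
  have hY1 : ‖((x : ℂ) + y₁) / (x + 1)‖ < 1 := by
    rw [norm_div, hnx, div_lt_one (by linarith)]
    have e : (x : ℂ) + y₁ = (x + y₀) + (y₁ - y₀) := by ring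
    rw [e]
    have h1 := norm_add_le ((x : ℂ) + y₀) (y₁ - y₀)
    have h2 := lt_of_lt_of_le hy1d (min_le_right _ _)
    linarith
  obtain ⟨y, K, hyd, hK, hz⟩ := softP (x := x) hx (y₁ := y₁) (n := n) (k := k) hY1 hk
    (by rw [hpy]; exact hp1)
    (by
      rw [hpy]
      have e : ((x : ℂ) - 1) * (y₁ - 1) = 1 - p := by linear_combination -hpy
      rw [e]; exact hpe)
    (show (0 : ℝ) < min (ε / 2) ((x + 1) * (1 - ‖((x : ℂ) + y₁) / (x + 1)‖)) from
      lt_min (by linarith) (mul_pos (by linarith) (by linarith)))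
  have hyn : y ≠ 1 := by
    rintro rfl
    have h1 := lt_of_lt_of_le hyd (min_le_right _ _)
    have h2 : ((x : ℂ) + y₁) / (x + 1) = 1 - (1 - y₁) / (x + 1) := by field_simp; ring
    have h3 : ‖((x : ℂ) + y₁) / (x + 1)‖ ≥ 1 - ‖1 - y₁‖ / (x + 1) := by
      rw [h2]
      have := norm_sub_norm_le (1 : ℂ) ((1 - y₁) / (x + 1))
      rw [norm_one, norm_div, hnx] at this
      linarith
    have h4 : (x + 1) * (‖1 - y₁‖ / (x + 1)) = ‖1 - y₁‖ := by
      field_simp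
    nlinarith
  refine ⟨k, n, K, 0, 1, 0, y, theta_connected hk hK (by norm_num), ?_, ?_⟩
  · have e : y - y₀ = (y - y₁) + (y₁ - y₀) := by ring
    rw [e]
    have h1 := norm_add_le (y - y₁) (y₁ - y₀)
    have h2 := lt_of_lt_of_le hyd (min_le_left _ _)
    have h3 := lt_of_lt_of_le hy1d (min_le_left _ _)
    linarith
  · refine tutte_zero hk hK (by norm_num) hx1 hyn ?_
    rw [pow_zero, pow_one, totG_flat, hz, mul_zero]

theorem main_gt {x : ℝ} (hx : 1 < x) {y₀ : ℂ} (hy : ‖(x : ℂ) + y₀‖ ≤ x + 1) {ε : ℝ}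
    (hε : 0 < ε) :
    ∃ (k n K m m₁ m₂ : ℕ) (y : ℂ), (theta k n K m m₁ m₂).Connected ∧ ‖y - y₀‖ < ε ∧
      tutte (theta k n K m m₁ m₂) x y = 0 := by
  set t : ℝ := min (ε / (2 * (x + 1))) 1 / 2 with ht
  have hx1 : 0 < x + 1 := by linarith
  have hm : 0 < min (ε / (2 * (x + 1))) 1 := lt_min (by positivity) one_pos
  have ht0 : 0 < t := by positivity
  have ht1 : t ≤ 1 / 2 := by
    have := min_le_right (ε / (2 * (x + 1))) 1
    rw [ht]; linarith
  have ht2 : t * (x + 1) < ε / 2 := by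
    have h1 := min_le_left (ε / (2 * (x + 1))) 1
    have h2 : t ≤ ε / (2 * (x + 1)) / 2 := by rw [ht]; linarith
    have h3 : t * (x + 1) ≤ ε / (2 * (x + 1)) / 2 * (x + 1) :=
      mul_le_mul_of_nonneg_right h2 hx1.le
    have h4 : ε / (2 * (x + 1)) / 2 * (x + 1) = ε / 4 := by field_simp; ring
    linarith
  set y₁ : ℂ := ((1 - t : ℝ) : ℂ) * (x + y₀) - x with hy1
  have hin : ‖(x : ℂ) + y₁‖ < x + 1 := by
    have e : (x : ℂ) + y₁ = ((1 - t : ℝ) : ℂ) * (x + y₀) := by rw [hy1]; ring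
    rw [e, norm_mul, Complex.norm_real, Real.norm_eq_abs, abs_of_pos (by linarith)]
    nlinarith [norm_nonneg ((x : ℂ) + y₀)]
  obtain ⟨k, n, K, m, m₁, m₂, y, hc, hd, hz⟩ := main_gt_open hx hin (half_pos hε)
  refine ⟨k, n, K, m, m₁, m₂, y, hc, ?_, hz⟩
  have e : y - y₀ = (y - y₁) + (y₁ - y₀) := by ring
  have e2 : y₁ - y₀ = -((t : ℂ) * (x + y₀)) := by rw [hy1]; push_cast; ring
  have h3 : ‖y₁ - y₀‖ ≤ t * (x + 1) := by
    rw [e2, norm_neg, norm_mul, Complex.norm_real, Real.norm_eq_abs, abs_of_pos ht0]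
    exact mul_le_mul_of_nonneg_left hy ht0.le
  rw [e]
  have := norm_add_le (y - y₁) (y₁ - y₀)
  linarith

/-- `x > 1`, outside of the disc. -/
theorem main_gt_out {x : ℝ} (hx : 1 < x) {y₀ : ℂ} (hy : x + 1 < ‖(x : ℂ) + y₀‖) {ε : ℝ}
    (hε : 0 < ε) :
    ∃ (k n K m m₁ m₂ : ℕ) (y : ℂ), (theta k n K m m₁ m₂).Connected ∧ ‖y - y₀‖ < ε ∧
      tutte (theta k n K m m₁ m₂) x y = 0 := by
  have hx1 : 0 < x + 1 := by linarith
  have hx1c : ((x : ℂ) + 1) ≠ 0 := by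
    have : (x + 1 : ℝ) ≠ 0 := by linarith
    exact_mod_cast this
  have hxc : ((x : ℂ) - 1) ≠ 0 := by
    have : (x - 1 : ℝ) ≠ 0 := by linarith
    exact_mod_cast this
  have hnx : ‖(x : ℂ) + 1‖ = x + 1 := by
    have : (x : ℂ) + 1 = ((x + 1 : ℝ) : ℂ) := by push_cast; ring
    rw [this, Complex.norm_real, Real.norm_eq_abs, abs_of_pos hx1]
  set c : ℂ := ((x : ℂ) - 1) * (x + 1) with hc
  have hc0 : c ≠ 0 := mul_ne_zero hxc hx1c
  set Y₀ : ℂ := ((x : ℂ) + y₀) / (x + 1) with hY₀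
  have hY0n : 1 < ‖Y₀‖ := by
    rw [hY₀, norm_div, hnx, one_lt_div hx1]; exact hy
  -- a generic point
  obtain ⟨Y₁, hd1, hn1, hp1⟩ : ∃ Y₁ : ℂ, ‖Y₁ - Y₀‖ < ε / (2 * (x + 1)) ∧ 1 < ‖Y₁‖ ∧
      1 - c * (Y₁ - 1) ≠ 0 := by
    by_cases hp : 1 - c * (Y₀ - 1) = 0
    · set t : ℝ := ε / (4 * (x + 1) * ‖Y₀‖) with ht
      have hYp : 0 < ‖Y₀‖ := by linarith
      have ht0 : 0 < t := by positivity
      refine ⟨((1 + t : ℝ) : ℂ) * Y₀, ?_, ?_, ?_⟩
      · have e : ((1 + t : ℝ) : ℂ) * Y₀ - Y₀ = (t : ℂ) * Y₀ := by push_cast; ring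
        rw [e, norm_mul, Complex.norm_real, Real.norm_eq_abs, abs_of_pos ht0, ht]
        have e2 : ε / (4 * (x + 1) * ‖Y₀‖) * ‖Y₀‖ = ε / (2 * (x + 1)) / 2 := by
          field_simp; ring
        rw [e2]
        exact half_lt_self (by positivity)
      · rw [norm_mul, Complex.norm_real, Real.norm_eq_abs, abs_of_pos (by linarith)]
        nlinarith
      · have e : 1 - c * (((1 + t : ℝ) : ℂ) * Y₀ - 1) = (1 - c * (Y₀ - 1)) - c * (t * Y₀) := by
          push_cast; ring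
        rw [e, hp, zero_sub, neg_ne_zero]
        refine mul_ne_zero hc0 (mul_ne_zero ?_ (norm_pos_iff.mp hYp))
        exact_mod_cast ht0.ne'
    · exact ⟨Y₀, by rw [sub_self, norm_zero]; positivity, hY0n, hp⟩
  obtain ⟨Y, n, K, hd, hK, hYK, hz⟩ := cycP_zeros hn1 hc0 hp1
    (show (0 : ℝ) < ε / (2 * (x + 1)) by positivity)
  have hY1 : Y ≠ 1 := by
    rintro rfl
    exact hYK (one_pow K)
  have hq0 : c * (Y - 1) ≠ 0 := mul_ne_zero hc0 (sub_ne_zero.mpr hY1)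
  have hflat := cycP_flat hYK hq0 hz
  refine ⟨2, n, K, 0, 1, 0, (x + 1) * Y - x, theta_connected (by norm_num) hK (by norm_num),
    ?_, ?_⟩
  · have e : ((x : ℂ) + 1) * Y - x - y₀ = (x + 1) * ((Y - Y₁) + (Y₁ - Y₀)) := by
      rw [hY₀]; field_simp; ring
    rw [e, norm_mul, hnx]
    have h1 := norm_add_le (Y - Y₁) (Y₁ - Y₀)
    have h2 : ‖(Y - Y₁) + (Y₁ - Y₀)‖ < ε / (x + 1) := by
      have e2 : ε / (2 * (x + 1)) + ε / (2 * (x + 1)) = ε / (x + 1) := by field_simp; ring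
      linarith
    calc (x + 1) * ‖(Y - Y₁) + (Y₁ - Y₀)‖ < (x + 1) * (ε / (x + 1)) :=
          mul_lt_mul_of_pos_left h2 hx1
      _ = ε := by field_simp
  · have hYY : ((x : ℂ) + ((x + 1) * Y - x)) / (x + 1) = Y := by field_simp; ring
    have hqq : ((x : ℂ) - 1) * ((x + 1) * Y - x - 1) = c * (Y - 1) := by rw [hc]; ring
    refine tutte_zero (by norm_num) hK (by norm_num) hx1c ?_ ?_
    · intro h
      apply hY1
      have h3 : ((x : ℂ) + 1) * (Y - 1) = 0 := by linear_combination h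
      exact sub_eq_zero.mp ((mul_eq_zero.mp h3).resolve_left hx1c)
    · rw [hYY, hqq, pow_zero, pow_one, totG_flat, hflat, mul_zero]

/-- All cases together. -/
theorem main_all {x : ℝ} (hx : 1 ≤ x) (y₀ : ℂ) {ε : ℝ} (hε : 0 < ε) :
    ∃ (k n K m m₁ m₂ : ℕ) (y : ℂ), (theta k n K m m₁ m₂).Connected ∧ ‖y - y₀‖ < ε ∧
      tutte (theta k n K m m₁ m₂) x y = 0 := by
  rcases hx.eq_or_lt with h1 | h1
  · subst h1
    have := main_one y₀ hε
    simpa using this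
  · by_cases h2 : ‖(x : ℂ) + y₀‖ ≤ x + 1
    · exact main_gt h1 h2 hε
    · exact main_gt_out h1 (not_le.mp h2) hε

theorem theta_colorable (k n K m m₁ m₂ : ℕ) : (theta k n K m m₁ m₂).Colorable 2 := by
  refine ⟨SimpleGraph.Coloring.mk (fun v => if v.isLeft then (0 : Fin 2) else 1) ?_⟩
  intro a b hab
  unfold theta twoPath at hab
  rw [SimpleGraph.fromRel_adj] at hab
  rcases hab with ⟨_, ⟨u, e, rfl, rfl, _⟩ | ⟨u, e, rfl, rfl, _⟩⟩ <;> simp

end Pool.Agent.NZF
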