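import Pool.Agent.NZF.Defs

/-!
PLAN (NZF-Path). psum_eq: induction on n, splitting off the LAST inner vertex: Fin.snocEquiv / Fin.consEquiv style
reindexing of (Fin (n+1) -> a) as (Fin n -> a) x a (Fin.snocEquiv, or Fin.insertNthEquiv with last), Fin.prod_univ_castSucc for
both products; the inductive hypothesis is used with end b = the colour of the last inner vertex. (If the form of the summand
is awkward first prove it for a recursion-friendly version of the summand.) theta_sum: split c : Fin 3 + (Fin k x Fin n) -> a as a pair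
(Equiv.sumArrowEquivProdArrow), then Fin k x Fin n -> a as Fin k -> (Fin n -> a) (Equiv.curry), the summand is F a times a
product over j of a function of c_j; Fintype.sum_pow (or Finset.prod_univ_sum) gives (sum over Fin n -> a)^k and psum_eq
applies after rewriting pt: pt j i = inl 1 if i = 0, inr (j, i-1) if 1 <= i <= n, inl 2 if i = n+1.
-/

set_option autoImplicit false

namespace Pool.Agent.NZF

open Classical Finset

/-- Sum over the colours of `n` inner vertices of a path from `x` to `y`, edge weights `w`,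
vertex weights `u`. -/
noncomputable def psum {α : Type} [Fintype α] (w : α → α → ℂ) (u : α → ℂ) : ℕ → α → α → ℂ
  | 0, x, y => w x y
  | n + 1, x, y => ∑ b, psum w u n x b * u b * w b y

private theorem Path_step {α : Type} (w : α → α → ℂ) (n : ℕ) (x y b : α) (c : Fin n → α) :
    (∏ i : Fin (n + 1 + 1),
        w (if h : (i : ℕ) = 0 then x else (Fin.snoc c b : Fin (n + 1) → α) ⟨(i : ℕ) - 1, by have := i.2; omega⟩)
          (if h : (i : ℕ) < n + 1 then (Fin.snoc c b : Fin (n + 1) → α) ⟨(i : ℕ), h⟩ else y)) =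
      (∏ i : Fin (n + 1),
        w (if h : (i : ℕ) = 0 then x else c ⟨(i : ℕ) - 1, by have := i.2; omega⟩)
          (if h : (i : ℕ) < n then c ⟨(i : ℕ), h⟩ else b)) * w b y := by
  rw [Fin.prod_univ_castSucc]
  congr 1
  · refine Finset.prod_congr rfl fun i _ => ?_
    have hi := i.2
    have e1 : (if h : ((Fin.castSucc i : Fin (n + 1 + 1)) : ℕ) = 0 then x else
        (Fin.snoc c b : Fin (n + 1) → α) ⟨((Fin.castSucc i : Fin (n + 1 + 1)) : ℕ) - 1, by
          have := (Fin.castSucc i).2; omega⟩) =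
        (if h : (i : ℕ) = 0 then x else c ⟨(i : ℕ) - 1, by have := i.2; omega⟩) := by
      by_cases h : (i : ℕ) = 0
      · rw [dif_pos (by simpa using h), dif_pos h]
      · rw [dif_neg (by simpa using h), dif_neg h]
        have h2 : (i : ℕ) - 1 < n := by omega
        have h3 : (⟨((Fin.castSucc i : Fin (n + 1 + 1)) : ℕ) - 1, by
          have := (Fin.castSucc i).2; omega⟩ : Fin (n + 1)) = Fin.castSucc ⟨(i : ℕ) - 1, h2⟩ := by
          apply Fin.ext
          simp
        rw [h3, Fin.snoc_castSucc]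
    have e2 : (if h : ((Fin.castSucc i : Fin (n + 1 + 1)) : ℕ) < n + 1 then
        (Fin.snoc c b : Fin (n + 1) → α) ⟨((Fin.castSucc i : Fin (n + 1 + 1)) : ℕ), h⟩ else y) =
        (if h : (i : ℕ) < n then c ⟨(i : ℕ), h⟩ else b) := by
      rw [dif_pos (by simpa using hi)]
      by_cases h : (i : ℕ) < n
      · rw [dif_pos h]
        have h3 : (⟨((Fin.castSucc i : Fin (n + 1 + 1)) : ℕ), by simpa using hi⟩ : Fin (n + 1)) =
            Fin.castSucc ⟨(i : ℕ), h⟩ := by
          apply Fin.ext
          simp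
        rw [h3, Fin.snoc_castSucc]
      · rw [dif_neg h]
        have h3 : (⟨((Fin.castSucc i : Fin (n + 1 + 1)) : ℕ), by simpa using hi⟩ : Fin (n + 1)) =
            Fin.last n := by
          apply Fin.ext
          simp
          omega
        rw [h3, Fin.snoc_last]
    rw [e1, e2]
  · have e1 : (if h : ((Fin.last (n + 1) : Fin (n + 1 + 1)) : ℕ) = 0 then x else
        (Fin.snoc c b : Fin (n + 1) → α) ⟨((Fin.last (n + 1) : Fin (n + 1 + 1)) : ℕ) - 1, by
          have := (Fin.last (n + 1)).2; omega⟩) = b := by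
      rw [dif_neg (by simp)]
      have h3 : (⟨((Fin.last (n + 1) : Fin (n + 1 + 1)) : ℕ) - 1, by
          have := (Fin.last (n + 1)).2; omega⟩ : Fin (n + 1)) = Fin.last n := by
        apply Fin.ext
        simp
      rw [h3, Fin.snoc_last]
    have e2 : (if h : ((Fin.last (n + 1) : Fin (n + 1 + 1)) : ℕ) < n + 1 then
        (Fin.snoc c b : Fin (n + 1) → α) ⟨((Fin.last (n + 1) : Fin (n + 1 + 1)) : ℕ), h⟩ else y) = y := by
      rw [dif_neg (by simp)]
    rw [e1, e2]

/-- One path. -/
theorem psum_eq {α : Type} [Fintype α] (w : α → α → ℂ) (u : α → ℂ) (n : ℕ) (x y : α) :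
    (∑ c : Fin n → α, (∏ i : Fin (n + 1),
        w (if h : (i : ℕ) = 0 then x else c ⟨(i : ℕ) - 1, by have := i.2; omega⟩)
          (if h : (i : ℕ) < n then c ⟨(i : ℕ), h⟩ else y)) * ∏ i, u (c i)) = psum w u n x y := by
  induction n generalizing y with
  | zero =>
    rw [Fintype.sum_unique]
    simp [psum]
  | succ n ih =>
    rw [← (Fin.snocEquiv (fun _ : Fin (n + 1) => α)).sum_comp, Fintype.sum_prod_type]
    show _ = ∑ b, psum w u n x b * u b * w b y
    refine Finset.sum_congr rfl fun b _ => ?_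
    rw [← ih b, Finset.sum_mul, Finset.sum_mul]
    refine Finset.sum_congr rfl fun c _ => ?_
    have h1 : (Fin.snocEquiv (fun _ : Fin (n + 1) => α)) (b, c) = (Fin.snoc c b : Fin (n + 1) → α) := rfl
    have h2 : ∏ i : Fin (n + 1), u ((Fin.snoc c b : Fin (n + 1) → α) i) = (∏ i, u (c i)) * u b := by
      rw [Fin.prod_univ_castSucc, Fin.snoc_last]
      congr 1
      refine Finset.prod_congr rfl fun i _ => ?_
      rw [Fin.snoc_castSucc]
    rw [h1, Path_step, h2]
    ring

/-- The sum over all colourings of the theta graph. -/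
theorem theta_sum {α : Type} [Fintype α] (k n : ℕ) (F : (Fin 3 → α) → ℂ) (w : α → α → ℂ)
    (u : (Fin 3 → α) → α → ℂ) :
    (∑ c : VH k n → α, F (fun a => c (Sum.inl a)) *
        ((∏ j : Fin k, ∏ i : Fin (n + 1), w (c (pt j (i : ℕ))) (c (pt j ((i : ℕ) + 1)))) *
          ∏ j : Fin k, ∏ i : Fin n, u (fun a => c (Sum.inl a)) (c (Sum.inr (j, i))))) =
      ∑ a : Fin 3 → α, F a * (psum w (u a) n (a 1) (a 2)) ^ k := by
  let e : (Fin 3 → α) × (Fin k → Fin n → α) ≃ (VH k n → α) :=
    ((Equiv.refl _).prodCongr (Equiv.curry (Fin k) (Fin n) α).symm).trans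
      (Equiv.sumArrowEquivProdArrow (Fin 3) (Fin k × Fin n) α).symm
  rw [← e.sum_comp, Fintype.sum_prod_type]
  refine Finset.sum_congr rfl fun a _ => ?_
  rw [← psum_eq, Fintype.sum_pow, Finset.mul_sum]
  refine Finset.sum_congr rfl fun d _ => ?_
  have h0 : (fun b => e (a, d) (Sum.inl b)) = a := rfl
  have h1 : ∀ j i, e (a, d) (Sum.inr (j, i)) = d j i := fun _ _ => rfl
  have h2 : ∀ b, e (a, d) (Sum.inl b) = a b := fun _ => rfl
  rw [h0, ← Finset.prod_mul_distrib]
  congr 1
  refine Finset.prod_congr rfl fun j _ => ?_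
  congr 1
  refine Finset.prod_congr rfl fun i _ => ?_
  have hi := i.2
  have e1 : e (a, d) (pt j (i : ℕ)) =
      (if h : (i : ℕ) = 0 then a 1 else d j ⟨(i : ℕ) - 1, by have := i.2; omega⟩) := by
    unfold pt
    by_cases h : (i : ℕ) = 0
    · rw [if_pos h, dif_pos h, h2]
    · have h3 : (i : ℕ) - 1 < n := by omega
      rw [if_neg h, dif_neg h, dif_pos h3, h1]
  have e2 : e (a, d) (pt j ((i : ℕ) + 1)) =
      (if h : (i : ℕ) < n then d j ⟨(i : ℕ), h⟩ else a 2) := by
    unfold pt
    rw [if_neg (by omega)]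
    by_cases h : (i : ℕ) < n
    · have h3 : (i : ℕ) + 1 - 1 < n := by omega
      rw [dif_pos h, dif_pos h3, h1]
      rfl
    · have h3 : ¬ (i : ℕ) + 1 - 1 < n := by omega
      rw [dif_neg h, dif_neg h3, h2]
  rw [e1, e2]

end Pool.Agent.NZF
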