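import Pool.Agent.NZF.Rec

/-!
PLAN (NZF-Tot). terminals_sum: rewrite psum by psum_rec; the sum over a : Fin 3 -> Fin q is a triple sum (Fin.consEquiv or
Fin.sum_univ ... : use the equivalence (Fin 3 -> Fin q) with Fin q x Fin q x Fin q, e.g. piFinThree style, or
Fintype.sum_equiv with ![a,b,c]); for fixed z = a 0: sum over x of sum over y of the case distinction:
x = z: y = z gives f1 g1 E^k, y <> z gives f1 g0 D'^k (q-1 times); x <> z (q-1 times): y = z: f0 g1 a^k; y = x: f0 g0 b^k;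
others (q-2 times) f0 g0 d^k. theta_colour_sum: the product over EH splits (Fintype.prod_sum_type, Fintype.prod_prod_type,
Finset.prod_const): K copies give K-th powers ((if P then a else b)^K = if P then a^K else b^K), then theta_sum with
F a = (if a 1 = a 0 then t1^m1 else t0^m1) * (if a 2 = a 0 then t1^m2 else t0^m2), w = (if a = b then t1^K else t0^K),
u a b = (if b = a 0 then t1^m else t0^m), and terminals_sum.
-/

set_option autoImplicit false

namespace Pool.Agent.NZF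

open Classical Finset

private theorem Tot_one (q : ℕ) (z : Fin q) (α β : ℂ) :
    (∑ y : Fin q, if y = z then α else β) = α + ((q : ℂ) - 1) * β := by
  have h : ∀ y : Fin q, (if y = z then α else β) = β + (if y = z then α - β else 0) := by
    intro y
    split_ifs <;> ring
  rw [Finset.sum_congr rfl fun y _ => h y, Finset.sum_add_distrib, Finset.sum_const, Finset.card_univ,
    Fintype.card_fin, Finset.sum_ite_eq', if_pos (Finset.mem_univ z), nsmul_eq_mul]
  ring

private theorem Tot_two (q : ℕ) {z x : Fin q} (hx : x ≠ z) (α β γ : ℂ) :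
    (∑ y : Fin q, if y = z then α else if y = x then β else γ) = α + β + ((q : ℂ) - 2) * γ := by
  have h : ∀ y : Fin q, (if y = z then α else if y = x then β else γ) =
      γ + (if y = z then α - γ else 0) + (if y = x then β - γ else 0) := by
    intro y
    by_cases h1 : y = z
    · have h2 : ¬ y = x := fun h => hx (h.symm.trans h1)
      rw [if_pos h1, if_pos h1, if_neg h2]
      ring
    · rw [if_neg h1, if_neg h1]
      split_ifs <;> ring
  rw [Finset.sum_congr rfl fun y _ => h y, Finset.sum_add_distrib, Finset.sum_add_distrib,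
    Finset.sum_const, Finset.card_univ, Fintype.card_fin, Finset.sum_ite_eq', if_pos (Finset.mem_univ z),
    Finset.sum_ite_eq', if_pos (Finset.mem_univ x), nsmul_eq_mul]
  ring

private theorem Tot_cons {α : Type} [Fintype α] (n : ℕ) (F : (Fin (n + 1) → α) → ℂ) :
    (∑ a : Fin (n + 1) → α, F a) = ∑ x : α, ∑ b : Fin n → α, F (Fin.cons x b) := by
  rw [← (Fin.consEquiv (fun _ : Fin (n + 1) => α)).sum_comp F, Fintype.sum_prod_type]
  rfl

private theorem Tot_three {α : Type} [Fintype α] (f : α → α → α → ℂ) :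
    (∑ a : Fin 3 → α, f (a 0) (a 1) (a 2)) = ∑ z, ∑ x, ∑ y, f z x y := by
  rw [Tot_cons]
  refine Finset.sum_congr rfl fun z _ => ?_
  rw [Tot_cons]
  refine Finset.sum_congr rfl fun x _ => ?_
  rw [Tot_cons]
  refine Finset.sum_congr rfl fun y _ => ?_
  rw [Fintype.sum_unique]
  rfl

/-- Summing over the colours of the three terminals. -/
theorem terminals_sum (q : ℕ) (r0 r1 s0 s1 f0 f1 g0 g1 : ℂ) (k n : ℕ) :
    (∑ a : Fin 3 → Fin q, ((if a 1 = a 0 then f1 else f0) * (if a 2 = a 0 then g1 else g0)) *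
        (psum (fun a b : Fin q => if a = b then r1 else r0)
          (fun b => if b = a 0 then s1 else s0) n (a 1) (a 2)) ^ k) =
      (q : ℂ) * totG r0 r1 s0 s1 f0 f1 g0 g1 (q : ℂ) k n := by
  rw [Tot_three (fun z x y : Fin q => ((if x = z then f1 else f0) * (if y = z then g1 else g0)) *
        (psum (fun a b : Fin q => if a = b then r1 else r0)
          (fun b => if b = z then s1 else s0) n x y) ^ k)]
  obtain ⟨E, hE⟩ : ∃ E, E = (stZ r0 r1 s0 s1 (q : ℂ) n).1 := ⟨_, rfl⟩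
  obtain ⟨D, hD⟩ : ∃ D, D = (stZ r0 r1 s0 s1 (q : ℂ) n).2 := ⟨_, rfl⟩
  obtain ⟨A, hA⟩ : ∃ A, A = (stA r0 r1 s0 s1 (q : ℂ) n).1 := ⟨_, rfl⟩
  obtain ⟨B, hB⟩ : ∃ B, B = (stA r0 r1 s0 s1 (q : ℂ) n).2.1 := ⟨_, rfl⟩
  obtain ⟨G, hG⟩ : ∃ G, G = (stA r0 r1 s0 s1 (q : ℂ) n).2.2 := ⟨_, rfl⟩
  have key : ∀ z x : Fin q, (∑ y : Fin q, ((if x = z then f1 else f0) * (if y = z then g1 else g0)) *
        (psum (fun a b : Fin q => if a = b then r1 else r0)
          (fun b => if b = z then s1 else s0) n x y) ^ k) =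
      if x = z then f1 * g1 * E ^ k + ((q : ℂ) - 1) * (f1 * g0 * D ^ k)
      else f0 * g1 * A ^ k + f0 * g0 * B ^ k + ((q : ℂ) - 2) * (f0 * g0 * G ^ k) := by
    intro z x
    by_cases hx : x = z
    · refine Eq.trans (Finset.sum_congr rfl fun y _ => ?_)
        ((Tot_one q z (f1 * g1 * E ^ k) (f1 * g0 * D ^ k)).trans (if_pos hx).symm)
      rw [psum_rec, if_pos hx, if_pos hx, ← hE, ← hD]
      split_ifs <;> rfl
    · refine Eq.trans (Finset.sum_congr rfl fun y _ => ?_)
        ((Tot_two q hx (f0 * g1 * A ^ k) (f0 * g0 * B ^ k) (f0 * g0 * G ^ k)).trans (if_neg hx).symm)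
      rw [psum_rec, if_neg hx, if_neg hx, ← hA, ← hB, ← hG]
      split_ifs <;> rfl
  have key2 : ∀ z : Fin q, (∑ x : Fin q, ∑ y : Fin q,
        ((if x = z then f1 else f0) * (if y = z then g1 else g0)) *
        (psum (fun a b : Fin q => if a = b then r1 else r0)
          (fun b => if b = z then s1 else s0) n x y) ^ k) =
      totG r0 r1 s0 s1 f0 f1 g0 g1 (q : ℂ) k n := by
    intro z
    rw [Finset.sum_congr rfl fun x _ => key z x, Tot_one]
    unfold totG
    rw [← hE, ← hD, ← hA, ← hB, ← hG]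
    ring
  rw [Finset.sum_congr rfl fun z _ => key2 z, Finset.sum_const, Finset.card_univ, Fintype.card_fin,
    nsmul_eq_mul]

/-- The sum over all colourings of the multigraph behind `theta`. -/
theorem theta_colour_sum (k n K m m₁ m₂ q : ℕ) (τ0 τ1 : ℂ) :
    (∑ c : VH k n → Fin q, ∏ e : EH k n K m m₁ m₂,
        (if c (sH e) = c (tH e) then τ1 else τ0)) =
      (q : ℂ) * totG (τ0 ^ K) (τ1 ^ K) (τ0 ^ m) (τ1 ^ m) (τ0 ^ m₁) (τ1 ^ m₁) (τ0 ^ m₂) (τ1 ^ m₂)
        (q : ℂ) k n := by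
  have h1 : ∀ c : VH k n → Fin q, (∏ e : EH k n K m m₁ m₂,
        (if c (sH e) = c (tH e) then τ1 else τ0)) =
      ((if c (Sum.inl 1) = c (Sum.inl 0) then τ1 ^ m₁ else τ0 ^ m₁) *
        (if c (Sum.inl 2) = c (Sum.inl 0) then τ1 ^ m₂ else τ0 ^ m₂)) *
      ((∏ j : Fin k, ∏ i : Fin (n + 1),
          (if c (pt j (i : ℕ)) = c (pt j ((i : ℕ) + 1)) then τ1 ^ K else τ0 ^ K)) *
        ∏ j : Fin k, ∏ i : Fin n, (if c (Sum.inr (j, i)) = c (Sum.inl 0) then τ1 ^ m else τ0 ^ m)) := by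
    intro c
    rw [Fintype.prod_sum_type, Fintype.prod_sum_type, Fintype.prod_sum_type]
    have e1 : (∏ e : (Fin k × Fin (n + 1)) × Fin K,
        (if c (sH (Sum.inl (Sum.inl e) : EH k n K m m₁ m₂)) = c (tH (Sum.inl (Sum.inl e) : EH k n K m m₁ m₂))
          then τ1 else τ0)) = ∏ j : Fin k, ∏ i : Fin (n + 1),
          (if c (pt j (i : ℕ)) = c (pt j ((i : ℕ) + 1)) then τ1 ^ K else τ0 ^ K) := by
      rw [Fintype.prod_prod_type, Fintype.prod_prod_type]
      refine Finset.prod_congr rfl fun j _ => Finset.prod_congr rfl fun i _ => ?_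
      show (∏ _e : Fin K, (if c (pt j (i : ℕ)) = c (pt j ((i : ℕ) + 1)) then τ1 else τ0)) = _
      rw [Finset.prod_const, Finset.card_univ, Fintype.card_fin, ite_pow]
    have e2 : (∏ e : (Fin k × Fin n) × Fin m,
        (if c (sH (Sum.inl (Sum.inr e) : EH k n K m m₁ m₂)) = c (tH (Sum.inl (Sum.inr e) : EH k n K m m₁ m₂))
          then τ1 else τ0)) = ∏ j : Fin k, ∏ i : Fin n,
          (if c (Sum.inr (j, i)) = c (Sum.inl 0) then τ1 ^ m else τ0 ^ m) := by
      rw [Fintype.prod_prod_type, Fintype.prod_prod_type]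
      refine Finset.prod_congr rfl fun j _ => Finset.prod_congr rfl fun i _ => ?_
      show (∏ _e : Fin m, (if c (Sum.inr (j, i)) = c (Sum.inl 0) then τ1 else τ0)) = _
      rw [Finset.prod_const, Finset.card_univ, Fintype.card_fin, ite_pow]
    have e3 : (∏ e : Fin m₁,
        (if c (sH (Sum.inr (Sum.inl e) : EH k n K m m₁ m₂)) = c (tH (Sum.inr (Sum.inl e) : EH k n K m m₁ m₂))
          then τ1 else τ0)) = if c (Sum.inl 1) = c (Sum.inl 0) then τ1 ^ m₁ else τ0 ^ m₁ := by
      show (∏ _e : Fin m₁, (if c (Sum.inl 1) = c (Sum.inl 0) then τ1 else τ0)) = _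
      rw [Finset.prod_const, Finset.card_univ, Fintype.card_fin, ite_pow]
    have e4 : (∏ e : Fin m₂,
        (if c (sH (Sum.inr (Sum.inr e) : EH k n K m m₁ m₂)) = c (tH (Sum.inr (Sum.inr e) : EH k n K m m₁ m₂))
          then τ1 else τ0)) = if c (Sum.inl 2) = c (Sum.inl 0) then τ1 ^ m₂ else τ0 ^ m₂ := by
      show (∏ _e : Fin m₂, (if c (Sum.inl 2) = c (Sum.inl 0) then τ1 else τ0)) = _
      rw [Finset.prod_const, Finset.card_univ, Fintype.card_fin, ite_pow]
    rw [e1, e2, e3, e4]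
    ring
  rw [Finset.sum_congr rfl fun c _ => h1 c]
  have h2 := theta_sum (α := Fin q) k n
    (fun a : Fin 3 → Fin q => (if a 1 = a 0 then τ1 ^ m₁ else τ0 ^ m₁) *
      (if a 2 = a 0 then τ1 ^ m₂ else τ0 ^ m₂))
    (fun a b : Fin q => if a = b then τ1 ^ K else τ0 ^ K)
    (fun (a : Fin 3 → Fin q) (b : Fin q) => if b = a 0 then τ1 ^ m else τ0 ^ m)
  refine Eq.trans h2 ?_
  exact terminals_sum q (τ0 ^ K) (τ1 ^ K) (τ0 ^ m) (τ1 ^ m) (τ0 ^ m₁) (τ1 ^ m₁) (τ0 ^ m₂) (τ1 ^ m₂) k n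

end Pool.Agent.NZF
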