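import Pool.Agent.NZF.Defs

/-!
PLAN (NZF-Two). (twoPath s t).Adj (inl u) (inr e) iff u = s e or u = t e; no other adjacencies (SimpleGraph.fromRel_adj).
The edge finset is the image of E x Bool (or the disjoint union of two images of univ : Finset E) under
(e, true) -> s(inl (s e), inr e), (e, false) -> s(inl (t e), inr e), injective because s e <> t e. So the product over the edges is
prod over e of (if c (inl (s e)) = c (inr e) then 1+v else 1) * (if c (inl (t e)) = c (inr e) then 1+v else 1).
Split c : V + E -> Fin q as a pair (Equiv.sumArrowEquivProdArrow), sum over the E part with Finset.prod_univ_sum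
(or Fintype.piFinset / Finset.sum_prod_piFinset): gives prod over e of sum over a : Fin q of the two factors, which is
q + 2v + v^2 if c (s e) = c (t e), and q + 2v otherwise (write each factor as 1 + v * indicator, expand, Finset.sum_ite_eq).
-/

set_option autoImplicit false

namespace Pool.Agent.NZF

open Classical Finset

private noncomputable def Two_f {q : ℕ} (v : ℂ) (a b : Fin q) : ℂ := if a = b then 1 + v else 1

private theorem Two_edge {V E : Type} [Fintype V] [Fintype E] (s t : E → V)
    (h : ∀ e, s e ≠ t e) (F : Sym2 (V ⊕ E) → ℂ) :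
    ∏ e ∈ (twoPath s t).edgeFinset, F e =
      ∏ e : E, F s(Sum.inl (s e), Sum.inr e) * F s(Sum.inl (t e), Sum.inr e) := by
  obtain ⟨φ, hφ⟩ : ∃ φ : E × Bool → Sym2 (V ⊕ E), ∀ p, φ p =
      s(Sum.inl (if p.2 = true then s p.1 else t p.1), Sum.inr p.1) := ⟨_, fun _ => rfl⟩
  have hinj : Function.Injective φ := by
    rintro ⟨e, b⟩ ⟨e', b'⟩ h1
    rw [hφ, hφ, Sym2.eq_iff] at h1
    rcases h1 with ⟨h2, h3⟩ | ⟨h2, h3⟩
    · have h4 : e = e' := Sum.inr.inj h3
      subst h4
      have h5 := Sum.inl.inj h2
      cases b <;> cases b'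
      · rfl
      · exact absurd (by simpa using h5.symm) (h e)
      · exact absurd (by simpa using h5) (h e)
      · rfl
    · exact absurd h2 (by simp)
  have hset : (twoPath s t).edgeFinset = Finset.univ.image φ := by
    ext x
    rw [SimpleGraph.mem_edgeFinset, Finset.mem_image]
    induction x using Sym2.ind with
    | _ a b =>
      rw [SimpleGraph.mem_edgeSet]
      unfold twoPath
      rw [SimpleGraph.fromRel_adj]
      constructor
      · rintro ⟨_, ⟨u, e, ha, hb, h1⟩ | ⟨u, e, ha, hb, h1⟩⟩
        · rcases h1 with h1 | h1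
          · refine ⟨(e, true), Finset.mem_univ _, ?_⟩
            rw [hφ, ha, hb, h1]
            simp
          · refine ⟨(e, false), Finset.mem_univ _, ?_⟩
            rw [hφ, ha, hb, h1]
            simp
        · rcases h1 with h1 | h1
          · refine ⟨(e, true), Finset.mem_univ _, ?_⟩
            rw [hφ, ha, hb, h1, Sym2.eq_swap]
            simp
          · refine ⟨(e, false), Finset.mem_univ _, ?_⟩
            rw [hφ, ha, hb, h1, Sym2.eq_swap]
            simp
      · rintro ⟨⟨e, c⟩, _, h1⟩
        rw [hφ, Sym2.eq_iff] at h1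
        have h2 : (if c = true then s e else t e) = s e ∨
            (if c = true then s e else t e) = t e := by
          cases c
          · right
            simp
          · left
            simp
        rcases h1 with ⟨ha, hb⟩ | ⟨hb, ha⟩
        · refine ⟨?_, Or.inl ⟨_, e, ha.symm, hb.symm, h2⟩⟩
          rw [← ha, ← hb]
          simp
        · refine ⟨?_, Or.inr ⟨_, e, hb.symm, ha.symm, h2⟩⟩
          rw [← ha, ← hb]
          simp
  rw [hset, Finset.prod_image (fun a _ b _ h1 => hinj h1), Fintype.prod_prod_type]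
  refine Finset.prod_congr rfl fun e _ => ?_
  rw [Fintype.prod_bool, hφ, hφ]
  simp

private theorem Two_loc {q : ℕ} (v : ℂ) (a b : Fin q) :
    ∑ x : Fin q, Two_f v a x * Two_f v b x =
      if a = b then (q : ℂ) + 2 * v + v ^ 2 else (q : ℂ) + 2 * v := by
  have h1 : ∀ x : Fin q, Two_f v a x * Two_f v b x =
      1 + (if a = x then v else 0) + (if b = x then v else 0) +
        (if a = x then (if b = x then v ^ 2 else 0) else 0) := by
    intro x
    unfold Two_f
    split_ifs <;> ring
  rw [Finset.sum_congr rfl fun x _ => h1 x]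
  rw [Finset.sum_add_distrib, Finset.sum_add_distrib, Finset.sum_add_distrib,
    Finset.sum_ite_eq, Finset.sum_ite_eq, Finset.sum_ite_eq, Finset.sum_const, Finset.card_univ,
    Fintype.card_fin, nsmul_eq_mul, if_pos (Finset.mem_univ _), if_pos (Finset.mem_univ _),
    if_pos (Finset.mem_univ _)]
  by_cases h2 : a = b
  · rw [if_pos h2, if_pos h2.symm]
    ring
  · rw [if_neg h2, if_neg fun h3 => h2 h3.symm]
    ring

/-- Summing over the colours of the middle vertices of the 2-paths. -/
theorem twoPath_sum {V E : Type} [Fintype V] [Fintype E] (s t : E → V) (h : ∀ e, s e ≠ t e)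
    (q : ℕ) (v : ℂ) :
    (∑ c : V ⊕ E → Fin q, ∏ e ∈ (twoPath s t).edgeFinset,
        (if (Sym2.map c e).IsDiag then 1 + v else 1)) =
      ∑ c : V → Fin q, ∏ e : E,
        (if c (s e) = c (t e) then (q : ℂ) + 2 * v + v ^ 2 else (q : ℂ) + 2 * v) := by
  have h1 : ∀ c : V ⊕ E → Fin q, ∏ e ∈ (twoPath s t).edgeFinset,
        (if (Sym2.map c e).IsDiag then 1 + v else 1) =
      ∏ e : E, Two_f v (c (Sum.inl (s e))) (c (Sum.inr e)) *
        Two_f v (c (Sum.inl (t e))) (c (Sum.inr e)) := by
    intro c
    rw [Two_edge s t h (fun e => if (Sym2.map c e).IsDiag then 1 + v else 1)]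
    refine Finset.prod_congr rfl fun e _ => ?_
    unfold Two_f
    simp only [Sym2.map_mk, Sym2.mk_isDiag_iff]
  rw [Finset.sum_congr rfl fun c _ => h1 c]
  rw [Fintype.sum_equiv (Equiv.sumArrowEquivProdArrow V E (Fin q))
    (fun c : V ⊕ E → Fin q => ∏ e : E, Two_f v (c (Sum.inl (s e))) (c (Sum.inr e)) *
        Two_f v (c (Sum.inl (t e))) (c (Sum.inr e)))
    (fun p : (V → Fin q) × (E → Fin q) => ∏ e : E, Two_f v (p.1 (s e)) (p.2 e) *
        Two_f v (p.1 (t e)) (p.2 e)) (fun c => rfl)]
  rw [Fintype.sum_prod_type]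
  refine Finset.sum_congr rfl fun a _ => ?_
  have h2 := Finset.prod_univ_sum (fun _ : E => (Finset.univ : Finset (Fin q)))
    (fun e x => Two_f v (a (s e)) x * Two_f v (a (t e)) x)
  rw [Fintype.piFinset_univ] at h2
  rw [← h2]
  exact Finset.prod_congr rfl fun e _ => Two_loc v _ _

end Pool.Agent.NZF
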