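import Pool.Agent.NZF.FK
import Pool.Agent.NZF.Two
import Pool.Agent.NZF.Conn
import Pool.Agent.NZF.Tot

/-!
PLAN (NZF-Poly). For natural q: fk + twoPath_sum (with sH_ne_tH) + theta_colour_sum give q * ysum = q * totG (t0 = q+2v,
t1 = q+2v+v^2), so equality for all q >= 1 (Nonempty (VH k n + EH ..) since Fin 3 is nonempty). Both sides are values at q of
polynomials in q: left sum of C (v^|A|) * X^(comps A - 1); right totG over the ring Polynomial C with q = X, v = C v (prove
by induction that stA, stZ, totG commute with a ring homomorphism f : R ->+* S, here Polynomial.evalRingHom q).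
Two polynomials which agree at all positive integers are equal (Polynomial.eq_of_infinite_eval_eq).
-/

set_option autoImplicit false

namespace Pool.Agent.NZF

open Classical Finset

private theorem poly_stA {R S : Type} [CommRing R] [CommRing S] (f : R →+* S)
    (r0 r1 s0 s1 q : R) (n : ℕ) :
    stA (f r0) (f r1) (f s0) (f s1) (f q) n =
      (f (stA r0 r1 s0 s1 q n).1, f (stA r0 r1 s0 s1 q n).2.1, f (stA r0 r1 s0 s1 q n).2.2) := by
  induction n with
  | zero => rfl
  | succ n ih =>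
    simp only [stA, ih, map_add, map_mul, map_sub, map_ofNat]

private theorem poly_stZ {R S : Type} [CommRing R] [CommRing S] (f : R →+* S)
    (r0 r1 s0 s1 q : R) (n : ℕ) :
    stZ (f r0) (f r1) (f s0) (f s1) (f q) n =
      (f (stZ r0 r1 s0 s1 q n).1, f (stZ r0 r1 s0 s1 q n).2) := by
  induction n with
  | zero => rfl
  | succ n ih =>
    simp only [stZ, ih, map_add, map_mul, map_sub, map_one]

private theorem poly_totG {R S : Type} [CommRing R] [CommRing S] (f : R →+* S)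
    (r0 r1 s0 s1 f0 f1 g0 g1 q : R) (k n : ℕ) :
    totG (f r0) (f r1) (f s0) (f s1) (f f0) (f f1) (f g0) (f g1) (f q) k n =
      f (totG r0 r1 s0 s1 f0 f1 g0 g1 q k n) := by
  unfold totG
  rw [poly_stA, poly_stZ]
  simp only [map_add, map_mul, map_sub, map_one, map_pow, map_ofNat]

private theorem poly_nat (k n K m m₁ m₂ : ℕ) (q : ℕ) (hq : q ≠ 0) (v : ℂ) :
    ysum (theta k n K m m₁ m₂) (q : ℂ) v =
      totG (((q : ℂ) + 2 * v) ^ K) (((q : ℂ) + 2 * v + v ^ 2) ^ K) (((q : ℂ) + 2 * v) ^ m)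
        (((q : ℂ) + 2 * v + v ^ 2) ^ m) (((q : ℂ) + 2 * v) ^ m₁) (((q : ℂ) + 2 * v + v ^ 2) ^ m₁)
        (((q : ℂ) + 2 * v) ^ m₂) (((q : ℂ) + 2 * v + v ^ 2) ^ m₂) (q : ℂ) k n := by
  have hq' : (q : ℂ) ≠ 0 := Nat.cast_ne_zero.2 hq
  apply mul_left_cancel₀ hq'
  rw [fk, ← theta_colour_sum k n K m m₁ m₂ q ((q : ℂ) + 2 * v) ((q : ℂ) + 2 * v + v ^ 2)]
  have h := twoPath_sum (sH (k := k) (n := n) (K := K) (m := m) (m₁ := m₁) (m₂ := m₂)) tH
    (fun e => sH_ne_tH e) q v
  refine Eq.trans ?_ (h.trans ?_)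
  · refine Finset.sum_congr ?_ fun c _ => Finset.prod_congr ?_ fun e _ => if_congr Iff.rfl rfl rfl
    · ext x
      simp only [Finset.mem_univ]
    · ext e
      simp only [SimpleGraph.mem_edgeFinset]
      rfl
  · refine Finset.sum_congr ?_ fun c _ => Finset.prod_congr rfl fun e _ => if_congr Iff.rfl rfl rfl
    ext x
    simp only [Finset.mem_univ]

/-- Both sides are polynomials in `q` which agree at all positive integers. -/
theorem ysum_theta (k n K m m₁ m₂ : ℕ) (q v : ℂ) :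
    ysum (theta k n K m m₁ m₂) q v =
      totG ((q + 2 * v) ^ K) ((q + 2 * v + v ^ 2) ^ K) ((q + 2 * v) ^ m) ((q + 2 * v + v ^ 2) ^ m)
        ((q + 2 * v) ^ m₁) ((q + 2 * v + v ^ 2) ^ m₁) ((q + 2 * v) ^ m₂)
        ((q + 2 * v + v ^ 2) ^ m₂) q k n := by
  let P : Polynomial ℂ := ∑ A ∈ (theta k n K m m₁ m₂).edgeFinset.powerset,
    Polynomial.X ^ (comps A - 1) * Polynomial.C (v ^ A.card)
  let t0 : Polynomial ℂ := Polynomial.X + Polynomial.C (2 * v)
  let t1 : Polynomial ℂ := Polynomial.X + Polynomial.C (2 * v) + Polynomial.C (v ^ 2)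
  let Q : Polynomial ℂ := totG (t0 ^ K) (t1 ^ K) (t0 ^ m) (t1 ^ m) (t0 ^ m₁) (t1 ^ m₁) (t0 ^ m₂)
    (t1 ^ m₂) Polynomial.X k n
  have hP : ∀ z : ℂ, P.eval z = ysum (theta k n K m m₁ m₂) z v := by
    intro z
    simp only [P, ysum, Polynomial.eval_finsetSum, Polynomial.eval_mul, Polynomial.eval_pow,
      Polynomial.eval_X, Polynomial.eval_C]
  have hQ : ∀ z : ℂ, Q.eval z = totG ((z + 2 * v) ^ K) ((z + 2 * v + v ^ 2) ^ K)
      ((z + 2 * v) ^ m) ((z + 2 * v + v ^ 2) ^ m) ((z + 2 * v) ^ m₁) ((z + 2 * v + v ^ 2) ^ m₁)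
      ((z + 2 * v) ^ m₂) ((z + 2 * v + v ^ 2) ^ m₂) z k n := by
    intro z
    have h1 := poly_totG (Polynomial.evalRingHom z) (t0 ^ K) (t1 ^ K) (t0 ^ m) (t1 ^ m) (t0 ^ m₁)
      (t1 ^ m₁) (t0 ^ m₂) (t1 ^ m₂) Polynomial.X k n
    have e0 : (Polynomial.evalRingHom z) t0 = z + 2 * v := by
      simp only [t0, Polynomial.coe_evalRingHom, Polynomial.eval_add, Polynomial.eval_X,
        Polynomial.eval_C]
    have e1 : (Polynomial.evalRingHom z) t1 = z + 2 * v + v ^ 2 := by
      simp only [t1, Polynomial.coe_evalRingHom, Polynomial.eval_add, Polynomial.eval_X,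
        Polynomial.eval_C]
    have e2 : (Polynomial.evalRingHom z) Polynomial.X = z := by
      simp only [Polynomial.coe_evalRingHom, Polynomial.eval_X]
    simp only [map_pow, e0, e1, e2] at h1
    exact h1.symm
  have hPQ : P = Q := by
    apply Polynomial.eq_of_infinite_eval_eq
    refine Set.infinite_of_injective_forall_mem (f := fun j : ℕ => ((j + 1 : ℕ) : ℂ)) ?_ ?_
    · intro i j hij
      have h2 := Nat.cast_injective (R := ℂ) hij
      omega
    · intro j
      show P.eval _ = Q.eval _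
      rw [hP, hQ]
      exact poly_nat k n K m m₁ m₂ (j + 1) (Nat.succ_ne_zero j) v
  rw [← hP, ← hQ, hPQ]

end Pool.Agent.NZF
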