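import Pool.Agent.NZF.Defs

/-!
NZF-Rank: the number of components `comps A` of the graph with edge set `A` on `n` vertices satisfies `n ≤ |A| + comps A`
(induction on `A`), it is one for the edge set of a connected graph, and the power of `y - 1` is distributed over the Tutte
sum.
-/

set_option autoImplicit false

namespace Pool.Agent.NZF

open Classical Finset

theorem comps_pos {V : Type} [Fintype V] [Nonempty V] (A : Finset (Sym2 V)) : 1 ≤ comps A := by
  have h1 : Nonempty (SimpleGraph.fromEdgeSet (A : Set (Sym2 V))).ConnectedComponent :=
    (inferInstance : Nonempty V).map (SimpleGraph.connectedComponentMk _)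
  exact Nat.card_pos

private theorem NZF_Rank_reach {V β : Type} {G : SimpleGraph V} {f : V → β}
    (h : ∀ u v, G.Adj u v → f u = f v) {u v : V} (p : G.Walk u v) : f u = f v := by
  induction p with
  | nil => rfl
  | cons h' _ ih => exact (h _ _ h').trans ih

private theorem NZF_Rank_step {V : Type} [Fintype V] (A : Finset (Sym2 V)) (a b : V) :
    comps A ≤ comps (insert s(a, b) A) + 1 := by
  set G := SimpleGraph.fromEdgeSet (A : Set (Sym2 V)) with hG
  set G' := SimpleGraph.fromEdgeSet ((insert s(a, b) A : Finset (Sym2 V)) : Set (Sym2 V)) with hG'
  let φ : V → G.ConnectedComponent := fun v =>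
    if G.connectedComponentMk v = G.connectedComponentMk b then G.connectedComponentMk a
    else G.connectedComponentMk v
  have ha : φ a = G.connectedComponentMk a := by
    show (if G.connectedComponentMk a = G.connectedComponentMk b then G.connectedComponentMk a
      else G.connectedComponentMk a) = _
    split_ifs <;> rfl
  have hb : φ b = G.connectedComponentMk a := if_pos rfl
  have h1 : ∀ u v, G'.Adj u v → φ u = φ v := by
    intro u v huv
    rw [hG', SimpleGraph.fromEdgeSet_adj] at huv
    obtain ⟨h2, h3⟩ := huv
    rw [Finset.mem_coe, Finset.mem_insert] at h2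
    rcases h2 with h2 | h2
    · rw [Sym2.eq_iff] at h2
      rcases h2 with ⟨rfl, rfl⟩ | ⟨rfl, rfl⟩
      · rw [ha, hb]
      · rw [ha, hb]
    · have h4 : G.Adj u v := by
        rw [hG, SimpleGraph.fromEdgeSet_adj]
        exact ⟨Finset.mem_coe.2 h2, h3⟩
      have h5 : G.connectedComponentMk u = G.connectedComponentMk v :=
        SimpleGraph.ConnectedComponent.sound h4.reachable
      show (if G.connectedComponentMk u = G.connectedComponentMk b then G.connectedComponentMk a
        else G.connectedComponentMk u) = (if G.connectedComponentMk v = G.connectedComponentMk b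
          then G.connectedComponentMk a else G.connectedComponentMk v)
      rw [h5]
  let ψ : G'.ConnectedComponent → G.ConnectedComponent :=
    SimpleGraph.ConnectedComponent.lift φ (fun u v p _ => NZF_Rank_reach h1 p)
  have h2 : (Set.univ : Set G.ConnectedComponent) ⊆
      insert (G.connectedComponentMk b) (Set.range ψ) := by
    intro C _
    by_cases hC : C = G.connectedComponentMk b
    · exact Or.inl hC
    · right
      obtain ⟨v, rfl⟩ := C.exists_rep
      refine ⟨G'.connectedComponentMk v, ?_⟩
      show φ v = G.connectedComponentMk v
      exact if_neg hC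
  have h3 : Nat.card G.ConnectedComponent ≤
      (insert (G.connectedComponentMk b) (Set.range ψ)).ncard := by
    rw [← Set.ncard_univ]
    exact Set.ncard_le_ncard h2 (Set.toFinite _)
  have h4 : (Set.range ψ).ncard ≤ Nat.card G'.ConnectedComponent := by
    rw [← Set.image_univ, ← Set.ncard_univ]
    exact Set.ncard_image_le (Set.toFinite _)
  have h5 := Set.ncard_insert_le (G.connectedComponentMk b) (Set.range ψ)
  show Nat.card G.ConnectedComponent ≤ Nat.card G'.ConnectedComponent + 1
  omega

/-- Removing one edge at a time: each edge lowers the number of components by at most one. -/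
theorem card_le_add_comps {V : Type} [Fintype V] (A : Finset (Sym2 V)) :
    Fintype.card V ≤ A.card + comps A := by
  induction A using Finset.induction_on with
  | empty =>
    rw [Finset.card_empty, zero_add, ← Nat.card_eq_fintype_card]
    apply Nat.card_le_card_of_injective (SimpleGraph.connectedComponentMk
      (SimpleGraph.fromEdgeSet ((∅ : Finset (Sym2 V)) : Set (Sym2 V))))
    intro u v huv
    have h1 := SimpleGraph.ConnectedComponent.exact huv
    rw [Finset.coe_empty, SimpleGraph.fromEdgeSet_empty] at h1
    exact SimpleGraph.reachable_bot.1 h1
  | insert e A he ih =>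
    rw [Finset.card_insert_of_notMem he]
    induction e using Sym2.ind with
    | _ a b =>
      have h1 := NZF_Rank_step A a b
      omega

theorem comps_connected {V : Type} [Fintype V] {G : SimpleGraph V} (hG : G.Connected) :
    comps G.edgeFinset = 1 := by
  unfold comps
  rw [SimpleGraph.coe_edgeFinset, SimpleGraph.fromEdgeSet_edgeSet]
  have h1 : Subsingleton G.ConnectedComponent := hG.preconnected.subsingleton_connectedComponent
  have h2 : Nonempty G.ConnectedComponent := hG.nonempty.map G.connectedComponentMk
  exact Nat.card_eq_one_iff_unique.2 ⟨h1, h2⟩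

theorem tutte_mul {V : Type} [Fintype V] {G : SimpleGraph V} (hG : G.Connected) (x y : ℂ) :
    tutte G x y * (y - 1) ^ (Fintype.card V - 1) = ysum G ((x - 1) * (y - 1)) (y - 1) := by
  have hV : Nonempty V := hG.nonempty
  unfold tutte ysum
  rw [Finset.sum_mul]
  apply Finset.sum_congr rfl
  intro A _
  rw [comps_connected hG]
  have h1 := comps_pos A
  have h2 := card_le_add_comps A
  have h3 : 0 < Fintype.card V := Fintype.card_pos
  rw [mul_pow, mul_assoc, mul_assoc, ← pow_add, ← pow_add]
  congr 2
  omega

end Pool.Agent.NZF
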