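import Pool.Agent.NZF.Path

/-!
The path sums for the random cluster weights. Induction on n generalizing y. psum (n+1) x y = sum_b psum n x b * u b * (if b = y then r1 else r0)
= r0 * S + (r1 - r0) * psum n x y * u y with S = sum_b psum n x b * u b. Case x = z: S = s1 E + (q-1) s0 D (E value at z, D value
elsewhere). Case x <> z: S = s1 a + s0 b + (q-2) s0 d: values at z, at x, and at the q-2 other colours (write the
function of b as d' + (b = z)(..) + (b = x)(..) and use Finset.sum_add_distrib, Finset.sum_ite_eq, card_univ, Fintype.card_fin).
-/

set_option autoImplicit false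

namespace Pool.Agent.NZF

open Classical Finset

private theorem Rec_two (q : ℕ) (z : Fin q) (A B : ℂ) :
    ∑ b : Fin q, (if b = z then A else B) = A + ((q : ℂ) - 1) * B := by
  have h : ∀ b : Fin q, (if b = z then A else B) = B + (if b = z then A - B else 0) := by
    intro b
    by_cases hb : b = z
    · rw [if_pos hb, if_pos hb]
      ring
    · rw [if_neg hb, if_neg hb]
      ring
  rw [Finset.sum_congr rfl fun b _ => h b, Finset.sum_add_distrib, Finset.sum_const, Finset.card_univ,
    Fintype.card_fin, nsmul_eq_mul, Finset.sum_ite_eq' Finset.univ z, if_pos (Finset.mem_univ z)]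
  ring

private theorem Rec_three (q : ℕ) (z x : Fin q) (hx : x ≠ z) (A B D : ℂ) :
    ∑ b : Fin q, (if b = z then A else if b = x then B else D) = A + B + ((q : ℂ) - 2) * D := by
  have h : ∀ b : Fin q, (if b = z then A else if b = x then B else D) =
      D + ((if b = z then A - D else 0) + (if b = x then B - D else 0)) := by
    intro b
    by_cases hb : b = z
    · have h2 : b ≠ x := fun h3 => hx (h3.symm.trans hb)
      rw [if_pos hb, if_pos hb, if_neg h2]
      ring
    · rw [if_neg hb, if_neg hb]
      by_cases h2 : b = x
      · rw [if_pos h2, if_pos h2]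
        ring
      · rw [if_neg h2, if_neg h2]
        ring
  rw [Finset.sum_congr rfl fun b _ => h b, Finset.sum_add_distrib, Finset.sum_add_distrib, Finset.sum_const,
    Finset.card_univ, Fintype.card_fin, nsmul_eq_mul, Finset.sum_ite_eq' Finset.univ z,
    Finset.sum_ite_eq' Finset.univ x, if_pos (Finset.mem_univ z), if_pos (Finset.mem_univ x)]
  ring

private theorem Rec_step (q : ℕ) (r0 r1 : ℂ) (u : Fin q → ℂ) (x y : Fin q) (n : ℕ) :
    psum (fun a b : Fin q => if a = b then r1 else r0) u (n + 1) x y =
      r0 * (∑ b, psum (fun a b : Fin q => if a = b then r1 else r0) u n x b * u b) +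
        (r1 - r0) * (psum (fun a b : Fin q => if a = b then r1 else r0) u n x y * u y) := by
  show ∑ b, psum (fun a b : Fin q => if a = b then r1 else r0) u n x b * u b * (if b = y then r1 else r0) = _
  have h : ∀ b : Fin q, psum (fun a b : Fin q => if a = b then r1 else r0) u n x b * u b *
      (if b = y then r1 else r0) =
      r0 * (psum (fun a b : Fin q => if a = b then r1 else r0) u n x b * u b) +
        (if b = y then (r1 - r0) * (psum (fun a b : Fin q => if a = b then r1 else r0) u n x b * u b) else 0) := by
    intro b
    by_cases hb : b = y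
    · rw [if_pos hb, if_pos hb]
      ring
    · rw [if_neg hb, if_neg hb]
      ring
  rw [Finset.sum_congr rfl fun b _ => h b, Finset.sum_add_distrib, ← Finset.mul_sum,
    Finset.sum_ite_eq' Finset.univ y, if_pos (Finset.mem_univ y)]

/-- The path sums for `q` colours, apex colour `z`. -/
theorem psum_rec (q : ℕ) (r0 r1 s0 s1 : ℂ) (z x y : Fin q) (n : ℕ) :
    psum (fun a b : Fin q => if a = b then r1 else r0) (fun b => if b = z then s1 else s0) n x y =
      if x = z then (if y = z then (stZ r0 r1 s0 s1 (q : ℂ) n).1 else (stZ r0 r1 s0 s1 (q : ℂ) n).2)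
      else if y = z then (stA r0 r1 s0 s1 (q : ℂ) n).1
      else if y = x then (stA r0 r1 s0 s1 (q : ℂ) n).2.1
      else (stA r0 r1 s0 s1 (q : ℂ) n).2.2 := by
  by_cases hx : x = z
  · subst hx
    rw [if_pos rfl]
    induction n generalizing y with
    | zero =>
      show (if x = y then r1 else r0) = _
      by_cases hy : y = x
      · rw [if_pos hy, if_pos hy.symm]
        rfl
      · rw [if_neg hy, if_neg (Ne.symm hy)]
        rfl
    | succ n ih =>
      rw [Rec_step]
      have hS : ∑ b, psum (fun a b : Fin q => if a = b then r1 else r0) (fun b => if b = x then s1 else s0) n x b *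
          (if b = x then s1 else s0) =
          s1 * (stZ r0 r1 s0 s1 (q : ℂ) n).1 + ((q : ℂ) - 1) * s0 * (stZ r0 r1 s0 s1 (q : ℂ) n).2 := by
        have h1 : ∀ b : Fin q, psum (fun a b : Fin q => if a = b then r1 else r0)
            (fun b => if b = x then s1 else s0) n x b * (if b = x then s1 else s0) =
            if b = x then s1 * (stZ r0 r1 s0 s1 (q : ℂ) n).1 else s0 * (stZ r0 r1 s0 s1 (q : ℂ) n).2 := by
          intro b
          rw [ih b]
          by_cases hb : b = x
          · rw [if_pos hb, if_pos hb, if_pos hb]
            ring
          · rw [if_neg hb, if_neg hb, if_neg hb]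
            ring
        rw [Finset.sum_congr rfl fun b _ => h1 b, Rec_two]
        ring
      rw [hS, ih y]
      by_cases hy : y = x
      · simp only [if_pos hy, stZ]
        ring
      · simp only [if_neg hy, stZ]
        ring
  · rw [if_neg hx]
    induction n generalizing y with
    | zero =>
      show (if x = y then r1 else r0) = _
      by_cases hz : y = z
      · have h2 : x ≠ y := fun h3 => hx (h3.trans hz)
        rw [if_pos hz, if_neg h2]
        rfl
      · rw [if_neg hz]
        by_cases hy : y = x
        · rw [if_pos hy, if_pos hy.symm]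
          rfl
        · rw [if_neg hy, if_neg (Ne.symm hy)]
          rfl
    | succ n ih =>
      rw [Rec_step]
      have hS : ∑ b, psum (fun a b : Fin q => if a = b then r1 else r0) (fun b => if b = z then s1 else s0) n x b *
          (if b = z then s1 else s0) =
          s1 * (stA r0 r1 s0 s1 (q : ℂ) n).1 + s0 * (stA r0 r1 s0 s1 (q : ℂ) n).2.1 +
            ((q : ℂ) - 2) * s0 * (stA r0 r1 s0 s1 (q : ℂ) n).2.2 := by
        have h1 : ∀ b : Fin q, psum (fun a b : Fin q => if a = b then r1 else r0)
            (fun b => if b = z then s1 else s0) n x b * (if b = z then s1 else s0) =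
            if b = z then s1 * (stA r0 r1 s0 s1 (q : ℂ) n).1
            else if b = x then s0 * (stA r0 r1 s0 s1 (q : ℂ) n).2.1
            else s0 * (stA r0 r1 s0 s1 (q : ℂ) n).2.2 := by
          intro b
          rw [ih b]
          by_cases hb : b = z
          · rw [if_pos hb, if_pos hb, if_pos hb]
            ring
          · rw [if_neg hb, if_neg hb, if_neg hb]
            by_cases h2 : b = x
            · rw [if_pos h2, if_pos h2]
              ring
            · rw [if_neg h2, if_neg h2]
              ring
        rw [Finset.sum_congr rfl fun b _ => h1 b, Rec_three q z x hx]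
        ring
      rw [hS, ih y]
      by_cases hz : y = z
      · simp only [if_pos hz, stA]
        ring
      · by_cases hy : y = x
        · simp only [if_neg hz, if_pos hy, stA]
          ring
        · simp only [if_neg hz, if_neg hy, stA]
          ring

end Pool.Agent.NZF
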