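import Pool.Agent.NZF.Poly

/-!
NZF-Zero. The scaling of the weights in `totG`; a zero of the normalised sum `totG` is a zero of the Tutte polynomial of
the graph `theta`.
-/

set_option autoImplicit false

namespace Pool.Agent.NZF

open Classical Finset

private theorem Zero_stA {R : Type} [CommRing R] (l s r0 r1 s0 s1 q : R) (n : ℕ) :
    stA (l * r0) (l * r1) (s * s0) (s * s1) q n =
      (l ^ (n + 1) * s ^ n * (stA r0 r1 s0 s1 q n).1, l ^ (n + 1) * s ^ n * (stA r0 r1 s0 s1 q n).2.1,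
        l ^ (n + 1) * s ^ n * (stA r0 r1 s0 s1 q n).2.2) := by
  induction n with
  | zero => simp [stA]
  | succ n ih =>
    rw [stA, ih, stA]
    simp only [Prod.mk.injEq]
    refine ⟨?_, ?_, ?_⟩ <;> ring

private theorem Zero_stZ {R : Type} [CommRing R] (l s r0 r1 s0 s1 q : R) (n : ℕ) :
    stZ (l * r0) (l * r1) (s * s0) (s * s1) q n =
      (l ^ (n + 1) * s ^ n * (stZ r0 r1 s0 s1 q n).1, l ^ (n + 1) * s ^ n * (stZ r0 r1 s0 s1 q n).2) := by
  induction n with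
  | zero => simp [stZ]
  | succ n ih =>
    rw [stZ, ih, stZ]
    simp only [Prod.mk.injEq]
    refine ⟨?_, ?_⟩ <;> ring

theorem totG_scale {R : Type} [CommRing R] (l s f g r0 r1 s0 s1 f0 f1 g0 g1 q : R) (k n : ℕ) :
    totG (l * r0) (l * r1) (s * s0) (s * s1) (f * f0) (f * f1) (g * g0) (g * g1) q k n =
      (l ^ (n + 1) * s ^ n) ^ k * f * g * totG r0 r1 s0 s1 f0 f1 g0 g1 q k n := by
  unfold totG
  rw [Zero_stA, Zero_stZ]
  simp only [mul_pow]
  ring

/-- A zero of the normalised sum is a zero of the Tutte polynomial. -/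
theorem tutte_zero {k n K m m₁ m₂ : ℕ} (hk : 0 < k) (hK : 0 < K) (hm₁ : 0 < m₁) {x y : ℂ}
    (hx : x + 1 ≠ 0) (hy : y ≠ 1)
    (h : totG 1 (((x + y) / (x + 1)) ^ K) 1 (((x + y) / (x + 1)) ^ m) 1
      (((x + y) / (x + 1)) ^ m₁) 1 (((x + y) / (x + 1)) ^ m₂) ((x - 1) * (y - 1)) k n = 0) :
    tutte (theta k n K m m₁ m₂) x y = 0 := by
  have hG : (theta k n K m m₁ m₂).Connected := theta_connected hk hK hm₁
  have h1 := tutte_mul hG x y
  have h2 := ysum_theta k n K m m₁ m₂ ((x - 1) * (y - 1)) (y - 1)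
  set Y : ℂ := (x + y) / (x + 1) with hY
  set t : ℂ := (x - 1) * (y - 1) + 2 * (y - 1) with ht
  have h3 : (x - 1) * (y - 1) + 2 * (y - 1) + (y - 1) ^ 2 = t * Y := by
    rw [ht, hY]
    field_simp
    ring
  have h4 : ∀ j : ℕ, t ^ j = t ^ j * 1 := fun j => (mul_one _).symm
  have h5 : ysum (theta k n K m m₁ m₂) ((x - 1) * (y - 1)) (y - 1) = 0 := by
    rw [h2, h3, mul_pow, mul_pow, mul_pow, mul_pow]
    have h6 := totG_scale (t ^ K) (t ^ m) (t ^ m₁) (t ^ m₂) 1 (Y ^ K) 1 (Y ^ m) 1 (Y ^ m₁) 1 (Y ^ m₂)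
      ((x - 1) * (y - 1)) k n
    rw [← h4, ← h4, ← h4, ← h4, h, mul_zero] at h6
    exact h6
  rw [h5] at h1
  rcases mul_eq_zero.1 h1 with h6 | h6
  · exact h6
  · exact absurd h6 (pow_ne_zero _ (sub_ne_zero.2 hy))

end Pool.Agent.NZF
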